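import Pool.Agent.H74.GE.TwoDeg

/-!
# GE/Blocked : blocking cuts

Setting (`Blocked`): `C` a thick compatible circuit, `X` a finite set of vertices, `a ∈ X`,
`b ∉ X`, `a ~ b`, `s(a,b) ∉ C`, `w s(a,b) = 2`, and every edge `xy` of `G` with `x ∈ X`,
`y ∉ X` is either `ab` or an edge of `C` of weight 1.

* `unique_out`: every `x ∈ X` has at most one neighbour outside `X`. Suppose `y ≠ y'` are two. If both
  edges are in `C` they have weight 1, contradicting `compat` (`1 + 1 < 3`). If one of them is `ab`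
  (so `x = a`) and the other `f ∈ C` has weight 1, then by `two` there is `e' ∈ C`, `e' ≠ f` at `a`,
  by `compat` `w e' = 2`, and `e' ≠ s(a,b)` as `s(a,b) ∉ C`; so the three edges at `a` have weights
  2, 2, 1, contradicting `IsEulerian` (the number of neighbours along weight 1 edges is even).
* `card_ge`: by `unique_out` and cubicity (three neighbours, at most one outside) for every `x ∈ X` and
  `y` there is a neighbour `z ∈ X`, `z ≠ y`; apply `card_ge_of_two`.
* `third`: let `v ∈ X` with a crossing edge `f = s(v,y) ∈ C`, `y ∉ X`. Then there is `v₁ ∈ X`,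
  `G.Adj v v₁`, `s(v,v₁) ∉ C`: by `two`, `compat` the other edge of `C` at `v` has weight 2
  (`w f = 1` by `cross`, as `s(a,b) ∉ C`); the third edge at `v` has weight 1 (parity) and is not in
  `C` (`atmost`), so it does not leave `X` (`cross`, `wt`).
* `out_card`: the number `cr G X` is `1 +` the number of `v ∈ X` having a neighbour `y ∉ X` with
  `s(v,y) ∈ C` (by `unique_out` every vertex of `X` has at most one crossing edge, and `a` has `ab`).
-/

open scoped Classical

noncomputable section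

namespace GE

universe u
variable {V : Type u} [Fintype V]

/-- the number of edges leaving `X`. -/
def cr (G : SimpleGraph V) (X : Finset V) : ℕ :=
  ((X ×ˢ Xᶜ).filter (fun p => G.Adj p.1 p.2)).card

/-- the hypotheses on a blocking cut. -/
structure Blocked (G : SimpleGraph V) (w : Sym2 V → ℕ) (C : Finset (Sym2 V)) (X : Finset V)
    (a b : V) : Prop where
  mem : a ∈ X
  notMem : b ∉ X
  adj : G.Adj a b
  notC : s(a, b) ∉ C
  wt : w s(a, b) = 2
  cross : ∀ x ∈ X, ∀ y ∉ X, G.Adj x y → (x = a ∧ y = b) ∨ (s(x, y) ∈ C ∧ w s(x, y) = 1)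

omit [Fintype V] in
private theorem Blocked_parity {G : SimpleGraph V} {w : Sym2 V → ℕ}
    (h3 : IsCubic G) (hE : IsEulerian G w) {v p q s : V} (hp : G.Adj v p) (hq : G.Adj v q)
    (hs : G.Adj v s) (hpq : p ≠ q) (hps : p ≠ s) (hqs : q ≠ s) :
    Even (w s(v, p) + w s(v, q) + w s(v, s)) := by
  have hcard3 : ({p, q, s} : Set V).ncard = 3 := by
    rw [Set.ncard_eq_three]
    exact ⟨p, q, s, hpq, hps, hqs, rfl⟩
  have hsub : ({p, q, s} : Set V) ⊆ G.neighborSet v := by
    intro z hz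
    simp only [Set.mem_insert_iff, Set.mem_singleton_iff] at hz
    rcases hz with rfl | rfl | rfl
    · exact hp
    · exact hq
    · exact hs
  have hN : ({p, q, s} : Set V) = G.neighborSet v :=
    Set.eq_of_subset_of_ncard_le hsub (by rw [h3 v, hcard3])
      (Set.finite_of_ncard_pos (by rw [h3 v]; norm_num))
  have hset : ({x | G.Adj v x ∧ Odd (w s(v, x))} : Set V)
      = ↑((({p, q, s} : Finset V)).filter (fun x => Odd (w s(v, x)))) := by
    ext x
    have hx : G.Adj v x ↔ x ∈ ({p, q, s} : Set V) := by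
      rw [hN]; rfl
    simp only [Set.mem_ofPred_eq, Finset.coe_filter, Finset.mem_insert, Finset.mem_singleton, hx,
      Set.mem_insert_iff, Set.mem_singleton_iff]
  have he := hE v
  rw [hset, Set.ncard_coe_finset, Finset.card_filter,
    Finset.sum_insert (by simp [hpq, hps]), Finset.sum_insert (by simp [hqs]),
    Finset.sum_singleton] at he
  have key : ∀ n : ℕ, (if Odd n then 1 else 0) = n % 2 := by
    intro n
    by_cases h : Odd n
    · rw [if_pos h]
      exact (Nat.odd_iff.mp h).symm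
    · rw [if_neg h]
      exact (Nat.even_iff.mp (Nat.not_odd_iff_even.mp h)).symm
  rw [key, key, key, Nat.even_iff] at he
  rw [Nat.even_iff]
  omega

omit [Fintype V] in
private theorem Blocked_nbrs {G : SimpleGraph V} (h3 : IsCubic G) (v : V) :
    ∃ p q s, p ≠ q ∧ p ≠ s ∧ q ≠ s ∧ G.Adj v p ∧ G.Adj v q ∧ G.Adj v s := by
  obtain ⟨p, q, s, hpq, hps, hqs, hN⟩ := Set.ncard_eq_three.mp (h3 v)
  refine ⟨p, q, s, hpq, hps, hqs, ?_, ?_, ?_⟩
  · have : p ∈ G.neighborSet v := by rw [hN]; simp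
    exact this
  · have : q ∈ G.neighborSet v := by rw [hN]; simp
    exact this
  · have : s ∈ G.neighborSet v := by rw [hN]; simp
    exact this

omit [Fintype V] in
private theorem Blocked_ne {x y y' : V} (h : y ≠ y') : s(x, y) ≠ s(x, y') := by
  intro hh
  exact h (Sym2.congr_right.mp hh)

omit [Fintype V] in
/-- the case distinction of `unique_out` with one crossing edge equal to `ab`. -/
private theorem Blocked_mixed {G : SimpleGraph V} {w : Sym2 V → ℕ} {r : ℕ} {C : Finset (Sym2 V)}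
    {X : Finset V} {a b : V} (h3 : IsCubic G) (h12 : IsWeight12 G w) (hE : IsEulerian G w)
    (hC : ThickCirc G w r C) (hB : Blocked G w C X a b) {y' : V}
    (h2 : s(a, y') ∈ C) (hw : w s(a, y') = 1) : False := by
  obtain ⟨e', he', hne, hae'⟩ := hC.two a s(a, y') h2 (Sym2.mem_mk_left _ _)
  obtain ⟨z, rfl⟩ := Sym2.mem_iff_exists.mp hae'
  have hadjz : G.Adj a z := by
    have := hC.sub _ he'
    rwa [SimpleGraph.mem_edgeSet] at this
  have hadjy : G.Adj a y' := by
    have := hC.sub _ h2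
    rwa [SimpleGraph.mem_edgeSet] at this
  have hcomp := hC.compat a _ _ he' h2 hne (Sym2.mem_mk_left _ _) (Sym2.mem_mk_left _ _)
  have hwz : w s(a, z) = 2 := by
    rcases h12 s(a, z) (by rwa [SimpleGraph.mem_edgeSet]) with h | h
    · omega
    · exact h
  have hzy : z ≠ y' := by
    rintro rfl
    exact hne rfl
  have hzb : z ≠ b := by
    rintro rfl
    exact hB.notC he'
  have hyb : y' ≠ b := by
    rintro rfl
    exact hB.notC h2
  have hpar := Blocked_parity h3 hE hadjz hadjy hB.adj hzy hzb hyb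
  rw [hwz, hw, hB.wt] at hpar
  exact absurd hpar (by decide)

theorem Blocked.unique_out {G : SimpleGraph V} {w : Sym2 V → ℕ} {r : ℕ} {C : Finset (Sym2 V)}
    {X : Finset V} {a b : V} (h3 : IsCubic G) (h12 : IsWeight12 G w) (hE : IsEulerian G w)
    (hC : ThickCirc G w r C) (hB : Blocked G w C X a b) {x y y' : V} (hx : x ∈ X) (hy : y ∉ X)
    (hy' : y' ∉ X) (h1 : G.Adj x y) (h2 : G.Adj x y') : y = y' := by
  by_contra hne
  rcases hB.cross x hx y hy h1 with ⟨hxa, hyb⟩ | ⟨hc, hw⟩
  · rcases hB.cross x hx y' hy' h2 with ⟨_, hyb'⟩ | ⟨hc', hw'⟩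
    · exact hne (hyb.trans hyb'.symm)
    · subst hxa
      exact Blocked_mixed h3 h12 hE hC hB hc' hw'
  · rcases hB.cross x hx y' hy' h2 with ⟨hxa, _⟩ | ⟨hc', hw'⟩
    · subst hxa
      exact Blocked_mixed h3 h12 hE hC hB hc hw
    · have := hC.compat x _ _ hc hc' (Blocked_ne hne) (Sym2.mem_mk_left _ _)
        (Sym2.mem_mk_left _ _)
      omega

theorem Blocked.card_ge {G : SimpleGraph V} {w : Sym2 V → ℕ} {r g : ℕ} {C : Finset (Sym2 V)}
    {X : Finset V} {a b : V} (h3 : IsCubic G) (h12 : IsWeight12 G w) (hE : IsEulerian G w)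
    (hg : GirthAtLeast G g) (hC : ThickCirc G w r C) (hB : Blocked G w C X a b) :
    g ≤ X.card := by
  refine card_ge_of_two hg X ⟨a, hB.mem⟩ ?_
  intro x hx y
  obtain ⟨p, q, s, hpq, hps, hqs, hp, hq, hs⟩ := Blocked_nbrs h3 x
  by_contra hcon
  push Not at hcon
  have key : ∀ z z', z ≠ z' → G.Adj x z → G.Adj x z' → ¬ (z ∈ X ∧ z' ∈ X) := by
    rintro z z' hzz hz hz' ⟨hzX, hzX'⟩
    exact hzz ((hcon z hzX hz).trans (hcon z' hzX' hz').symm)
  have key2 : ∀ z z', z ≠ z' → G.Adj x z → G.Adj x z' → ¬ (z ∉ X ∧ z' ∉ X) := by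
    rintro z z' hzz hz hz' ⟨hzX, hzX'⟩
    exact hzz (hB.unique_out h3 h12 hE hC hx hzX hzX' hz hz')
  have a1 := key p q hpq hp hq
  have a2 := key p s hps hp hs
  have a3 := key q s hqs hq hs
  have b1 := key2 p q hpq hp hq
  have b2 := key2 p s hps hp hs
  have b3 := key2 q s hqs hq hs
  tauto

theorem Blocked.third {G : SimpleGraph V} {w : Sym2 V → ℕ} {r : ℕ} {C : Finset (Sym2 V)}
    {X : Finset V} {a b : V} (h3 : IsCubic G) (h12 : IsWeight12 G w) (hE : IsEulerian G w)
    (hC : ThickCirc G w r C) (hB : Blocked G w C X a b) {v y : V} (hv : v ∈ X) (hy : y ∉ X)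
    (hf : s(v, y) ∈ C) : ∃ v₁ ∈ X, G.Adj v v₁ ∧ s(v, v₁) ∉ C := by
  have hadj : G.Adj v y := by
    have := hC.sub _ hf
    rwa [SimpleGraph.mem_edgeSet] at this
  have hw : w s(v, y) = 1 := by
    rcases hB.cross v hv y hy hadj with ⟨rfl, rfl⟩ | ⟨_, hw⟩
    · exact absurd hf hB.notC
    · exact hw
  obtain ⟨e', he', hne, hve'⟩ := hC.two v s(v, y) hf (Sym2.mem_mk_left _ _)
  obtain ⟨z, rfl⟩ := Sym2.mem_iff_exists.mp hve'
  have hadjz : G.Adj v z := by
    have := hC.sub _ he'
    rwa [SimpleGraph.mem_edgeSet] at this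
  have hcomp := hC.compat v _ _ he' hf hne (Sym2.mem_mk_left _ _) (Sym2.mem_mk_left _ _)
  have hwz : w s(v, z) = 2 := by
    rcases h12 s(v, z) (by rwa [SimpleGraph.mem_edgeSet]) with h | h
    · omega
    · exact h
  have hzy : z ≠ y := by
    rintro rfl
    exact hne rfl
  -- the third neighbour
  obtain ⟨v₁, hv₁, hv₁z, hv₁y⟩ : ∃ v₁, G.Adj v v₁ ∧ v₁ ≠ z ∧ v₁ ≠ y := by
    obtain ⟨p, q, s, hpq, hps, hqs, hp, hq, hs⟩ := Blocked_nbrs h3 v
    by_contra hcon
    push Not at hcon
    have e1 := hcon p hp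
    have e2 := hcon q hq
    have e3 := hcon s hs
    by_cases c1 : p = z
    · have q1 : q = y := e2 (fun h => hpq (c1.trans h.symm))
      have q2 : s = y := e3 (fun h => hps (c1.trans h.symm))
      exact hqs (q1.trans q2.symm)
    · have p1 : p = y := e1 c1
      by_cases c2 : q = z
      · have q2 : s = y := e3 (fun h => hqs (c2.trans h.symm))
        exact hps (p1.trans q2.symm)
      · exact hpq (p1.trans (e2 c2).symm)
  have hpar := Blocked_parity h3 hE hv₁ hadjz hadj hv₁z hv₁y hzy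
  rw [hwz, hw] at hpar
  have hw1 : w s(v, v₁) = 1 := by
    rcases h12 s(v, v₁) (by rwa [SimpleGraph.mem_edgeSet]) with h | h
    · exact h
    · rw [h] at hpar
      exact absurd hpar (by decide)
  have hnC : s(v, v₁) ∉ C := by
    intro hin
    rcases hC.atmost v _ _ _ hin he' hf (Sym2.mem_mk_left _ _) (Sym2.mem_mk_left _ _)
      (Sym2.mem_mk_left _ _) with h | h | h
    · exact Blocked_ne hv₁z h
    · exact Blocked_ne hv₁y h
    · exact hne h
  refine ⟨v₁, ?_, hv₁, hnC⟩
  by_contra hX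
  rcases hB.cross v hv v₁ hX hv₁ with ⟨rfl, rfl⟩ | ⟨hc, _⟩
  · rw [hB.wt] at hw1
    exact absurd hw1 (by decide)
  · exact hnC hc

theorem Blocked.out_card {G : SimpleGraph V} {w : Sym2 V → ℕ} {r : ℕ} {C : Finset (Sym2 V)}
    {X : Finset V} {a b : V} (h3 : IsCubic G) (h12 : IsWeight12 G w) (hE : IsEulerian G w)
    (hC : ThickCirc G w r C) (hB : Blocked G w C X a b) :
    cr G X = (X.filter (fun v => ∃ y, y ∉ X ∧ s(v, y) ∈ C)).card + 1 := by
  have hinj : Set.InjOn Prod.fst
      (↑((X ×ˢ Xᶜ).filter (fun p : V × V => G.Adj p.1 p.2)) : Set (V × V)) := by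
    rintro ⟨x, y⟩ hxy ⟨x', y'⟩ hxy' heq
    simp only [Finset.coe_filter, Finset.mem_product, Finset.mem_compl, Set.mem_ofPred_eq]
      at hxy hxy' heq
    subst heq
    rw [hB.unique_out h3 h12 hE hC hxy.1.1 hxy.1.2 hxy'.1.2 hxy.2 hxy'.2]
  have himg : ((X ×ˢ Xᶜ).filter (fun p : V × V => G.Adj p.1 p.2)).image Prod.fst
      = insert a (X.filter (fun v => ∃ y, y ∉ X ∧ s(v, y) ∈ C)) := by
    ext x
    simp only [Finset.mem_image, Finset.mem_filter, Finset.mem_product, Finset.mem_compl,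
      Finset.mem_insert, Prod.exists, exists_and_right, exists_eq_right]
    constructor
    · rintro ⟨y, ⟨hx, hy⟩, hadj⟩
      rcases hB.cross x hx y hy hadj with ⟨hxa, _⟩ | ⟨hc, _⟩
      · exact Or.inl hxa
      · exact Or.inr ⟨hx, y, hy, hc⟩
    · rintro (rfl | ⟨hx, y, hy, hc⟩)
      · exact ⟨b, ⟨hB.mem, hB.notMem⟩, hB.adj⟩
      · refine ⟨y, ⟨hx, hy⟩, ?_⟩
        have := hC.sub _ hc
        rwa [SimpleGraph.mem_edgeSet] at this
  have hna : a ∉ X.filter (fun v => ∃ y, y ∉ X ∧ s(v, y) ∈ C) := by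
    simp only [Finset.mem_filter, not_and, not_exists]
    intro _ y hy hc
    have hadj : G.Adj a y := by
      have := hC.sub _ hc
      rwa [SimpleGraph.mem_edgeSet] at this
    have := hB.unique_out h3 h12 hE hC hB.mem hy hB.notMem hadj hB.adj
    subst this
    exact hB.notC hc
  unfold cr
  rw [← Finset.card_image_of_injOn hinj, himg, Finset.card_insert_of_notMem hna]

end GE
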