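import Pool.Agent.H74.GE.Blocked

/-!
# GE/Bridge : a bridge of the reduced graph gives a blocking cut

Let `s(a,b)` be an edge and a bridge of `H = supp G (subW w C)`, `X` the set of vertices
reachable from `a` in `H.deleteEdges {s(a,b)}`, so `b ∉ X`. An edge `xy` of `G` from `X` to `Xᶜ`
other than `ab` is not an edge of `H`, so `subW w C s(x,y) = 0`, i.e. (weights are 1 or 2) it is in
`C` and has weight 1. Parity:
* `cut_even_one`: the number of edges of weight 1 leaving `X` is even (`IsEulerian`: sum over
  `x ∈ X` of the number of neighbours along weight 1 edges; the edges inside `X` count twice);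
* `cut_even_C`: the number of edges of `C` leaving `X` is even (the number of edges of `C` at a vertex
  is 0 or 2 by `two`, `atmost`).
If `w s(a,b) = 1` then `s(a,b) ∉ C` (positive weight left), all crossing edges have weight 1 and
all but `ab` are in `C`: the two even numbers differ by one, impossible. If `w s(a,b) = 2` and
`s(a,b) ∈ C`, all crossing edges are in `C` and all but `ab` have weight 1: impossible again.
So `w s(a,b) = 2` and `s(a,b) ∉ C`, which gives `Blocked G w C X a b`, and, by symmetry of the
conditions, `Blocked G w C Xᶜ b a`.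
-/

open scoped Classical

noncomputable section

namespace GE

universe u
variable {V : Type u} [Fintype V]

private theorem Bridge_cut_even (R : V → V → Prop) (hs : ∀ x y, R x y → R y x)
    (hi : ∀ x, ¬ R x x)
    (hd : ∀ x, Even ((Finset.univ.filter (fun y => R x y)).card)) (X : Finset V) :
    Even ((X ×ˢ Xᶜ).filter (fun p => R p.1 p.2)).card := by
  have h1 : ((X ×ˢ (Finset.univ : Finset V)).filter (fun p => R p.1 p.2)).card
      = ∑ x ∈ X, (Finset.univ.filter (fun y => R x y)).card := by
    rw [Finset.card_filter, Finset.sum_product]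
    refine Finset.sum_congr rfl fun x _ => ?_
    rw [Finset.card_filter]
  have h2 : ((X ×ˢ (Finset.univ : Finset V)).filter (fun p => R p.1 p.2)).card
      = ((X ×ˢ X).filter (fun p => R p.1 p.2)).card
        + ((X ×ˢ Xᶜ).filter (fun p => R p.1 p.2)).card := by
    rw [← Finset.card_union_of_disjoint]
    · congr 1
      ext p
      simp only [Finset.mem_filter, Finset.mem_product, Finset.mem_union, Finset.mem_univ,
        Finset.mem_compl]
      tauto
    · rw [Finset.disjoint_left]
      intro p hp hq
      simp only [Finset.mem_filter, Finset.mem_product, Finset.mem_compl] at hp hq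
      exact hq.1.2 hp.1.2
  have h3 : Even ((X ×ˢ X).filter (fun p => R p.1 p.2)).card := by
    rw [← ZMod.natCast_eq_zero_iff_even, Finset.card_eq_sum_ones, Nat.cast_sum]
    refine Finset.sum_involution (fun p _ => p.swap) ?_ ?_ ?_ ?_
    · intro a _
      decide
    · intro p hp _ he
      simp only [Finset.mem_filter, Finset.mem_product] at hp
      have h : p.2 = p.1 := congrArg Prod.fst he
      have h' := hp.2
      rw [h] at h'
      exact hi _ h'
    · intro p hp
      simp only [Finset.mem_filter, Finset.mem_product] at hp ⊢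
      exact ⟨⟨hp.1.2, hp.1.1⟩, hs _ _ hp.2⟩
    · intro p _
      exact Prod.swap_swap p
  have h4 : Even (∑ x ∈ X, (Finset.univ.filter (fun y => R x y)).card) :=
    Finset.even_sum _ fun x _ => hd x
  rw [← h1, h2] at h4
  exact (Nat.even_add.mp h4).mp h3

private theorem Bridge_cut_even' (R : V → V → Prop) (hs : ∀ x y, R x y → R y x)
    (hi : ∀ x, ¬ R x x)
    (hd : ∀ x, ∃ T : Finset V, (∀ y, y ∈ T ↔ R x y) ∧ Even T.card) (X : Finset V)
    (S : Finset (V × V)) (hS : ∀ p, p ∈ S ↔ (p.1 ∈ X ∧ p.2 ∉ X) ∧ R p.1 p.2) :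
    Even S.card := by
  have hd' : ∀ x, Even ((Finset.univ.filter (fun y => R x y)).card) := by
    intro x
    obtain ⟨T, hT, hE⟩ := hd x
    have he : (Finset.univ.filter (fun y => R x y)) = T := by
      ext y
      rw [hT, Finset.mem_filter]
      exact ⟨fun h => h.2, fun h => ⟨Finset.mem_univ _, h⟩⟩
    rw [he]
    exact hE
  have h := Bridge_cut_even R hs hi hd' X
  have he : S = (X ×ˢ Xᶜ).filter (fun p => R p.1 p.2) := by
    ext p
    rw [hS, Finset.mem_filter, Finset.mem_product, Finset.mem_compl]
  rw [he]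
  exact h

theorem cut_even_one {G : SimpleGraph V} {w : Sym2 V → ℕ} (h12 : IsWeight12 G w)
    (hE : IsEulerian G w) (X : Finset V) :
    Even ((X ×ˢ Xᶜ).filter (fun p => G.Adj p.1 p.2 ∧ w s(p.1, p.2) = 1)).card := by
  refine Bridge_cut_even' (fun x y => G.Adj x y ∧ w s(x, y) = 1) ?_ ?_ ?_ X _ ?_
  · intro x y h
    refine ⟨h.1.symm, ?_⟩
    rw [Sym2.eq_swap]
    exact h.2
  · intro x h
    exact h.1.ne rfl
  · intro x
    refine ⟨Finset.univ.filter (fun y => G.Adj x y ∧ w s(x, y) = 1), fun y => by
      rw [Finset.mem_filter]; exact ⟨fun h => h.2, fun h => ⟨Finset.mem_univ _, h⟩⟩, ?_⟩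
    have h := hE x
    have he : ({y | G.Adj x y ∧ Odd (w s(x, y))} : Set V)
        = ((Finset.univ.filter (fun y => G.Adj x y ∧ w s(x, y) = 1) : Finset V) : Set V) := by
      ext y
      rw [Finset.mem_coe, Finset.mem_filter, and_iff_right (Finset.mem_univ y)]
      constructor
      · rintro ⟨h1, h2⟩
        refine ⟨h1, ?_⟩
        rcases h12 _ ((SimpleGraph.mem_edgeSet G).mpr h1) with h3 | h3
        · exact h3
        · rw [h3] at h2
          exact absurd h2 (by decide)
      · rintro ⟨h1, h2⟩
        exact ⟨h1, by rw [h2]; exact odd_one⟩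
    rw [he, Set.ncard_coe_finset] at h
    exact h
  · intro p
    rw [Finset.mem_filter, Finset.mem_product, Finset.mem_compl]

theorem cut_even_C {G : SimpleGraph V} {w : Sym2 V → ℕ} {r : ℕ} {C : Finset (Sym2 V)}
    (hC : ThickCirc G w r C) (X : Finset V) :
    Even ((X ×ˢ Xᶜ).filter (fun p => s(p.1, p.2) ∈ C)).card := by
  refine Bridge_cut_even' (fun x y => s(x, y) ∈ C) ?_ ?_ ?_ X _ ?_
  · intro x y h
    rw [Sym2.eq_swap]
    exact h
  · intro x h
    exact ((SimpleGraph.mem_edgeSet G).mp (hC.sub _ h)).ne rfl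
  · intro x
    refine ⟨Finset.univ.filter (fun y => s(x, y) ∈ C), fun y => by
      rw [Finset.mem_filter]; exact ⟨fun h => h.2, fun h => ⟨Finset.mem_univ _, h⟩⟩, ?_⟩
    by_cases h0 : ∃ y, s(x, y) ∈ C
    · obtain ⟨y, hy⟩ := h0
      obtain ⟨e, he, hne, hxe⟩ := hC.two x _ hy (Sym2.mem_mk_left x y)
      obtain ⟨z, rfl⟩ := Sym2.mem_iff_exists.mp hxe
      have hyz : y ≠ z := by
        rintro rfl
        exact hne rfl
      have hset : (Finset.univ.filter (fun t => s(x, t) ∈ C)) = {y, z} := by
        ext t
        simp only [Finset.mem_filter, Finset.mem_univ, true_and, Finset.mem_insert,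
          Finset.mem_singleton]
        constructor
        · intro ht
          rcases hC.atmost x _ _ _ ht hy he (Sym2.mem_mk_left _ _) (Sym2.mem_mk_left _ _)
            (Sym2.mem_mk_left _ _) with h | h | h
          · left
            exact Sym2.congr_right.mp h
          · right
            exact Sym2.congr_right.mp h
          · exact absurd (Sym2.congr_right.mp h) hyz
        · rintro (rfl | rfl)
          · exact hy
          · exact he
      rw [hset, Finset.card_pair hyz]
      decide
    · have hset : (Finset.univ.filter (fun t => s(x, t) ∈ C)) = ∅ := by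
        rw [Finset.filter_eq_empty_iff]
        intro t _ ht
        exact h0 ⟨t, ht⟩
      rw [hset, Finset.card_empty]
      exact Even.zero
  · intro p
    rw [Finset.mem_filter, Finset.mem_product, Finset.mem_compl]

theorem bridge_blocked {G : SimpleGraph V} {w : Sym2 V → ℕ} {r : ℕ} {C : Finset (Sym2 V)}
    (h12 : IsWeight12 G w) (hE : IsEulerian G w) (hC : ThickCirc G w r C) {a b : V}
    (hab : (supp G (subW w C)).Adj a b) (hbr : (supp G (subW w C)).IsBridge s(a, b)) :
    ∃ X : Finset V, Blocked G w C X a b ∧ Blocked G w C Xᶜ b a := by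
  rw [SimpleGraph.isBridge_iff] at hbr
  have hGab : G.Adj a b := hab.1
  have hpos : 0 < subW w C s(a, b) := hab.2
  set H := (supp G (subW w C)).deleteEdges {s(a, b)} with hH
  obtain ⟨X, hX⟩ : ∃ X : Finset V, ∀ x, x ∈ X ↔ H.Reachable a x :=
    ⟨Finset.univ.filter (fun x => H.Reachable a x), fun x => by simp⟩
  have haX : a ∈ X := (hX a).mpr (SimpleGraph.Reachable.refl a)
  have hbX : b ∉ X := fun h => hbr ((hX b).mp h)
  -- crossing edges
  have hcr : ∀ x ∈ X, ∀ y ∉ X, G.Adj x y → (x = a ∧ y = b) ∨ (s(x, y) ∈ C ∧ w s(x, y) = 1) := by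
    intro x hx y hy hxy
    by_cases hE1 : s(x, y) = s(a, b)
    · rcases Sym2.eq_iff.mp hE1 with h | h
      · exact Or.inl h
      · exact absurd haX (h.2 ▸ hy)
    · right
      have hnadj : ¬ (supp G (subW w C)).Adj x y := by
        intro hadj
        apply hy
        rw [hX]
        refine ((hX x).mp hx).trans ?_
        refine SimpleGraph.Adj.reachable ?_
        rw [hH, SimpleGraph.deleteEdges_adj]
        exact ⟨hadj, hE1⟩
      have hz : ¬ 0 < subW w C s(x, y) := fun h => hnadj ⟨hxy, h⟩
      unfold subW at hz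
      rcases h12 _ ((SimpleGraph.mem_edgeSet G).mpr hxy) with h1 | h1
      · by_cases hc : s(x, y) ∈ C
        · exact ⟨hc, h1⟩
        · rw [if_neg hc, h1] at hz
          omega
      · exfalso
        rw [h1] at hz
        split_ifs at hz <;> omega
  have hab1 : (a, b) ∈ X ×ˢ Xᶜ := by
    rw [Finset.mem_product]
    exact ⟨haX, Finset.mem_compl.mpr hbX⟩
  have key : w s(a, b) = 2 ∧ s(a, b) ∉ C := by
    have e1 := cut_even_one h12 hE X
    have e2 := cut_even_C hC X
    rcases h12 _ ((SimpleGraph.mem_edgeSet G).mpr hGab) with h1 | h1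
    · exfalso
      have hnC : s(a, b) ∉ C := by
        intro hc
        unfold subW at hpos
        rw [if_pos hc, h1] at hpos
        omega
      have hset : (X ×ˢ Xᶜ).filter (fun p => G.Adj p.1 p.2 ∧ w s(p.1, p.2) = 1)
          = insert (a, b) ((X ×ˢ Xᶜ).filter (fun p => s(p.1, p.2) ∈ C)) := by
        ext ⟨x, y⟩
        simp only [Finset.mem_filter, Finset.mem_product, Finset.mem_compl, Finset.mem_insert]
        constructor
        · rintro ⟨⟨hx, hy⟩, hadj, _⟩
          rcases hcr x hx y hy hadj with h | h
          · left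
            rw [h.1, h.2]
          · right
            exact ⟨⟨hx, hy⟩, h.1⟩
        · rintro (h | ⟨⟨hx, hy⟩, hc⟩)
          · obtain ⟨rfl, rfl⟩ := Prod.mk.inj h
            exact ⟨⟨haX, hbX⟩, hGab, h1⟩
          · have hadj : G.Adj x y := (SimpleGraph.mem_edgeSet G).mp (hC.sub _ hc)
            refine ⟨⟨hx, hy⟩, hadj, ?_⟩
            rcases hcr x hx y hy hadj with h | h
            · rw [h.1, h.2]
              exact h1
            · exact h.2
      rw [hset, Finset.card_insert_of_notMem] at e1
      · exact (Nat.even_add_one.mp e1) e2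
      · intro h
        exact hnC (Finset.mem_filter.mp h).2
    · refine ⟨h1, fun hc => ?_⟩
      have hset : (X ×ˢ Xᶜ).filter (fun p => s(p.1, p.2) ∈ C)
          = insert (a, b) ((X ×ˢ Xᶜ).filter (fun p => G.Adj p.1 p.2 ∧ w s(p.1, p.2) = 1)) := by
        ext ⟨x, y⟩
        simp only [Finset.mem_filter, Finset.mem_product, Finset.mem_compl, Finset.mem_insert]
        constructor
        · rintro ⟨⟨hx, hy⟩, hc'⟩
          have hadj : G.Adj x y := (SimpleGraph.mem_edgeSet G).mp (hC.sub _ hc')
          rcases hcr x hx y hy hadj with h | h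
          · left
            rw [h.1, h.2]
          · right
            exact ⟨⟨hx, hy⟩, hadj, h.2⟩
        · rintro (h | ⟨⟨hx, hy⟩, hadj, hw⟩)
          · obtain ⟨rfl, rfl⟩ := Prod.mk.inj h
            exact ⟨⟨haX, hbX⟩, hc⟩
          · refine ⟨⟨hx, hy⟩, ?_⟩
            rcases hcr x hx y hy hadj with h | h
            · rw [h.1, h.2]
              exact hc
            · exact h.1
      rw [hset, Finset.card_insert_of_notMem] at e2
      · exact (Nat.even_add_one.mp e2) e1
      · intro h
        have h' := (Finset.mem_filter.mp h).2.2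
        rw [h1] at h'
        omega
  refine ⟨X, ⟨haX, hbX, hGab, key.2, key.1, hcr⟩, ⟨?_, ?_, hGab.symm, ?_, ?_, ?_⟩⟩
  · exact Finset.mem_compl.mpr hbX
  · intro h
    exact (Finset.mem_compl.mp h) haX
  · rw [Sym2.eq_swap]
    exact key.2
  · rw [Sym2.eq_swap]
    exact key.1
  · intro x hx y hy hadj
    have hx' : x ∉ X := Finset.mem_compl.mp hx
    have hy' : y ∈ X := by
      by_contra h
      exact hy (Finset.mem_compl.mpr h)
    rcases hcr y hy' x hx' hadj.symm with h | h
    · exact Or.inl ⟨h.2, h.1⟩
    · right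
      rw [Sym2.eq_swap]
      exact h

end GE
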