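import Pool.Agent.H74.GE.SeqWalk

/-!
# GE/Circ : from a good cyclic sequence of darts to a thick compatible circuit

Let `x` be a cyclic sequence of darts of period `ℓ` as in `GoodSeq`, `v i = (x i).fst`,
`C = {(x i).edge | i < ℓ}`, `r < g`.

* `v` is injective on `[0, ℓ)`: let `i < j < ℓ`, `v i = v j`. If `j - i ≤ r < g`, the
  non-backtracking walk along `x` from `i` to `j` (`exists_nb_walk_of_seq`) contradicts `nb_closed`;
  if `ℓ - (j - i) ≤ r` the same with the walk from `j` to `i + ℓ`; otherwise `far` with `Walk.nil`.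
* `3 ≤ ℓ`: `ℓ = 1` would give a loop, `ℓ = 2` would give `x 1 = (x 0).symm`.
* hence the walk along `x` from `v 0` to `v ℓ = v 0` is a cycle with edge set `C`.
-/

open scoped Classical

noncomputable section

namespace GE

universe u
variable {V : Type u}

/-- a good cyclic sequence of darts. -/
structure GoodSeq (G : SimpleGraph V) (w : Sym2 V → ℕ) (r ℓ : ℕ) (x : ℕ → G.Dart) : Prop where
  pos : 0 < ℓ
  per : ∀ i, x (i + ℓ) = x i
  next : ∀ i, (x (i + 1)).fst = (x i).snd
  nb : ∀ i, x (i + 1) ≠ (x i).symm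
  comp : ∀ i, 3 ≤ w (x i).edge + w (x (i + 1)).edge
  far : ∀ i j, i < j → j < ℓ → r < j - i → r < ℓ - (j - i) →
    ¬ ∃ p : G.Walk (x i).fst (x j).fst, p.length ≤ r

private theorem Circ_closed {G : SimpleGraph V} {w : Sym2 V → ℕ} {r ℓ g : ℕ}
    (hg : GirthAtLeast G g) {x : ℕ → G.Dart} (h : GoodSeq G w r ℓ x) (i k : ℕ) (hk : k < g)
    (hv : (x (i + k)).fst = (x i).fst) : k = 0 := by
  obtain ⟨p, hpl, hpn, -⟩ := exists_nb_walk_of_seq x h.next h.nb i k
  have h1 : NB (p.copy rfl hv) := by
    unfold NB at *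
    rw [SimpleGraph.Walk.edges_copy]
    exact hpn
  have h2 : (p.copy rfl hv).length < g := by
    rw [SimpleGraph.Walk.length_copy, hpl]
    exact hk
  have h3 := nb_closed hg (p.copy rfl hv) h1 h2
  rw [SimpleGraph.Walk.length_copy, hpl] at h3
  exact h3

private theorem Circ_lt {G : SimpleGraph V} {w : Sym2 V → ℕ} {r ℓ g : ℕ}
    (hg : GirthAtLeast G g) (hrg : r < g) {x : ℕ → G.Dart} (h : GoodSeq G w r ℓ x) {i j : ℕ}
    (hij : i < j) (hj : j < ℓ) (hv : (x i).fst = (x j).fst) : False := by
  by_cases h1 : j - i ≤ r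
  · have h2 := Circ_closed hg h i (j - i) (by omega)
      (by rw [show i + (j - i) = j by omega]; exact hv.symm)
    omega
  by_cases h2 : ℓ - (j - i) ≤ r
  · have h3 := Circ_closed hg h j (ℓ - (j - i)) (by omega)
      (by
        rw [show j + (ℓ - (j - i)) = i + ℓ by omega, h.per]
        exact hv)
    omega
  · exact h.far i j hij hj (by omega) (by omega)
      ⟨(SimpleGraph.Walk.nil : G.Walk (x i).fst (x i).fst).copy rfl hv, by simp⟩

theorem goodSeq_inj {G : SimpleGraph V} {w : Sym2 V → ℕ} {r ℓ g : ℕ} (hg : GirthAtLeast G g)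
    (hrg : r < g) {x : ℕ → G.Dart} (h : GoodSeq G w r ℓ x) {i j : ℕ} (hi : i < ℓ) (hj : j < ℓ)
    (hij : (x i).fst = (x j).fst) : i = j := by
  rcases lt_trichotomy i j with h1 | h1 | h1
  · exact (Circ_lt hg hrg h h1 hj hij).elim
  · exact h1
  · exact (Circ_lt hg hrg h h1 hi hij.symm).elim

theorem goodSeq_three {G : SimpleGraph V} {w : Sym2 V → ℕ} {r ℓ : ℕ}
    {x : ℕ → G.Dart} (h : GoodSeq G w r ℓ x) : 3 ≤ ℓ := by
  have hpos := h.pos
  by_contra hlt
  have h12 : ℓ = 1 ∨ ℓ = 2 := by omega
  rcases h12 with h1 | h2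
  · have hp := h.per 0
    have hn := h.next 0
    rw [h1] at hp
    rw [hp] at hn
    exact (x 0).adj.ne hn
  · have hp := h.per 0
    have hn := h.next 0
    have hn1 := h.next 1
    rw [h2] at hp
    rw [show (1 + 1 : ℕ) = 0 + 2 from rfl, hp] at hn1
    refine h.nb 0 ?_
    apply SimpleGraph.Dart.ext
    apply Prod.ext
    · exact hn
    · exact hn1.symm

private theorem Circ_walk {G : SimpleGraph V} (x : ℕ → G.Dart)
    (hnext : ∀ i, (x (i + 1)).fst = (x i).snd) (k : ℕ) :
    ∃ p : G.Walk (x 0).fst (x k).fst,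
      p.edges = (List.range k).map (fun t => (x t).edge) ∧
      p.support = (List.range (k + 1)).map (fun t => (x t).fst) := by
  induction k with
  | zero =>
    exact ⟨SimpleGraph.Walk.nil, by simp, by simp⟩
  | succ k ih =>
    obtain ⟨p, hpe, hps⟩ := ih
    have hadj : G.Adj (x k).fst (x (k + 1)).fst := by
      rw [hnext k]
      exact (x k).adj
    refine ⟨p.concat hadj, ?_, ?_⟩
    · rw [SimpleGraph.Walk.edges_concat, hpe, List.range_succ, List.map_append,
        List.concat_eq_append]
      congr 1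
      rw [List.map_singleton]
      congr 1
      have : (x k).edge = s((x k).fst, (x k).snd) := rfl
      rw [this, hnext k]
    · rw [SimpleGraph.Walk.support_concat, hps, List.range_succ (n := k + 1), List.map_append]
      rfl

theorem goodSeq_circ {G : SimpleGraph V} {w : Sym2 V → ℕ} {r ℓ g : ℕ} (hg : GirthAtLeast G g)
    (hrg : r < g) {x : ℕ → G.Dart} (h : GoodSeq G w r ℓ x) :
    IsCircuit G ((Finset.range ℓ).image (fun i => (x i).edge)) := by
  have h3 := goodSeq_three h
  have hinj := fun {i j : ℕ} (hi : i < ℓ) (hj : j < ℓ) hij =>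
    goodSeq_inj (i := i) (j := j) hg hrg h hi hj hij
  have hper : x ℓ = x 0 := by
    have := h.per 0
    rwa [zero_add] at this
  obtain ⟨p, hpe, hps⟩ := Circ_walk x h.next ℓ
  have hcl : (x ℓ).fst = (x 0).fst := by rw [hper]
  -- values at successors
  have hsucc : ∀ s t, s < ℓ → t < ℓ → (x (s + 1)).fst = (x (t + 1)).fst → s = t := by
    intro s t hs ht hst
    by_cases hs1 : s + 1 < ℓ
    · by_cases ht1 : t + 1 < ℓ
      · have := hinj hs1 ht1 hst
        omega
      · have e : t + 1 = ℓ := by omega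
        rw [e, hcl] at hst
        have := hinj hs1 h.pos hst
        omega
    · have e : s + 1 = ℓ := by omega
      by_cases ht1 : t + 1 < ℓ
      · rw [e, hcl] at hst
        have := hinj h.pos ht1 hst
        omega
      · omega
  have hedge : ∀ t, (x t).edge = s((x t).fst, (x (t + 1)).fst) := by
    intro t
    rw [h.next t]
    rfl
  have hcross : ∀ s t, s < t → t < ℓ → (x s).fst = (x (t + 1)).fst →
      (x (s + 1)).fst = (x t).fst → False := by
    intro s t hst ht h1 h2
    have e2 := hinj (show s + 1 < ℓ by omega) ht h2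
    by_cases ht1 : t + 1 < ℓ
    · have := hinj (show s < ℓ by omega) ht1 h1
      omega
    · have e : t + 1 = ℓ := by omega
      rw [e, hcl] at h1
      have := hinj (show s < ℓ by omega) h.pos h1
      omega
  have hedinj : ∀ s t, s < ℓ → t < ℓ → (x s).edge = (x t).edge → s = t := by
    intro s t hs ht hst
    rw [hedge s, hedge t, Sym2.eq_iff] at hst
    rcases hst with ⟨h1, -⟩ | ⟨h1, h2⟩
    · exact hinj hs ht h1
    · rcases lt_trichotomy s t with h4 | h4 | h4
      · exact (hcross s t h4 ht h1 h2).elim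
      · exact h4
      · exact (hcross t s h4 hs h2.symm h1.symm).elim
  have hcyc : (p.copy rfl hcl).IsCycle := by
    rw [SimpleGraph.Walk.isCycle_def]
    refine ⟨?_, ?_, ?_⟩
    · rw [SimpleGraph.Walk.isTrail_def, SimpleGraph.Walk.edges_copy, hpe]
      refine List.Nodup.map_on ?_ List.nodup_range
      intro s hs t ht hst
      exact hedinj s t (List.mem_range.1 hs) (List.mem_range.1 ht) hst
    · intro hnil
      have h5 := congrArg (fun q : G.Walk (x 0).fst (x 0).fst => q.edges.length) hnil
      simp only [SimpleGraph.Walk.edges_copy, hpe, List.length_map, List.length_range,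
        SimpleGraph.Walk.edges_nil, List.length_nil] at h5
      omega
    · rw [SimpleGraph.Walk.support_copy, hps, List.range_succ_eq_map, List.map_cons,
        List.tail_cons, List.map_map]
      refine List.Nodup.map_on ?_ List.nodup_range
      intro s hs t ht hst
      exact hsucc s t (List.mem_range.1 hs) (List.mem_range.1 ht) hst
  refine ⟨(x 0).fst, p.copy rfl hcl, hcyc, ?_⟩
  rw [SimpleGraph.Walk.edges_copy, hpe]
  ext e
  simp only [Finset.mem_image, Finset.mem_range, List.mem_toFinset, List.mem_map, List.mem_range]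

end GE
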