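import Pool.Agent.H74.GE.Circ

/-!
# GE/CircThick : a good cyclic sequence of darts gives a thick compatible circuit

Notation of `GE/Circ`: `v i = (x i).fst`, injective on a period (`goodSeq_inj`).

* `edge_at`: an edge of `C` containing the vertex `v i` (`i < ℓ`, `i ≥ 1` replaced by `i + ℓ` if
  necessary) is `(x i).edge` or `(x (i + ℓ - 1)).edge`: if `(x j).edge ∋ v i` then `v j = v i` or
  `(x j).snd = v (j+1) = v i`.
* `compat`, `two`, `atmost`: so the edges of `C` at `v i` are `(x (i + ℓ - 1)).edge` and `(x i).edge`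
  (they are different by `two_steps_edge`), and `comp` gives `compat`.
* `thick`: let `a = v i`, `b = v j`, `i ≤ j < ℓ` without loss of generality (otherwise reverse
  the walk). If `i = j` use `nil`. By `far` either `j - i ≤ r` or `ℓ - (j - i) ≤ r`; use the
  non-backtracking walk along `x` from `i` to `j`, or the reverse of the one from `j` to `i + ℓ`.
-/

open scoped Classical

noncomputable section

namespace GE

universe u
variable {V : Type u}

private theorem CircThick_mem {G : SimpleGraph V} {w : Sym2 V → ℕ} {r ℓ : ℕ} {x : ℕ → G.Dart}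
    (h : GoodSeq G w r ℓ x) (m : ℕ) :
    (x m).edge ∈ (Finset.range ℓ).image (fun i => (x i).edge) := by
  have hp : Function.Periodic x ℓ := fun i => h.per i
  rw [Finset.mem_image]
  refine ⟨m % ℓ, Finset.mem_range.2 (Nat.mod_lt _ h.pos), ?_⟩
  show (x (m % ℓ)).edge = (x m).edge
  rw [hp.map_mod_nat]

private theorem CircThick_mem_edge {G : SimpleGraph V} {d : G.Dart} {a : V} (ha : a ∈ d.edge) :
    a = d.fst ∨ a = d.snd := by
  have h1 : a ∈ s(d.fst, d.snd) := ha
  rwa [Sym2.mem_iff] at h1

private theorem CircThick_fst_mem {G : SimpleGraph V} (d : G.Dart) : d.fst ∈ d.edge := by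
  have h1 : d.fst ∈ s(d.fst, d.snd) := Sym2.mem_mk_left _ _
  exact h1

private theorem CircThick_snd_mem {G : SimpleGraph V} (d : G.Dart) : d.snd ∈ d.edge := by
  have h1 : d.snd ∈ s(d.fst, d.snd) := Sym2.mem_mk_right _ _
  exact h1

theorem goodSeq_vertex {G : SimpleGraph V} {w : Sym2 V → ℕ} {r ℓ : ℕ} {x : ℕ → G.Dart}
    (h : GoodSeq G w r ℓ x) {a : V} {e : Sym2 V}
    (he : e ∈ (Finset.range ℓ).image (fun i => (x i).edge)) (ha : a ∈ e) :
    ∃ i < ℓ, (x i).fst = a := by
  rw [Finset.mem_image] at he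
  obtain ⟨i, hi, rfl⟩ := he
  rw [Finset.mem_range] at hi
  rcases CircThick_mem_edge ha with h1 | h1
  · exact ⟨i, hi, h1.symm⟩
  · rcases Nat.lt_or_ge (i + 1) ℓ with h2 | h2
    · exact ⟨i + 1, h2, by rw [h.next i, h1]⟩
    · have h3 : i + 1 = 0 + ℓ := by omega
      refine ⟨0, h.pos, ?_⟩
      rw [← h.per 0, ← h3, h.next i, h1]

theorem goodSeq_edge_at {G : SimpleGraph V} {w : Sym2 V → ℕ} {r ℓ g : ℕ} (hg : GirthAtLeast G g)
    (hrg : r < g) {x : ℕ → G.Dart} (h : GoodSeq G w r ℓ x) {i : ℕ} (hi : i < ℓ) {e : Sym2 V}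
    (he : e ∈ (Finset.range ℓ).image (fun i => (x i).edge)) (ha : (x i).fst ∈ e) :
    e = (x i).edge ∨ e = (x (i + ℓ - 1)).edge := by
  rw [Finset.mem_image] at he
  obtain ⟨j, hj, rfl⟩ := he
  rw [Finset.mem_range] at hj
  rcases CircThick_mem_edge ha with h1 | h1
  · left
    rw [goodSeq_inj hg hrg h hi hj h1]
  · right
    rcases Nat.lt_or_ge (j + 1) ℓ with h2 | h2
    · have h3 : i = j + 1 := by
        apply goodSeq_inj hg hrg h hi h2
        rw [h1, h.next j]
      have h4 : i + ℓ - 1 = j + ℓ := by omega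
      rw [h4, h.per j]
    · have h3 : j + 1 = 0 + ℓ := by omega
      have h5 : i = 0 := by
        apply goodSeq_inj hg hrg h hi h.pos
        rw [← h.per 0, ← h3, h.next j, h1]
      have h4 : i + ℓ - 1 = j := by omega
      rw [h4]

theorem goodSeq_thick {G : SimpleGraph V} {w : Sym2 V → ℕ} {r ℓ g : ℕ} (hg : GirthAtLeast G g)
    (hrg : r < g) {x : ℕ → G.Dart} (h : GoodSeq G w r ℓ x) :
    ThickCirc G w r ((Finset.range ℓ).image (fun i => (x i).edge)) := by
  have hpos := h.pos
  have hidx : ∀ i, i + ℓ - 1 + 1 = i + ℓ := fun i => by omega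
  have hnx : ∀ i, (x (i + ℓ - 1)).snd = (x i).fst := by
    intro i
    have h1 := h.next (i + ℓ - 1)
    rw [hidx, h.per] at h1
    exact h1.symm
  have hne : ∀ i, (x (i + ℓ - 1)).edge ≠ (x i).edge := by
    intro i
    have h1 := two_steps_edge (h.next (i + ℓ - 1)) (h.nb (i + ℓ - 1))
    rw [hidx, h.per] at h1
    exact h1
  have hcomp : ∀ i, 3 ≤ w (x (i + ℓ - 1)).edge + w (x i).edge := by
    intro i
    have h1 := h.comp (i + ℓ - 1)
    rw [hidx, h.per] at h1
    exact h1
  have hthick : ∀ i j, i ≤ j → j < ℓ → (∃ p : G.Walk (x i).fst (x j).fst, p.length ≤ r) →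
      ∃ p : G.Walk (x i).fst (x j).fst, p.length ≤ r ∧ NB p ∧
        ∀ e ∈ p.edges, e ∈ (Finset.range ℓ).image (fun i => (x i).edge) := by
    intro i j hij hj hw
    rcases Nat.eq_or_lt_of_le hij with h0 | h0
    · subst h0
      exact ⟨SimpleGraph.Walk.nil, Nat.zero_le _, by simp [NB], by simp⟩
    · have hor : j - i ≤ r ∨ ℓ - (j - i) ≤ r := by
        by_contra hcon
        push Not at hcon
        exact h.far i j h0 hj hcon.1 hcon.2 hw
      rcases hor with h1 | h1
      · obtain ⟨p, hp, hnb, hpe⟩ := exists_nb_walk_of_seq x h.next h.nb i (j - i)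
        have h2 : i + (j - i) = j := by omega
        have h3 : (x (i + (j - i))).fst = (x j).fst := by rw [h2]
        refine ⟨p.copy rfl h3, ?_, ?_, ?_⟩
        · rw [SimpleGraph.Walk.length_copy, hp]
          exact h1
        · unfold NB
          rw [SimpleGraph.Walk.edges_copy]
          exact hnb
        · intro e he
          rw [SimpleGraph.Walk.edges_copy, hpe, List.mem_map] at he
          obtain ⟨t, _, rfl⟩ := he
          exact CircThick_mem h _
      · obtain ⟨p, hp, hnb, hpe⟩ := exists_nb_walk_of_seq x h.next h.nb j (ℓ - (j - i))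
        have h2 : j + (ℓ - (j - i)) = i + ℓ := by omega
        have h3 : (x (j + (ℓ - (j - i)))).fst = (x i).fst := by rw [h2, h.per]
        refine ⟨(p.copy rfl h3).reverse, ?_, ?_, ?_⟩
        · rw [SimpleGraph.Walk.length_reverse, SimpleGraph.Walk.length_copy, hp]
          exact h1
        · unfold NB
          rw [SimpleGraph.Walk.edges_reverse, SimpleGraph.Walk.edges_copy, List.isChain_reverse]
          refine List.IsChain.imp ?_ hnb
          intro a b hab
          exact fun hba => hab hba.symm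
        · intro e he
          rw [SimpleGraph.Walk.edges_reverse, SimpleGraph.Walk.edges_copy, List.mem_reverse, hpe,
            List.mem_map] at he
          obtain ⟨t, _, rfl⟩ := he
          exact CircThick_mem h _
  refine ⟨goodSeq_circ hg hrg h, ?_, ?_, ?_, ?_, ?_⟩
  · intro e he
    rw [Finset.mem_image] at he
    obtain ⟨i, _, rfl⟩ := he
    exact (x i).edge_mem
  · intro v e e' he he' hee hv hv'
    obtain ⟨i, hi, rfl⟩ := goodSeq_vertex h he hv
    have hc := hcomp i
    rcases goodSeq_edge_at hg hrg h hi he hv with h1 | h1 <;>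
    rcases goodSeq_edge_at hg hrg h hi he' hv' with h2 | h2
    · exact absurd (h1.trans h2.symm) hee
    · rw [h1, h2]
      omega
    · rw [h1, h2]
      omega
    · exact absurd (h1.trans h2.symm) hee
  · intro v e he hv
    obtain ⟨i, hi, rfl⟩ := goodSeq_vertex h he hv
    rcases goodSeq_edge_at hg hrg h hi he hv with h1 | h1
    · refine ⟨(x (i + ℓ - 1)).edge, CircThick_mem h _, ?_, ?_⟩
      · rw [h1]
        exact hne i
      · rw [← hnx i]
        exact CircThick_snd_mem _
    · refine ⟨(x i).edge, CircThick_mem h _, ?_, ?_⟩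
      · rw [h1]
        exact (hne i).symm
      · exact CircThick_fst_mem _
  · intro v e₁ e₂ e₃ he₁ he₂ he₃ hv₁ hv₂ hv₃
    obtain ⟨i, hi, rfl⟩ := goodSeq_vertex h he₁ hv₁
    rcases goodSeq_edge_at hg hrg h hi he₁ hv₁ with h1 | h1 <;>
    rcases goodSeq_edge_at hg hrg h hi he₂ hv₂ with h2 | h2 <;>
    rcases goodSeq_edge_at hg hrg h hi he₃ hv₃ with h3 | h3
    · exact Or.inl (h1.trans h2.symm)
    · exact Or.inl (h1.trans h2.symm)
    · exact Or.inr (Or.inl (h1.trans h3.symm))
    · exact Or.inr (Or.inr (h2.trans h3.symm))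
    · exact Or.inr (Or.inr (h2.trans h3.symm))
    · exact Or.inr (Or.inl (h1.trans h3.symm))
    · exact Or.inl (h1.trans h2.symm)
    · exact Or.inl (h1.trans h2.symm)
  · rintro a b ⟨e, he, hae⟩ ⟨e', he', hbe⟩ ⟨p, hp⟩
    obtain ⟨i, hi, rfl⟩ := goodSeq_vertex h he hae
    obtain ⟨j, hj, rfl⟩ := goodSeq_vertex h he' hbe
    rcases Nat.le_total i j with h0 | h0
    · exact hthick i j h0 hj ⟨p, hp⟩
    · obtain ⟨q, hq, hqn, hqe⟩ := hthick j i h0 hi
        ⟨p.reverse, by rw [SimpleGraph.Walk.length_reverse]; exact hp⟩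
      refine ⟨q.reverse, ?_, ?_, ?_⟩
      · rw [SimpleGraph.Walk.length_reverse]
        exact hq
      · unfold NB
        rw [SimpleGraph.Walk.edges_reverse, List.isChain_reverse]
        refine List.IsChain.imp ?_ hqn
        intro a b hab
        exact fun hba => hab hba.symm
      · intro e he
        rw [SimpleGraph.Walk.edges_reverse, List.mem_reverse] at he
        exact hqe e he

end GE
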