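import Mathlib

/-!
# GE/Consts : choice of the constant (real analysis)

Let `k ≥ 2`, `θ = 1 - 1/k`, `τ n = k * ⌈k log (6 n)⌉₊`.

* `tau_ok`: `2 θ^(τ n / k) ≤ 32 k / Z` for `0 < Z ≤ 6 n`: `τ n / k = ⌈k log (6n)⌉₊`,
  `θ^t ≤ exp (-t/k)`, so the left side is `≤ 2/(6n) ≤ 32 k/Z`.
* `exists_K`: for all `m, k, N, γ > 0, g₀` there is `K` such that for all `n, g` with
  `K (1 + log (1 + log n)) ≤ g ≤ n`: `g₀ ≤ g` and
  `(4 m τ n)² * (N * (2 θ^((g - r)/2/k) + 32 k/(3 n))) < γ`.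
  Proof. With `L = 1 + log n`: `⌈k log (6n)⌉₊ ≤ k (log 6 + log n) + 1 ≤ 3 k L`, so `(4 m τ)² ≤ c₁ L²`.
  `(g-r)/2/k ≥ g/(2k) - r/(2k) - 2` and `θ^t ≤ exp (-t/k)` give
  `θ^((g-r)/2/k) ≤ c₂ exp (-g/(2k²)) ≤ c₂ exp (-K/(2k²)) L^(-K/(2k²)) ≤ c₂ exp (-K/(2k²)) L^(-2)`
  if `K ≥ 4 k²`. So the first term is at most `c₁ c₂' exp (-K/(2k²))`, arbitrarily small for `K`
  large. The second is at most `c₁ c₃ L²/n` and `L²/n = (1 + log n)²/n ≤ C/√n ≤ C/√K` as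
  `n ≥ g ≥ K`.
-/

noncomputable section

namespace GE

/-- the mixing time. -/
def tau (k n : ℕ) : ℕ := k * ⌈(k : ℝ) * Real.log (6 * n)⌉₊

theorem Consts_theta_pow_le {k : ℕ} (hk : 2 ≤ k) (t : ℕ) :
    (1 - 1 / (k : ℝ)) ^ t ≤ Real.exp (-((t : ℝ) / k)) := by
  have hk0 : (2 : ℝ) ≤ k := by exact_mod_cast hk
  have h0 : 0 ≤ 1 - 1 / (k : ℝ) := by
    have : 1 / (k : ℝ) ≤ 1 := by
      rw [div_le_one (by linarith)]; linarith
    linarith
  have h1 : 1 - 1 / (k : ℝ) ≤ Real.exp (-(1 / (k : ℝ))) := by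
    have := Real.add_one_le_exp (-(1 / (k : ℝ)))
    linarith
  calc (1 - 1 / (k : ℝ)) ^ t ≤ (Real.exp (-(1 / (k : ℝ)))) ^ t := pow_le_pow_left₀ h0 h1 t
    _ = Real.exp (-((t : ℝ) / k)) := by
        rw [← Real.exp_nat_mul]
        congr 1
        ring

theorem Consts_log_six : Real.log 6 ≤ 2 := by
  rw [Real.log_le_iff_le_exp (by norm_num)]
  have h := Real.exp_one_gt_d9
  have h2 : Real.exp 2 = Real.exp 1 * Real.exp 1 := by
    rw [← Real.exp_add]; norm_num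
  rw [h2]
  nlinarith

theorem tau_ok {k n : ℕ} (hk : 2 ≤ k) (hn : 1 ≤ n) {Z : ℝ} (hZ : 0 < Z) (hZn : Z ≤ 6 * n) {t : ℕ}
    (ht : tau k n / k ≤ t) : 2 * (1 - 1 / (k : ℝ)) ^ t ≤ 32 * k / Z := by
  have hk0 : (2 : ℝ) ≤ k := by exact_mod_cast hk
  have hkpos : 0 < k := by omega
  have hn0 : (1 : ℝ) ≤ n := by exact_mod_cast hn
  have htk : tau k n / k = ⌈(k : ℝ) * Real.log (6 * n)⌉₊ := by
    unfold tau
    exact Nat.mul_div_cancel_left _ hkpos
  rw [htk] at ht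
  have h1 : (k : ℝ) * Real.log (6 * n) ≤ t :=
    le_trans (Nat.le_ceil _) (by exact_mod_cast ht)
  have h2 : Real.log (6 * n) ≤ (t : ℝ) / k := by
    rw [le_div_iff₀ (by linarith)]
    linarith
  have h3 : Real.exp (-((t : ℝ) / k)) ≤ 1 / (6 * n) := by
    calc Real.exp (-((t : ℝ) / k)) ≤ Real.exp (-(Real.log (6 * n))) :=
          Real.exp_le_exp.mpr (by linarith)
      _ = 1 / (6 * n) := by
          rw [Real.exp_neg, Real.exp_log (by positivity)]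
          ring
  have h4 : 1 / (6 * (n : ℝ)) ≤ 1 / Z := one_div_le_one_div_of_le hZ hZn
  have h5 := Consts_theta_pow_le hk t
  have h6 : 0 < 1 / Z := by positivity
  calc 2 * (1 - 1 / (k : ℝ)) ^ t ≤ 2 * (1 / Z) := by linarith
    _ ≤ (32 * k) * (1 / Z) := by
        apply mul_le_mul_of_nonneg_right _ h6.le
        linarith
    _ = 32 * k / Z := by ring

theorem Consts_tau_le {k n : ℕ} (hk : 2 ≤ k) (hn : 1 ≤ n) :
    (tau k n : ℝ) ≤ 3 * (k : ℝ) ^ 2 * (1 + Real.log n) := by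
  have hk0 : (2 : ℝ) ≤ k := by exact_mod_cast hk
  have hn0 : (1 : ℝ) ≤ n := by exact_mod_cast hn
  have hlog : 0 ≤ Real.log n := Real.log_nonneg hn0
  have h6 : Real.log (6 * n) = Real.log 6 + Real.log n := Real.log_mul (by norm_num) (by linarith)
  have h60 : 0 ≤ Real.log 6 := Real.log_nonneg (by norm_num)
  have hc : ((⌈(k : ℝ) * Real.log (6 * n)⌉₊ : ℕ) : ℝ) ≤ (k : ℝ) * Real.log (6 * n) + 1 := by
    apply (Nat.ceil_lt_add_one _).le
    rw [h6]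
    positivity
  have hl6 := Consts_log_six
  have h7 : (k : ℝ) * Real.log (6 * n) + 1 ≤ 3 * k * (1 + Real.log n) := by
    rw [h6]
    nlinarith
  unfold tau
  push_cast
  calc (k : ℝ) * ((⌈(k : ℝ) * Real.log (6 * n)⌉₊ : ℕ) : ℝ)
      ≤ (k : ℝ) * (3 * k * (1 + Real.log n)) :=
        mul_le_mul_of_nonneg_left (hc.trans h7) (by linarith)
    _ = 3 * (k : ℝ) ^ 2 * (1 + Real.log n) := by ring

theorem Consts_log_sq {n : ℕ} (hn : 1 ≤ n) :
    (1 + Real.log n) ^ 2 ≤ 16 * Real.sqrt n := by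
  have hn0 : (1 : ℝ) ≤ n := by exact_mod_cast hn
  have hlog : 0 ≤ Real.log n := Real.log_nonneg hn0
  set s := Real.sqrt (Real.sqrt n) with hs
  have hs2 : s ^ 2 = Real.sqrt n := by
    rw [hs]; exact Real.sq_sqrt (Real.sqrt_nonneg _)
  have hs4 : s ^ 4 = n := by
    have : s ^ 4 = (s ^ 2) ^ 2 := by ring
    rw [this, hs2]
    exact Real.sq_sqrt (by linarith)
  have hspos : 0 < s := by
    rw [hs]
    apply Real.sqrt_pos.mpr
    apply Real.sqrt_pos.mpr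
    linarith
  have hl : Real.log n = 4 * Real.log s := by
    rw [← hs4, Real.log_pow]
    norm_num
  have h1 : Real.log s ≤ s - 1 := Real.log_le_sub_one_of_pos hspos
  have h2 : 1 + Real.log n ≤ 4 * s := by
    rw [hl]; linarith
  calc (1 + Real.log n) ^ 2 ≤ (4 * s) ^ 2 := pow_le_pow_left₀ (by linarith) h2 2
    _ = 16 * s ^ 2 := by ring
    _ = 16 * Real.sqrt n := by rw [hs2]

theorem Consts_floor {k r g : ℕ} (hk : 2 ≤ k) :
    (g : ℝ) / (2 * k) - r - 1 ≤ (((g - r) / 2 / k : ℕ) : ℝ) := by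
  have hk0 : (2 : ℝ) ≤ k := by exact_mod_cast hk
  have hkpos : 0 < 2 * k := by omega
  rw [Nat.div_div_eq_div_mul]
  have h1 : g - r < 2 * k * ((g - r) / (2 * k)) + 2 * k := by
    have := Nat.div_add_mod (g - r) (2 * k)
    have := Nat.mod_lt (g - r) hkpos
    omega
  have h2 : g ≤ 2 * k * ((g - r) / (2 * k)) + 2 * k + r := by omega
  have h3 : (g : ℝ) ≤ 2 * k * (((g - r) / (2 * k) : ℕ) : ℝ) + 2 * k + r := by exact_mod_cast h2
  have h4 : (g : ℝ) / (2 * k) ≤ (((g - r) / (2 * k) : ℕ) : ℝ) + 1 + r := by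
    rw [div_le_iff₀ (by linarith)]
    have hr : (r : ℝ) ≤ r * (2 * k) := by
      have : (0 : ℝ) ≤ r := Nat.cast_nonneg r
      nlinarith
    nlinarith
  linarith

theorem exists_K (m k r g₀ : ℕ) (N γ : ℝ) (hk : 2 ≤ k) (hN : 0 ≤ N) (hγ : 0 < γ) :
    ∃ K : ℝ, 1 ≤ K ∧ ∀ n g : ℕ, 1 ≤ n → K * (1 + Real.log (1 + Real.log n)) ≤ g → g ≤ n →
      g₀ ≤ g ∧
      ((4 * m * tau k n : ℕ) : ℝ) ^ 2 *
        (N * (2 * (1 - 1 / (k : ℝ)) ^ ((g - r) / 2 / k) + 32 * k / (3 * n))) < γ := by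
  have hk0 : (2 : ℝ) ≤ k := by exact_mod_cast hk
  have hkp : (0 : ℝ) < k := by linarith
  -- constants
  obtain ⟨c, hc⟩ : ∃ c : ℝ, c = 144 * (m : ℝ) ^ 2 * (k : ℝ) ^ 4 * N := ⟨_, rfl⟩
  have hc0 : 0 ≤ c := by rw [hc]; positivity
  obtain ⟨E, hE⟩ : ∃ E : ℝ, E = Real.exp ((r : ℝ) + 1) := ⟨_, rfl⟩
  have hE0 : 0 < E := by rw [hE]; exact Real.exp_pos _
  obtain ⟨A, hA⟩ : ∃ A : ℝ, A = 8 * (k : ℝ) ^ 2 * c * E / γ := ⟨_, rfl⟩
  have hA0 : 0 ≤ A := by rw [hA]; positivity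
  obtain ⟨B, hB⟩ : ∃ B : ℝ, B = 342 * c * k / γ + 1 := ⟨_, rfl⟩
  have hB0 : 1 ≤ B := by
    rw [hB]
    have : 0 ≤ 342 * c * k / γ := by positivity
    linarith
  refine ⟨1 + g₀ + 4 * (k : ℝ) ^ 2 + A + B ^ 2, ?_, ?_⟩
  · have : (0 : ℝ) ≤ g₀ := Nat.cast_nonneg _
    nlinarith [sq_nonneg (k : ℝ), sq_nonneg B]
  intro n g hn hKg hgn
  obtain ⟨K, hK⟩ : ∃ K : ℝ, K = 1 + g₀ + 4 * (k : ℝ) ^ 2 + A + B ^ 2 := ⟨_, rfl⟩
  rw [← hK] at hKg
  have hg00 : (0 : ℝ) ≤ g₀ := Nat.cast_nonneg _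
  have hK1 : 1 ≤ K := by rw [hK]; nlinarith [sq_nonneg (k : ℝ), sq_nonneg B]
  have hKg0 : (g₀ : ℝ) ≤ K := by rw [hK]; nlinarith [sq_nonneg (k : ℝ), sq_nonneg B]
  have hK4 : 4 * (k : ℝ) ^ 2 ≤ K := by rw [hK]; nlinarith [sq_nonneg (k : ℝ), sq_nonneg B]
  have hKA : A < K := by rw [hK]; nlinarith [sq_nonneg (k : ℝ), sq_nonneg B]
  have hKB : B ^ 2 ≤ K := by rw [hK]; nlinarith [sq_nonneg (k : ℝ), sq_nonneg B]
  clear hK
  have hn0 : (1 : ℝ) ≤ n := by exact_mod_cast hn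
  have hlog : 0 ≤ Real.log n := Real.log_nonneg hn0
  obtain ⟨L, hL⟩ : ∃ L : ℝ, L = 1 + Real.log n := ⟨_, rfl⟩
  have hL1 : 1 ≤ L := by rw [hL]; linarith
  have hLp : 0 < L := by linarith
  have hlL : 0 ≤ Real.log L := Real.log_nonneg hL1
  rw [← hL] at hKg
  have hKg' : K ≤ g := by nlinarith
  have hgn' : (g : ℝ) ≤ n := by exact_mod_cast hgn
  have hKn : K ≤ n := hKg'.trans hgn'
  refine ⟨by exact_mod_cast hKg0.trans hKg', ?_⟩
  -- the prefactor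
  have hpre : ((4 * m * tau k n : ℕ) : ℝ) ^ 2 * N ≤ c * L ^ 2 := by
    have h1 := Consts_tau_le hk hn
    rw [← hL] at h1
    have h2 : ((4 * m * tau k n : ℕ) : ℝ) ≤ 12 * m * (k : ℝ) ^ 2 * L := by
      push_cast
      have hm : (0 : ℝ) ≤ 4 * m := by positivity
      calc (4 : ℝ) * m * (tau k n : ℝ) ≤ 4 * m * (3 * (k : ℝ) ^ 2 * L) :=
            mul_le_mul_of_nonneg_left h1 hm
        _ = 12 * m * (k : ℝ) ^ 2 * L := by ring
    calc ((4 * m * tau k n : ℕ) : ℝ) ^ 2 * N ≤ (12 * m * (k : ℝ) ^ 2 * L) ^ 2 * N :=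
          mul_le_mul_of_nonneg_right (pow_le_pow_left₀ (Nat.cast_nonneg _) h2 2) hN
      _ = c * L ^ 2 := by rw [hc]; ring
  -- first term
  have hth : (1 - 1 / (k : ℝ)) ^ ((g - r) / 2 / k) ≤ E * (Real.exp (-(K / (2 * (k : ℝ) ^ 2))) / L ^ 2) := by
    have h1 := Consts_theta_pow_le hk ((g - r) / 2 / k)
    have h2 := Consts_floor (k := k) (r := r) (g := g) hk
    refine h1.trans ?_
    have h3 : -(((((g - r) / 2 / k : ℕ) : ℝ)) / k) ≤
        ((r : ℝ) + 1) + (-(K / (2 * (k : ℝ) ^ 2)) + (-(2 * Real.log L))) := by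
      have h4 : ((g : ℝ) / (2 * k) - r - 1) / k ≤ ((((g - r) / 2 / k : ℕ) : ℝ)) / k := by
        gcongr
      have h5 : ((g : ℝ) / (2 * k) - r - 1) / k = (g : ℝ) / (2 * (k : ℝ) ^ 2) - ((r : ℝ) + 1) / k := by
        field_simp
        ring
      have h6 : ((r : ℝ) + 1) / k ≤ (r : ℝ) + 1 := by
        apply div_le_self (by positivity)
        linarith
      have h7 : K / (2 * (k : ℝ) ^ 2) + 2 * Real.log L ≤ (g : ℝ) / (2 * (k : ℝ) ^ 2) := by
        rw [div_add' _ _ _ (by positivity)]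
        gcongr
        have h8 : 2 * Real.log L * (2 * (k : ℝ) ^ 2) ≤ K * Real.log L := by nlinarith
        nlinarith
      linarith
    calc Real.exp (-(((((g - r) / 2 / k : ℕ) : ℝ)) / k))
        ≤ Real.exp (((r : ℝ) + 1) + (-(K / (2 * (k : ℝ) ^ 2)) + (-(2 * Real.log L)))) :=
          Real.exp_le_exp.mpr h3
      _ = E * (Real.exp (-(K / (2 * (k : ℝ) ^ 2))) / L ^ 2) := by
          have h9 : Real.exp (2 * Real.log L) = L ^ 2 := by
            rw [show 2 * Real.log L = ((2 : ℕ) : ℝ) * Real.log L by norm_num, Real.exp_nat_mul,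
              Real.exp_log hLp]
          have h10 : Real.exp (-(K / (2 * (k : ℝ) ^ 2)) + (-(2 * Real.log L))) =
              Real.exp (-(K / (2 * (k : ℝ) ^ 2))) / L ^ 2 := by
            rw [Real.exp_add, Real.exp_neg (2 * Real.log L), h9]
            exact (div_eq_mul_inv _ _).symm
          rw [Real.exp_add ((r : ℝ) + 1), h10, hE]
  have hex : Real.exp (-(K / (2 * (k : ℝ) ^ 2))) ≤ 2 * (k : ℝ) ^ 2 / K := by
    rw [Real.exp_neg]
    have h1 : K / (2 * (k : ℝ) ^ 2) ≤ Real.exp (K / (2 * (k : ℝ) ^ 2)) := by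
      have := Real.add_one_le_exp (K / (2 * (k : ℝ) ^ 2))
      linarith
    have h2 : 0 < K / (2 * (k : ℝ) ^ 2) := by positivity
    calc (Real.exp (K / (2 * (k : ℝ) ^ 2)))⁻¹ ≤ (K / (2 * (k : ℝ) ^ 2))⁻¹ :=
          inv_anti₀ h2 h1
      _ = 2 * (k : ℝ) ^ 2 / K := by rw [inv_div]
  have hfirst : c * L ^ 2 * (2 * (1 - 1 / (k : ℝ)) ^ ((g - r) / 2 / k)) < γ / 2 := by
    have hcL : 0 ≤ c * L ^ 2 := by positivity
    calc c * L ^ 2 * (2 * (1 - 1 / (k : ℝ)) ^ ((g - r) / 2 / k))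
        ≤ c * L ^ 2 * (2 * (E * (Real.exp (-(K / (2 * (k : ℝ) ^ 2))) / L ^ 2))) := by
          gcongr
      _ = 2 * c * E * Real.exp (-(K / (2 * (k : ℝ) ^ 2))) := by
          field_simp
      _ ≤ 2 * c * E * (2 * (k : ℝ) ^ 2 / K) := by gcongr
      _ < γ / 2 := by
          rw [← mul_div_assoc, div_lt_iff₀ (by linarith)]
          have h1 : A * γ = 8 * (k : ℝ) ^ 2 * c * E := by
            rw [hA]; field_simp
          nlinarith
  have hsecond : c * L ^ 2 * (32 * k / (3 * n)) < γ / 2 := by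
    have h1 := Consts_log_sq hn
    rw [← hL] at h1
    have hsn : 0 < Real.sqrt n := Real.sqrt_pos.mpr (by linarith)
    have hsq : Real.sqrt n * Real.sqrt n = n := Real.mul_self_sqrt (by linarith)
    have hB' : B ≤ Real.sqrt n := by
      apply Real.le_sqrt_of_sq_le
      linarith
    calc c * L ^ 2 * (32 * k / (3 * n)) ≤ c * (16 * Real.sqrt n) * (32 * k / (3 * n)) := by
          gcongr
      _ = c * 512 * k / (3 * Real.sqrt n) := by
          have h11 : (32 * (k : ℝ) / (3 * n)) = 32 * k / (3 * (Real.sqrt n * Real.sqrt n)) := by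
            rw [hsq]
          rw [h11]
          field_simp
          ring
      _ < γ / 2 := by
          rw [div_lt_iff₀ (by positivity)]
          have h2 : (B - 1) * γ = 342 * c * k := by
            rw [hB]; field_simp; ring
          have h3 : (B - 1) * γ < Real.sqrt n * γ := by
            apply mul_lt_mul_of_pos_right _ hγ
            linarith
          have h4 : 0 ≤ c * k := by positivity
          nlinarith
  have hfin : ((4 * m * tau k n : ℕ) : ℝ) ^ 2 *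
        (N * (2 * (1 - 1 / (k : ℝ)) ^ ((g - r) / 2 / k) + 32 * k / (3 * n))) ≤
      c * L ^ 2 * (2 * (1 - 1 / (k : ℝ)) ^ ((g - r) / 2 / k)) + c * L ^ 2 * (32 * k / (3 * n)) := by
    have h0 : 0 ≤ 1 - 1 / (k : ℝ) := by
      have : 1 / (k : ℝ) ≤ 1 := by
        rw [div_le_one (by linarith)]; linarith
      linarith
    have h1 : 0 ≤ 2 * (1 - 1 / (k : ℝ)) ^ ((g - r) / 2 / k) + 32 * k / (3 * n) := by positivity
    calc ((4 * m * tau k n : ℕ) : ℝ) ^ 2 *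
        (N * (2 * (1 - 1 / (k : ℝ)) ^ ((g - r) / 2 / k) + 32 * k / (3 * n)))
        = (((4 * m * tau k n : ℕ) : ℝ) ^ 2 * N) *
          (2 * (1 - 1 / (k : ℝ)) ^ ((g - r) / 2 / k) + 32 * k / (3 * n)) := by ring
      _ ≤ (c * L ^ 2) * (2 * (1 - 1 / (k : ℝ)) ^ ((g - r) / 2 / k) + 32 * k / (3 * n)) :=
          mul_le_mul_of_nonneg_right hpre h1
      _ = _ := by ring
  linarith

end GE
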