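import Pool.Agent.H74.GE.DartSum

/-!
# GE/DartPoinc : the chain on the darts of `(G, w)` and its Poincare inequality

* `dartChain_poinc`. Let `W (symm a) = W a`. For every vertex `v` let `φ v = W (a_v)`, `a_v` a dart of
  weight 2 at `v` (`exists_two`). For an edge `xy` with dart `a = (x,y)`:
  `(φ x - φ y)² ≤ 2 (φ x - W a)² + 2 (φ y - W (symm a))²`. Hence
  `Σ_{x,y} [x ~ y] (φ x - φ y)² ≤ 4 Σ_a (φ a.fst - W a)²` (ordered pairs on the left = darts), and
  `Σ_a (φ a.fst - W a)² = Σ_a (W (a_{a.fst}) - W a)² ≤ E W`: in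
  `E W = (1/2) Σ_{a,b} K a b (W a - W b)²` keep only the pairs `(a_v, a)` and `(a, a_v)` with
  `a ≠ a_v` a dart at `v` (then `K = 1` because `w (a_v) = 2` and `w a ≥ 1`).
  Gap applied to `φ - φ̄` (`φ̄ = (Σ φ)/n`): `2 ε Σ_v (φ v - φ̄)² ≤ 4 E W`.
  Finally, for `c = φ̄`, `nrm W - (mass W)²/Z ≤ Σ_a μ a (W a - c)²` (the left side is the minimum of
  the right side over `c`), and `μ a (W a - c)² ≤ 2 · (2 (W a - φ)² + 2 (φ - c)²)` gives
  `Σ_a μ a (W a - c)² ≤ 4 E W + 4 · 3 Σ_v (φ v - c)² ≤ (4 + 24/ε) E W` (`card_star`).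
* `dartChain_mat_pos`: unfold `Chain.mat`, `dartK`.
-/

open scoped Classical

noncomputable section

namespace GE

universe u
variable {V : Type u} [Fintype V]

/-- the chain on the darts. -/
def dartChain (G : SimpleGraph V) (w : Sym2 V → ℕ) (h3 : IsCubic G) (h12 : IsWeight12 G w)
    (hE : IsEulerian G w) : Chain G.Dart where
  μ a := w a.edge
  J := SimpleGraph.Dart.symm
  K := dartK G w
  one_le a := by
    rcases h12 a.edge a.edge_mem with h | h <;> simp [h]
  le_two a := by
    rcases h12 a.edge a.edge_mem with h | h <;> simp [h]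
  J_J a := by simp
  μ_J a := by simp
  K_nonneg a b := by unfold dartK; split_ifs <;> norm_num
  K_symm a b := by
    unfold dartK
    have : (a.fst = b.fst ∧ a ≠ b ∧ 3 ≤ w a.edge + w b.edge) ↔
        (b.fst = a.fst ∧ b ≠ a ∧ 3 ≤ w b.edge + w a.edge) := by
      constructor <;> rintro ⟨h1, h2, h3⟩ <;> exact ⟨h1.symm, h2.symm, by omega⟩
    simp only [this]
  K_sum a := dartK_sum h3 h12 hE a

private theorem DartPoinc_sum_dart (G : SimpleGraph V) (f : V → V → ℝ) :
    (∑ x, ∑ y, if G.Adj x y then f x y else 0) = ∑ a : G.Dart, f a.fst a.snd := by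
  have h1 : (∑ x, ∑ y, if G.Adj x y then f x y else 0)
      = ∑ p : V × V, if G.Adj p.1 p.2 then f p.1 p.2 else 0 := by
    rw [Fintype.sum_prod_type]
  rw [h1, ← Finset.sum_filter]
  symm
  refine Finset.sum_bij (fun (a : G.Dart) _ => a.toProd) ?_ ?_ ?_ ?_
  · intro a _
    simp only [Finset.mem_filter, Finset.mem_univ, true_and]
    exact a.adj
  · intro a _ b _ hab
    exact SimpleGraph.Dart.ext _ _ hab
  · intro b hb
    simp only [Finset.mem_filter, Finset.mem_univ, true_and] at hb
    exact ⟨⟨b, hb⟩, Finset.mem_univ _, rfl⟩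
  · intro a _
    rfl

private theorem DartPoinc_sum_fst {G : SimpleGraph V} (h3 : IsCubic G) (f : V → ℝ) :
    (∑ a : G.Dart, f a.fst) = 3 * ∑ v, f v := by
  rw [← Finset.sum_fiberwise (s := (Finset.univ : Finset G.Dart)) (g := fun a => a.fst)
    (f := fun a => f a.fst), Finset.mul_sum]
  refine Finset.sum_congr rfl fun v _ => ?_
  have h : ∀ a ∈ (Finset.univ : Finset G.Dart).filter (fun a => a.fst = v), f a.fst = f v := by
    intro a ha
    simp only [Finset.mem_filter, Finset.mem_univ, true_and] at ha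
    rw [ha]
  rw [Finset.sum_congr rfl h, Finset.sum_const, card_star h3 v]
  simp

private theorem DartPoinc_sum_symm {G : SimpleGraph V} (f : G.Dart → ℝ) :
    (∑ a : G.Dart, f a.symm) = ∑ a, f a := by
  refine Finset.sum_bij (fun (a : G.Dart) _ => a.symm) ?_ ?_ ?_ ?_
  · intro a _
    exact Finset.mem_univ _
  · intro a _ b _ hab
    have := congrArg SimpleGraph.Dart.symm hab
    simpa using this
  · intro b _
    exact ⟨b.symm, Finset.mem_univ _, by simp⟩
  · intro a _
    rfl

/-- comparison of `W` with its value at a dart of weight two of the same vertex. -/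
private theorem DartPoinc_S1 {G : SimpleGraph V} {w : Sym2 V → ℕ} (h3 : IsCubic G)
    (h12 : IsWeight12 G w) (hE : IsEulerian G w) (W : G.Dart → ℝ) (d : V → G.Dart)
    (hd1 : ∀ v, (d v).fst = v) (hd2 : ∀ v, w (d v).edge = 2) :
    ∑ a : G.Dart, (W a - W (d a.fst)) ^ 2 ≤ (dartChain G w h3 h12 hE).E W := by
  have hone : ∀ a : G.Dart, 1 ≤ w a.edge := by
    intro a
    rcases h12 a.edge a.edge_mem with h | h <;> omega
  have hkey : ∀ a b : G.Dart,
      (if b = d a.fst then (W a - W (d a.fst)) ^ 2 else 0)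
        + (if a = d b.fst then (W b - W (d b.fst)) ^ 2 else 0)
      ≤ dartK G w a b * (W a - W b) ^ 2 := by
    intro a b
    have hnn : 0 ≤ dartK G w a b * (W a - W b) ^ 2 := by
      apply mul_nonneg _ (sq_nonneg _)
      unfold dartK
      split_ifs <;> norm_num
    by_cases hb : b = d a.fst
    · by_cases ha : a = d b.fst
      · have hbf : b.fst = a.fst := by rw [hb]; exact hd1 _
        have hab : a = b := by rw [ha, hbf, ← hb]
        rw [if_pos hb, if_pos ha]
        have e1 : d a.fst = a := by rw [← hb]; exact hab.symm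
        have e2 : d b.fst = b := by rw [← ha]; exact hab
        rw [e1, e2]
        simp only [sub_self]
        nlinarith [hnn]
      · have hbf : b.fst = a.fst := by rw [hb]; exact hd1 _
        have hne : a ≠ b := by
          intro hab
          apply ha
          rw [hbf, ← hb]
          exact hab
        have hK : dartK G w a b = 1 := by
          unfold dartK
          rw [if_pos]
          refine ⟨hbf.symm, hne, ?_⟩
          have h1 := hone a
          have h2 : w b.edge = 2 := by rw [hb]; exact hd2 _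
          omega
        rw [if_pos hb, if_neg ha, hK, ← hb]
        linarith
    · by_cases ha : a = d b.fst
      · have haf : a.fst = b.fst := by rw [ha]; exact hd1 _
        have hne : a ≠ b := by
          intro hab
          apply hb
          rw [haf, ← ha]
          exact hab.symm
        have hK : dartK G w a b = 1 := by
          unfold dartK
          rw [if_pos]
          refine ⟨haf, hne, ?_⟩
          have h1 := hone b
          have h2 : w a.edge = 2 := by rw [ha]; exact hd2 _
          omega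
        rw [if_neg hb, if_pos ha, hK, ← ha]
        nlinarith
      · rw [if_neg hb, if_neg ha]
        linarith
  have hsum : (∑ a : G.Dart, ∑ b : G.Dart,
      ((if b = d a.fst then (W a - W (d a.fst)) ^ 2 else 0)
        + (if a = d b.fst then (W b - W (d b.fst)) ^ 2 else 0)))
      ≤ ∑ a : G.Dart, ∑ b : G.Dart, dartK G w a b * (W a - W b) ^ 2 :=
    Finset.sum_le_sum fun a _ => Finset.sum_le_sum fun b _ => hkey a b
  have hL : (∑ a : G.Dart, ∑ b : G.Dart,
      ((if b = d a.fst then (W a - W (d a.fst)) ^ 2 else 0)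
        + (if a = d b.fst then (W b - W (d b.fst)) ^ 2 else 0)))
      = 2 * ∑ a : G.Dart, (W a - W (d a.fst)) ^ 2 := by
    simp only [Finset.sum_add_distrib]
    have hA : (∑ a : G.Dart, ∑ b : G.Dart,
        (if b = d a.fst then (W a - W (d a.fst)) ^ 2 else 0))
        = ∑ a : G.Dart, (W a - W (d a.fst)) ^ 2 := by
      refine Finset.sum_congr rfl fun a _ => ?_
      rw [Finset.sum_ite_eq' Finset.univ (d a.fst)]
      simp
    have hB : (∑ a : G.Dart, ∑ b : G.Dart,
        (if a = d b.fst then (W b - W (d b.fst)) ^ 2 else 0))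
        = ∑ a : G.Dart, (W a - W (d a.fst)) ^ 2 := by
      rw [Finset.sum_comm]
      refine Finset.sum_congr rfl fun a _ => ?_
      rw [Finset.sum_ite_eq' Finset.univ (d a.fst)]
      simp
    rw [hA, hB]
    ring
  rw [hL] at hsum
  have hEd : (dartChain G w h3 h12 hE).E W
      = (1 / 2) * ∑ a : G.Dart, ∑ b : G.Dart, dartK G w a b * (W a - W b) ^ 2 := rfl
  rw [hEd]
  linarith

theorem dartChain_poinc {G : SimpleGraph V} {w : Sym2 V → ℕ} (h3 : IsCubic G)
    (h12 : IsWeight12 G w) (hE : IsEulerian G w) {ε : ℝ} (hε : 0 < ε) (hgap : SpectralGap G ε) :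
    (dartChain G w h3 h12 hE).Poinc (4 + 24 / ε) := by
  intro W hW
  have hW' : ∀ a : G.Dart, W a.symm = W a := fun a => hW a
  choose d hd1 hd2 using exists_two h3 h12 hE
  have hS1 := DartPoinc_S1 h3 h12 hE W d hd1 hd2
  set S1 : ℝ := ∑ a : G.Dart, (W a - W (d a.fst)) ^ 2 with hS1def
  set EW : ℝ := (dartChain G w h3 h12 hE).E W with hEW
  -- the sum over the edges
  set D : ℝ := ∑ x, ∑ y, if G.Adj x y then (W (d x) - W (d y)) ^ 2 else 0 with hDdef
  have hD : D ≤ 4 * S1 := by
    rw [hDdef, DartPoinc_sum_dart G (fun x y => (W (d x) - W (d y)) ^ 2)]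
    have hle : ∑ a : G.Dart, (W (d a.fst) - W (d a.snd)) ^ 2
        ≤ ∑ a : G.Dart, (2 * (W a - W (d a.fst)) ^ 2
          + 2 * (W a.symm - W (d a.symm.fst)) ^ 2) := by
      refine Finset.sum_le_sum fun a _ => ?_
      rw [hW' a]
      have hs : a.symm.fst = a.snd := rfl
      rw [hs]
      nlinarith [sq_nonneg ((W a - W (d a.fst)) + (W a - W (d a.snd)))]
    have heq : ∑ a : G.Dart, (2 * (W a - W (d a.fst)) ^ 2
          + 2 * (W a.symm - W (d a.symm.fst)) ^ 2) = 4 * S1 := by
      rw [Finset.sum_add_distrib, ← Finset.mul_sum, ← Finset.mul_sum,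
        DartPoinc_sum_symm (fun a : G.Dart => (W a - W (d a.fst)) ^ 2), ← hS1def]
      ring
    linarith
  -- the gap
  set c : ℝ := (∑ v, W (d v)) / (Fintype.card V : ℝ) with hc
  have hzero : ∑ v, (W (d v) - c) = 0 := by
    rcases isEmpty_or_nonempty V with hV | hV
    · simp
    · rw [Finset.sum_sub_distrib, Finset.sum_const, nsmul_eq_mul, hc, Finset.card_univ]
      have : (Fintype.card V : ℝ) ≠ 0 := by
        exact_mod_cast Fintype.card_ne_zero
      field_simp
      ring
  have hg := hgap (fun v => W (d v) - c) hzero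
  have hg2 : (∑ x, ∑ y, if G.Adj x y then ((W (d x) - c) - (W (d y) - c)) ^ 2 else 0) = D := by
    rw [hDdef]
    refine Finset.sum_congr rfl fun x _ => Finset.sum_congr rfl fun y _ => ?_
    have : (W (d x) - c) - (W (d y) - c) = W (d x) - W (d y) := by ring
    rw [this]
  set V2 : ℝ := ∑ v, (W (d v) - c) ^ 2 with hV2
  have hg3 : 2 * ε * V2 ≤ D := by
    rw [← hg2]
    exact hg
  have hV2le : V2 ≤ 2 / ε * EW := by
    have h1 : ε * V2 ≤ 2 * EW := by nlinarith
    rw [div_mul_eq_mul_div, le_div_iff₀ hε]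
    linarith
  -- the upper bound of the weighted second moment around `c`
  have hup : ∑ a : G.Dart, (w a.edge : ℝ) * (W a - c) ^ 2 ≤ 4 * S1 + 12 * V2 := by
    have hle : ∑ a : G.Dart, (w a.edge : ℝ) * (W a - c) ^ 2
        ≤ ∑ a : G.Dart, (4 * (W a - W (d a.fst)) ^ 2 + 4 * (W (d a.fst) - c) ^ 2) := by
      refine Finset.sum_le_sum fun a _ => ?_
      have hw2 : (w a.edge : ℝ) ≤ 2 := by
        rcases h12 a.edge a.edge_mem with h | h <;> simp [h]
      have h1 : (w a.edge : ℝ) * (W a - c) ^ 2 ≤ 2 * (W a - c) ^ 2 :=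
        mul_le_mul_of_nonneg_right hw2 (sq_nonneg _)
      nlinarith [sq_nonneg ((W a - W (d a.fst)) - (W (d a.fst) - c))]
    have heq : ∑ a : G.Dart, (4 * (W a - W (d a.fst)) ^ 2 + 4 * (W (d a.fst) - c) ^ 2)
        = 4 * S1 + 12 * V2 := by
      rw [Finset.sum_add_distrib, ← Finset.mul_sum, ← Finset.mul_sum,
        DartPoinc_sum_fst h3 (fun v => (W (d v) - c) ^ 2), ← hS1def, ← hV2]
      ring
    linarith
  -- the variance is the minimum
  have hvar : (dartChain G w h3 h12 hE).nrm W
        - (dartChain G w h3 h12 hE).mass W ^ 2 / (dartChain G w h3 h12 hE).Z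
      ≤ ∑ a : G.Dart, (w a.edge : ℝ) * (W a - c) ^ 2 := by
    have hn : (dartChain G w h3 h12 hE).nrm W = ∑ a : G.Dart, (w a.edge : ℝ) * W a ^ 2 := rfl
    have hm : (dartChain G w h3 h12 hE).mass W = ∑ a : G.Dart, (w a.edge : ℝ) * W a := rfl
    have hZ : (dartChain G w h3 h12 hE).Z = ∑ a : G.Dart, (w a.edge : ℝ) := rfl
    have hexp : ∑ a : G.Dart, (w a.edge : ℝ) * (W a - c) ^ 2
        = (dartChain G w h3 h12 hE).nrm W - 2 * c * (dartChain G w h3 h12 hE).mass W
          + c ^ 2 * (dartChain G w h3 h12 hE).Z := by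
      rw [hn, hm, hZ, Finset.mul_sum, Finset.mul_sum, ← Finset.sum_sub_distrib,
        ← Finset.sum_add_distrib]
      refine Finset.sum_congr rfl fun a _ => ?_
      ring
    rw [hexp]
    rcases isEmpty_or_nonempty G.Dart with hS | hS
    · have hm0 : (dartChain G w h3 h12 hE).mass W = 0 := by rw [hm]; simp
      have hZ0 : (dartChain G w h3 h12 hE).Z = 0 := by rw [hZ]; simp
      rw [hm0, hZ0]
      simp
    · have hZpos : 0 < (dartChain G w h3 h12 hE).Z := by
        rw [hZ]
        apply Finset.sum_pos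
        · intro a _
          rcases h12 a.edge a.edge_mem with h | h <;> simp [h]
        · exact Finset.univ_nonempty
      set M := (dartChain G w h3 h12 hE).mass W
      set Z := (dartChain G w h3 h12 hE).Z
      have hsq : 0 ≤ (c * Z - M) ^ 2 / Z := div_nonneg (sq_nonneg _) hZpos.le
      have hid : (c * Z - M) ^ 2 / Z = c ^ 2 * Z - 2 * c * M + M ^ 2 / Z := by
        field_simp
        ring
      rw [hid] at hsq
      linarith
  have hfin : 4 * S1 + 12 * V2 ≤ (4 + 24 / ε) * EW := by
    have h1 : (4 + 24 / ε) * EW = 4 * EW + 12 * (2 / ε * EW) := by ring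
    rw [h1]
    linarith
  linarith

/-- a positive entry of the transition matrix means an allowed step. -/
theorem dartChain_mat_pos {G : SimpleGraph V} {w : Sym2 V → ℕ} (h3 : IsCubic G)
    (h12 : IsWeight12 G w) (hE : IsEulerian G w) {a b : G.Dart}
    (h : 0 < (dartChain G w h3 h12 hE).mat a b) :
    b.fst = a.snd ∧ b ≠ a.symm ∧ 3 ≤ w a.edge + w b.edge := by
  have hmat : (dartChain G w h3 h12 hE).mat a b = (1 / (w a.edge : ℝ)) * dartK G w a.symm b := rfl
  rw [hmat] at h
  by_cases hc : a.symm.fst = b.fst ∧ a.symm ≠ b ∧ 3 ≤ w a.symm.edge + w b.edge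
  · obtain ⟨h1, h2, h4⟩ := hc
    refine ⟨h1.symm, h2.symm, ?_⟩
    rw [SimpleGraph.Dart.edge_symm] at h4
    exact h4
  · have hK : dartK G w a.symm b = 0 := by
      unfold dartK
      rw [if_neg hc]
    rw [hK] at h
    simp at h

end GE
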