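import Pool.Agent.H74.GE.Defs

/-!
# GE/DartSum : row sums of the kernel on darts

`G` cubic, `w` an eulerian (1,2)-weight. By parity every vertex has exactly 0 or 2 neighbours along
edges of weight 1 (types `(2,2,2)` and `(1,1,2)`); in particular every vertex has a dart of weight 2.

* `dartK`: `K a b = 1` iff `a.fst = b.fst`, `a ≠ b` and `3 ≤ w a.edge + w b.edge`. Row sums: for a
  dart `a` of weight 1 (type (1,1,2)) only the dart of weight 2 qualifies: sum `1 = w`; for `a` of
  weight 2 both other darts at the vertex qualify (whatever their weights): sum `2 = w`.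
* `card_dart`: there are `3 n` darts.
* `exists_two`: every vertex has a dart of weight 2.
-/

open scoped Classical

noncomputable section

namespace GE

universe u
variable {V : Type u} [Fintype V]

/-- the kernel on darts. -/
def dartK (G : SimpleGraph V) (w : Sym2 V → ℕ) (a b : G.Dart) : ℝ :=
  if a.fst = b.fst ∧ a ≠ b ∧ 3 ≤ w a.edge + w b.edge then 1 else 0

private theorem DartSum_edge {G : SimpleGraph V} {v x : V} (h : G.Adj v x) :
    (⟨(v, x), h⟩ : G.Dart).edge = s(v, x) := rfl

private theorem DartSum_three {G : SimpleGraph V} (h3 : IsCubic G) {v x : V} (h : G.Adj v x) :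
    ∃ y z, x ≠ y ∧ x ≠ z ∧ y ≠ z ∧ G.neighborSet v = {x, y, z} := by
  have hx : x ∈ G.neighborSet v := h
  have h2 : (G.neighborSet v \ {x}).ncard = 2 := by
    rw [Set.ncard_sdiff_singleton_of_mem hx, h3 v]
  obtain ⟨y, z, hyz, he⟩ := Set.ncard_eq_two.1 h2
  have hy : y ∈ G.neighborSet v \ {x} := by rw [he]; simp
  have hz : z ∈ G.neighborSet v \ {x} := by rw [he]; simp
  refine ⟨y, z, fun hh => hy.2 hh.symm, fun hh => hz.2 hh.symm, hyz, ?_⟩
  rw [← he]
  ext u
  simp only [Set.mem_insert_iff, Set.mem_sdiff, Set.mem_singleton_iff]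
  constructor
  · intro hu
    by_cases hux : u = x
    · exact Or.inl hux
    · exact Or.inr ⟨hu, hux⟩
  · rintro (hu | hu)
    · rw [hu]; exact hx
    · exact hu.1

private theorem DartSum_deg {G : SimpleGraph V} (h3 : IsCubic G) (v : V) : G.degree v = 3 := by
  rw [← SimpleGraph.card_neighborSet_eq_degree, ← h3 v, Set.ncard_eq_toFinset_card',
    Set.toFinset_card]

theorem dartK_sum {G : SimpleGraph V} {w : Sym2 V → ℕ} (h3 : IsCubic G) (h12 : IsWeight12 G w)
    (hE : IsEulerian G w) (a : G.Dart) : ∑ b, dartK G w a b = (w a.edge : ℝ) := by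
  obtain ⟨⟨v, x⟩, hx⟩ := a
  change G.Adj v x at hx
  obtain ⟨y, z, hxy, hxz, hyz, hN⟩ := DartSum_three h3 hx
  have hy : G.Adj v y := by
    have : y ∈ G.neighborSet v := by rw [hN]; simp
    exact this
  have hz : G.Adj v z := by
    have : z ∈ G.neighborSet v := by rw [hN]; simp
    exact this
  have key : ∀ b : G.Dart, dartK G w ⟨(v, x), hx⟩ b
      = (if b = ⟨(v, y), hy⟩ then (if 3 ≤ w s(v, x) + w s(v, y) then (1 : ℝ) else 0) else 0)
        + (if b = ⟨(v, z), hz⟩ then (if 3 ≤ w s(v, x) + w s(v, z) then (1 : ℝ) else 0) else 0) := by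
    rintro ⟨⟨p, q⟩, hb⟩
    change G.Adj p q at hb
    unfold dartK
    simp only [DartSum_edge]
    by_cases hpv : v = p
    · subst hpv
      have hq : q ∈ ({x, y, z} : Set V) := by rw [← hN]; exact hb
      simp only [Set.mem_insert_iff, Set.mem_singleton_iff] at hq
      rcases hq with rfl | rfl | rfl
      · simp [hxy, hxz]
      · simp [hyz, hxy]
      · simp [hyz.symm, hxz]
    · have h1 : ¬ (p = v) := fun hh => hpv hh.symm
      simp [hpv, h1]
  rw [Finset.sum_congr rfl (fun b _ => key b), Finset.sum_add_distrib, Finset.sum_ite_eq',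
    Finset.sum_ite_eq', if_pos (Finset.mem_univ _), if_pos (Finset.mem_univ _), DartSum_edge]
  have hev := hE v
  rcases h12 s(v, x) hx with wx | wx
  · rcases h12 s(v, y) hy with wy | wy <;> rcases h12 s(v, z) hz with wz | wz
    · exfalso
      have : ({u | G.Adj v u ∧ Odd (w s(v, u))} : Set V) = G.neighborSet v := by
        ext u
        constructor
        · intro hu; exact hu.1
        · intro hu
          refine ⟨hu, ?_⟩
          rw [hN] at hu
          simp only [Set.mem_insert_iff, Set.mem_singleton_iff] at hu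
          rcases hu with rfl | rfl | rfl
          · rw [wx]; decide
          · rw [wy]; decide
          · rw [wz]; decide
      rw [this, h3 v] at hev
      exact absurd hev (by decide)
    · rw [wx, wy, wz]; norm_num
    · rw [wx, wy, wz]; norm_num
    · exfalso
      have : ({u | G.Adj v u ∧ Odd (w s(v, u))} : Set V) = {x} := by
        ext u
        constructor
        · rintro ⟨hu, hodd⟩
          have hu' : u ∈ ({x, y, z} : Set V) := by rw [← hN]; exact hu
          simp only [Set.mem_insert_iff, Set.mem_singleton_iff] at hu'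
          rcases hu' with rfl | rfl | rfl
          · rfl
          · rw [wy] at hodd; exact absurd hodd (by decide)
          · rw [wz] at hodd; exact absurd hodd (by decide)
        · intro hu
          rw [Set.mem_singleton_iff] at hu
          rw [hu]
          exact ⟨hx, by rw [wx]; decide⟩
      rw [this, Set.ncard_singleton] at hev
      exact absurd hev (by decide)
  · have cy : 3 ≤ w s(v, x) + w s(v, y) := by
      rcases h12 s(v, y) hy with wy | wy <;> omega
    have cz : 3 ≤ w s(v, x) + w s(v, z) := by
      rcases h12 s(v, z) hz with wz | wz <;> omega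
    rw [if_pos cy, if_pos cz, wx]; norm_num

theorem exists_two {G : SimpleGraph V} {w : Sym2 V → ℕ} (h3 : IsCubic G) (h12 : IsWeight12 G w)
    (hE : IsEulerian G w) (v : V) : ∃ a : G.Dart, a.fst = v ∧ w a.edge = 2 := by
  by_contra hno
  have hall : ∀ u, G.Adj v u → w s(v, u) = 1 := by
    intro u hu
    rcases h12 s(v, u) hu with h | h
    · exact h
    · exact absurd ⟨⟨(v, u), hu⟩, rfl, h⟩ hno
  have hev := hE v
  have : ({u | G.Adj v u ∧ Odd (w s(v, u))} : Set V) = G.neighborSet v := by
    ext u
    constructor
    · intro hu; exact hu.1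
    · intro hu
      exact ⟨hu, by rw [hall u hu]; decide⟩
  rw [this, h3 v] at hev
  exact absurd hev (by decide)

theorem card_dart {G : SimpleGraph V} (h3 : IsCubic G) :
    Fintype.card G.Dart = 3 * Fintype.card V := by
  rw [SimpleGraph.dart_card_eq_sum_degrees, Finset.sum_congr rfl (fun v _ => DartSum_deg h3 v),
    Finset.sum_const, Finset.card_univ, smul_eq_mul, mul_comm]

theorem card_star {G : SimpleGraph V} (h3 : IsCubic G) (v : V) :
    (Finset.univ.filter (fun a : G.Dart => a.fst = v)).card = 3 := by
  have h := G.dart_fst_fiber_card_eq_degree v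
  rw [DartSum_deg h3 v] at h
  rw [← h]

end GE
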