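import Pool.Agent.H74.GE.Diss

/-!
# GE/Decay : decay of the norm and bounds for the transition probabilities (abstract)

* `decay`: let `M = 8 k s²/Z`, `N_j = nrm (Q^[j] f)` (nonincreasing by `nrm_Q_le`, the mass is
  preserved, everything stays nonnegative). If some `N_{ik} ≤ M` with `i ≤ j/k` then `N_j ≤ M`;
  otherwise `dissip` gives `N_{(i+1)k} ≤ (1-1/k) N_{ik}` for all `i < j/k`.
* `mat_pow_mulVec`: `(mat^j).mulVec f = Q^[j] f`; entries of `mat^j` are nonnegative with row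
  sums 1 (`Σ_b K (J a) b = μ (J a) = μ a`).
* `mat_pow_symm`: `μ a * (mat^j) a b = μ b * (mat^j) (J b) (J a)` (induction on `j`, or
  `⟨Q^j 1_b, 1_a⟩ = ⟨1_b, (TP)^j 1_a⟩`, `(TP)^j = P (PT)^j P`); for `j = 1`:
  `μ a * mat a b = K (J a) b` and `μ b * mat (J b) (J a) = K (J (J b)) (J a) = K b (J a)`.
* `mat_pow_le`: write `j = i + i'` with `i = j/2 ≤ i'`. Then
  `(mat^j) a b = Σ_c (mat^i) a c (mat^i') c b = (1/μ a) Σ_c μ c (mat^i) (J c) (J a) (mat^i') c b
   ≤ (1/μ a) √(nrm (Q^[i] 1_{J a})) √(nrm (Q^[i'] 1_b))` by Cauchy-Schwarz (substitute `J` in the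
  first norm, `μ ∘ J = μ`), and `nrm 1_b = μ b ≤ 2`, `mass 1_b = μ b ≤ 2`, so both norms are at most
  `max (2 (1-1/k)^(i/k)) (32 k/Z)` by `decay` (note `i' ≥ i`). Finally `1/μ a ≤ 1`.
-/

open scoped Classical

noncomputable section

namespace GE

universe u
variable {S : Type u} [Fintype S]

theorem Decay_mu_pos (c : Chain S) (a : S) : 0 < c.μ a :=
  lt_of_lt_of_le one_pos (c.one_le a)

theorem Decay_Z_nonneg (c : Chain S) : 0 ≤ c.Z :=
  Finset.sum_nonneg fun a _ => (Decay_mu_pos c a).le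

theorem Decay_iter_nonneg (c : Chain S) {f : S → ℝ} (hf : ∀ a, 0 ≤ f a) (j : ℕ) :
    ∀ a, 0 ≤ c.Q^[j] f a := by
  induction j with
  | zero => exact hf
  | succ j ih =>
    intro a
    rw [Function.iterate_succ_apply']
    exact c.Q_nonneg ih a

theorem Decay_iter_mass (c : Chain S) (f : S → ℝ) (j : ℕ) :
    c.mass (c.Q^[j] f) = c.mass f := by
  induction j with
  | zero => rfl
  | succ j ih => rw [Function.iterate_succ_apply', c.mass_Q, ih]

theorem Decay_iter_antitone (c : Chain S) (f : S → ℝ) :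
    Antitone fun j : ℕ => c.nrm (c.Q^[j] f) := by
  refine antitone_nat_of_succ_le fun j => ?_
  show c.nrm (c.Q^[j + 1] f) ≤ c.nrm (c.Q^[j] f)
  rw [Function.iterate_succ_apply']
  exact c.nrm_Q_le _

theorem Chain.decay [Nonempty S] (c : Chain S) {κ : ℝ} (hκ : 0 ≤ κ) (hP : c.Poinc κ) {k : ℕ}
    (hk : 2 ≤ k) (hk2 : 50 * κ ^ 2 ≤ (k : ℝ) - 1) {f : S → ℝ} (hf : ∀ a, 0 ≤ f a) (j : ℕ) :
    c.nrm (c.Q^[j] f) ≤
      max (c.nrm f * (1 - 1 / (k : ℝ)) ^ (j / k)) (8 * k * c.mass f ^ 2 / c.Z) := by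
  have hkr : (2 : ℝ) ≤ k := by exact_mod_cast hk
  have hρ0 : (0 : ℝ) ≤ 1 - 1 / (k : ℝ) := by
    rw [sub_nonneg, div_le_one (by linarith)]
    linarith
  have hρ1 : 1 - 1 / (k : ℝ) ≤ 1 := by
    have : (0 : ℝ) ≤ 1 / (k : ℝ) := by positivity
    linarith
  have hM : 0 ≤ 8 * k * c.mass f ^ 2 / c.Z :=
    div_nonneg (by positivity) (Decay_Z_nonneg c)
  have key : ∀ i : ℕ, c.nrm (c.Q^[k * i] f) ≤
      max (c.nrm f * (1 - 1 / (k : ℝ)) ^ i) (8 * k * c.mass f ^ 2 / c.Z) := by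
    intro i
    induction i with
    | zero => simp
    | succ i ih =>
      have hadd : c.Q^[k * (i + 1)] f = c.Q^[k] (c.Q^[k * i] f) := by
        rw [← Function.iterate_add_apply]
        congr 1
        ring_nf
      rcases c.dissip hκ hP hk hk2 (Decay_iter_nonneg c hf (k * i)) with h | h
      · rw [hadd]
        refine h.trans ?_
        refine (mul_le_mul_of_nonneg_left ih hρ0).trans ?_
        rw [mul_max_of_nonneg _ _ hρ0]
        refine max_le_max (le_of_eq ?_) ?_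
        · rw [pow_succ]
          ring
        · calc (1 - 1 / (k : ℝ)) * (8 * k * c.mass f ^ 2 / c.Z)
              ≤ 1 * (8 * k * c.mass f ^ 2 / c.Z) := mul_le_mul_of_nonneg_right hρ1 hM
            _ = _ := one_mul _
      · rw [Decay_iter_mass] at h
        refine le_trans ?_ (le_max_right _ _)
        exact (Decay_iter_antitone c f (by nlinarith : k * i ≤ k * (i + 1))).trans h
  exact (Decay_iter_antitone c f (Nat.mul_div_le j k)).trans (key (j / k))

theorem Chain.mat_pow_mulVec [DecidableEq S] (c : Chain S) (f : S → ℝ) (j : ℕ) :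
    (c.mat ^ j).mulVec f = c.Q^[j] f := by
  induction j with
  | zero => simp
  | succ j ih =>
    rw [pow_succ', ← Matrix.mulVec_mulVec, ih, Function.iterate_succ_apply']
    funext a
    simp only [Matrix.mulVec, dotProduct, Chain.mat, Chain.Q, Finset.mul_sum]
    exact Finset.sum_congr rfl fun b _ => by ring

theorem Chain.mat_nonneg (c : Chain S) (a b : S) : 0 ≤ c.mat a b :=
  mul_nonneg (one_div_nonneg.mpr (Decay_mu_pos c a).le) (c.K_nonneg _ _)

theorem Chain.mat_pow_nonneg [DecidableEq S] (c : Chain S) (j : ℕ) (a b : S) :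
    0 ≤ (c.mat ^ j) a b := by
  induction j generalizing a b with
  | zero =>
    rw [pow_zero, Matrix.one_apply]
    split_ifs <;> norm_num
  | succ j ih =>
    rw [pow_succ', Matrix.mul_apply]
    exact Finset.sum_nonneg fun d _ => mul_nonneg (c.mat_nonneg a d) (ih d b)

theorem Decay_mat_sum (c : Chain S) (a : S) : ∑ b, c.mat a b = 1 := by
  unfold Chain.mat
  rw [← Finset.mul_sum, c.K_sum, c.μ_J, one_div, inv_mul_cancel₀ (Decay_mu_pos c a).ne']

theorem Chain.mat_pow_sum [DecidableEq S] (c : Chain S) (j : ℕ) (a : S) :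
    ∑ b, (c.mat ^ j) a b = 1 := by
  induction j generalizing a with
  | zero =>
    rw [pow_zero]
    simp [Matrix.one_apply]
  | succ j ih =>
    rw [pow_succ']
    simp only [Matrix.mul_apply]
    rw [Finset.sum_comm]
    calc ∑ d, ∑ b, c.mat a d * (c.mat ^ j) d b = ∑ d, c.mat a d := by
          refine Finset.sum_congr rfl fun d _ => ?_
          rw [← Finset.mul_sum, ih, mul_one]
      _ = 1 := Decay_mat_sum c a

theorem Decay_mat_symm (c : Chain S) (a d : S) :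
    c.μ a * c.mat a d = c.μ d * c.mat (c.J d) (c.J a) := by
  unfold Chain.mat
  rw [c.μ_J, c.J_J, ← mul_assoc, ← mul_assoc, mul_one_div_cancel (Decay_mu_pos c a).ne',
    mul_one_div_cancel (Decay_mu_pos c d).ne', one_mul, one_mul, c.K_symm]

theorem Chain.mat_pow_symm [DecidableEq S] (c : Chain S) (j : ℕ) (a b : S) :
    c.μ a * (c.mat ^ j) a b = c.μ b * (c.mat ^ j) (c.J b) (c.J a) := by
  induction j generalizing a b with
  | zero =>
    rw [pow_zero, Matrix.one_apply, Matrix.one_apply]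
    by_cases h : a = b
    · subst h
      simp
    · have h' : c.J b ≠ c.J a := by
        intro h2
        apply h
        rw [← c.J_J a, ← h2, c.J_J]
      rw [if_neg h, if_neg h', mul_zero, mul_zero]
  | succ j ih =>
    rw [pow_succ', Matrix.mul_apply, Finset.mul_sum]
    have hbij : ∑ d, (c.mat ^ j) (c.J b) (c.J d) * c.mat (c.J d) (c.J a) =
        ∑ d, (c.mat ^ j) (c.J b) d * c.mat d (c.J a) :=
      Equiv.sum_comp (⟨c.J, c.J, c.J_J, c.J_J⟩ : S ≃ S)
        (fun d => (c.mat ^ j) (c.J b) d * c.mat d (c.J a))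
    rw [← pow_succ', pow_succ, Matrix.mul_apply, ← hbij, Finset.mul_sum]
    refine Finset.sum_congr rfl fun d _ => ?_
    calc c.μ a * (c.mat a d * (c.mat ^ j) d b)
        = (c.μ a * c.mat a d) * (c.mat ^ j) d b := by ring
      _ = (c.μ d * c.mat (c.J d) (c.J a)) * (c.mat ^ j) d b := by rw [Decay_mat_symm]
      _ = (c.μ d * (c.mat ^ j) d b) * c.mat (c.J d) (c.J a) := by ring
      _ = (c.μ b * (c.mat ^ j) (c.J b) (c.J d)) * c.mat (c.J d) (c.J a) := by rw [ih]
      _ = _ := by ring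

omit [Fintype S] in
theorem Decay_ind_nonneg [DecidableEq S] (b : S) : ∀ a : S, (0 : ℝ) ≤ if a = b then 1 else 0 := by
  intro a
  split_ifs <;> norm_num

theorem Decay_nrm_ind [DecidableEq S] (c : Chain S) (b : S) :
    c.nrm (fun a => if a = b then 1 else 0) = c.μ b := by
  unfold Chain.nrm
  simp

theorem Decay_mass_ind [DecidableEq S] (c : Chain S) (b : S) :
    c.mass (fun a => if a = b then 1 else 0) = c.μ b := by
  unfold Chain.mass
  simp

theorem Decay_entry [DecidableEq S] (c : Chain S) (j : ℕ) (a b : S) :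
    (c.mat ^ j) a b = c.Q^[j] (fun a => if a = b then 1 else 0) a := by
  rw [← c.mat_pow_mulVec]
  simp [Matrix.mulVec, dotProduct]

theorem Decay_nrm_le [DecidableEq S] [Nonempty S] (c : Chain S) {κ : ℝ} (hκ : 0 ≤ κ)
    (hP : c.Poinc κ) {k : ℕ} (hk : 2 ≤ k) (hk2 : 50 * κ ^ 2 ≤ (k : ℝ) - 1) (i i' : ℕ)
    (hi : i ≤ i') (b : S) :
    c.nrm (c.Q^[i'] (fun a => if a = b then 1 else 0)) ≤
      max (2 * (1 - 1 / (k : ℝ)) ^ (i / k)) (32 * k / c.Z) := by
  have hkr : (2 : ℝ) ≤ k := by exact_mod_cast hk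
  have hρ0 : (0 : ℝ) ≤ 1 - 1 / (k : ℝ) := by
    rw [sub_nonneg, div_le_one (by linarith)]
    linarith
  have hρ1 : 1 - 1 / (k : ℝ) ≤ 1 := by
    have : (0 : ℝ) ≤ 1 / (k : ℝ) := by positivity
    linarith
  have h1 : c.nrm (c.Q^[i'] (fun a => if a = b then 1 else 0)) ≤
      c.nrm (c.Q^[i] (fun a => if a = b then 1 else 0)) := Decay_iter_antitone c _ hi
  refine h1.trans ((c.decay hκ hP hk hk2 (Decay_ind_nonneg b) i).trans ?_)
  rw [Decay_nrm_ind, Decay_mass_ind]
  refine max_le_max ?_ ?_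
  · exact mul_le_mul_of_nonneg_right (c.le_two b) (pow_nonneg hρ0 _)
  · refine div_le_div_of_nonneg_right ?_ (Decay_Z_nonneg c)
    have h4 : c.μ b ^ 2 ≤ 4 := by
      have h2 := c.le_two b
      have h0 := (Decay_mu_pos c b).le
      nlinarith
    nlinarith

theorem Chain.mat_pow_le [DecidableEq S] [Nonempty S] (c : Chain S) {κ : ℝ} (hκ : 0 ≤ κ)
    (hP : c.Poinc κ) {k : ℕ} (hk : 2 ≤ k) (hk2 : 50 * κ ^ 2 ≤ (k : ℝ) - 1) (j : ℕ) (a b : S) :
    (c.mat ^ j) a b ≤ max (2 * (1 - 1 / (k : ℝ)) ^ (j / 2 / k)) (32 * k / c.Z) := by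
  have hX0 : 0 ≤ max (2 * (1 - 1 / (k : ℝ)) ^ (j / 2 / k)) (32 * k / c.Z) :=
    le_trans (div_nonneg (by positivity) (Decay_Z_nonneg c)) (le_max_right _ _)
  have hF := Decay_nrm_le c hκ hP hk hk2 (j / 2) (j / 2) le_rfl (c.J a)
  have hG := Decay_nrm_le c hκ hP hk hk2 (j / 2) (j - j / 2) (by omega) b
  generalize max (2 * (1 - 1 / (k : ℝ)) ^ (j / 2 / k)) (32 * k / c.Z) = X at hX0 hF hG ⊢
  set F : S → ℝ := c.Q^[j / 2] (fun x => if x = c.J a then 1 else 0) with hFdef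
  set G : S → ℝ := c.Q^[j - j / 2] (fun x => if x = b then 1 else 0) with hGdef
  have hFe : ∀ x, (c.mat ^ (j / 2)) x (c.J a) = F x := fun x => by rw [hFdef, ← Decay_entry]
  have hGe : ∀ x, (c.mat ^ (j - j / 2)) x b = G x := fun x => by rw [hGdef, ← Decay_entry]
  have hsplit : (c.mat ^ j) a b = ∑ x, (c.mat ^ (j / 2)) a x * (c.mat ^ (j - j / 2)) x b := by
    rw [← Matrix.mul_apply, ← pow_add, Nat.add_sub_cancel' (Nat.div_le_self j 2)]
  have hmul : c.μ a * (c.mat ^ j) a b = ∑ x, c.μ x * (F (c.J x) * G x) := by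
    rw [hsplit, Finset.mul_sum]
    refine Finset.sum_congr rfl fun x _ => ?_
    rw [← mul_assoc, c.mat_pow_symm, hFe, hGe]
    ring
  have hcs : (∑ x, c.μ x * (F (c.J x) * G x)) ^ 2 ≤
      (∑ x, c.μ x * F (c.J x) ^ 2) * ∑ x, c.μ x * G x ^ 2 := by
    have := Finset.sum_mul_sq_le_sq_mul_sq Finset.univ
      (fun x => Real.sqrt (c.μ x) * F (c.J x)) (fun x => Real.sqrt (c.μ x) * G x)
    have e1 : ∀ x, (Real.sqrt (c.μ x) * F (c.J x)) * (Real.sqrt (c.μ x) * G x) =
        c.μ x * (F (c.J x) * G x) := fun x => by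
      have := Real.mul_self_sqrt (Decay_mu_pos c x).le
      calc (Real.sqrt (c.μ x) * F (c.J x)) * (Real.sqrt (c.μ x) * G x) =
          (Real.sqrt (c.μ x) * Real.sqrt (c.μ x)) * (F (c.J x) * G x) := by ring
        _ = _ := by rw [this]
    have e2 : ∀ x, (Real.sqrt (c.μ x) * F (c.J x)) ^ 2 = c.μ x * F (c.J x) ^ 2 := fun x => by
      rw [mul_pow, Real.sq_sqrt (Decay_mu_pos c x).le]
    have e3 : ∀ x, (Real.sqrt (c.μ x) * G x) ^ 2 = c.μ x * G x ^ 2 := fun x => by
      rw [mul_pow, Real.sq_sqrt (Decay_mu_pos c x).le]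
    simpa only [e1, e2, e3] using this
  have hJ : ∑ x, c.μ x * F (c.J x) ^ 2 = c.nrm F := by
    unfold Chain.nrm
    rw [← Equiv.sum_comp (⟨c.J, c.J, c.J_J, c.J_J⟩ : S ≃ S) (fun x => c.μ x * F x ^ 2)]
    refine Finset.sum_congr rfl fun x _ => ?_
    show _ = c.μ (c.J x) * F (c.J x) ^ 2
    rw [c.μ_J]
  have hle : c.μ a * (c.mat ^ j) a b ≤ X := by
    refine le_of_sq_le_sq ?_ hX0
    rw [hmul]
    refine hcs.trans ?_
    rw [hJ, sq]
    refine mul_le_mul hF hG ?_ hX0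
    exact Finset.sum_nonneg fun x _ => mul_nonneg (Decay_mu_pos c x).le (sq_nonneg _)
  refine le_trans ?_ hle
  have := c.mat_pow_nonneg j a b
  nlinarith [c.one_le a]

end GE
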