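import Mathlib

/-!
# Project GE (helper74), MP_472c72_co : no critical contra pairs on expanders of girth
# at least `K (1 + log (1 + log n))`.

## Definitions

`G` is a finite simple graph, weights are functions `w : Sym2 V → ℕ` (only the values on the edges
of `G` matter), circuits are edge sets of cycles of `G`.
-/

open scoped Classical

noncomputable section

namespace GE

universe u
variable {V : Type u}

/-- `C` is the edge set of a circuit (cycle) of `G`. -/
def IsCircuit (G : SimpleGraph V) (C : Finset (Sym2 V)) : Prop :=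
  ∃ (v : V) (p : G.Walk v v), p.IsCycle ∧ C = p.edges.toFinset

/-- `G` is cubic: every vertex has exactly three neighbours. -/
def IsCubic (G : SimpleGraph V) : Prop := ∀ v, (G.neighborSet v).ncard = 3

/-- every edge of `G` has weight 1 or 2. -/
def IsWeight12 (G : SimpleGraph V) (w : Sym2 V → ℕ) : Prop :=
  ∀ e ∈ G.edgeSet, w e = 1 ∨ w e = 2

/-- the edges of `G` of odd weight form an even subgraph. -/
def IsEulerian (G : SimpleGraph V) (w : Sym2 V → ℕ) : Prop :=
  ∀ v, Even ({x | G.Adj v x ∧ Odd (w s(v, x))} : Set V).ncard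

/-- the subgraph formed by the edges of positive weight. -/
def supp (G : SimpleGraph V) (w : Sym2 V → ℕ) : SimpleGraph V where
  Adj a b := G.Adj a b ∧ 0 < w s(a, b)
  symm := ⟨fun a b h => ⟨h.1.symm, by rw [Sym2.eq_swap]; exact h.2⟩⟩
  loopless := ⟨fun a h => h.1.ne rfl⟩

/-- no edge of `H` is a bridge of `H`. -/
def Bridgeless (H : SimpleGraph V) : Prop := ∀ e ∈ H.edgeSet, ¬ H.IsBridge e

/-- `w - χ_C`. -/
def subW (w : Sym2 V → ℕ) (C : Finset (Sym2 V)) : Sym2 V → ℕ :=
  fun e => w e - (if e ∈ C then 1 else 0)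

/-- `C` is a removable circuit of `(G, w)`: with `w₁ = w - χ_C`, the subgraph `G₁` of the edges of
positive weight is bridgeless and `w₁` is eulerian on `G₁`. -/
def IsRemovable (G : SimpleGraph V) (w : Sym2 V → ℕ) (C : Finset (Sym2 V)) : Prop :=
  IsCircuit G C ∧ Bridgeless (supp G (subW w C)) ∧ IsEulerian (supp G (subW w C)) (subW w C)

/-- a finite family (repetitions allowed) of circuits covering every edge `e` exactly `w e`
times. -/
def HasFaithfulCover (G : SimpleGraph V) (w : Sym2 V → ℕ) : Prop :=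
  ∃ L : List (Finset (Sym2 V)), (∀ C ∈ L, IsCircuit G C) ∧
    ∀ e ∈ G.edgeSet, L.countP (fun C => e ∈ C) = w e

/-- `(G, w)` is a critical contra pair: no faithful circuit cover and no removable circuit. -/
def IsCriticalContraPair (G : SimpleGraph V) (w : Sym2 V → ℕ) : Prop :=
  ¬ HasFaithfulCover G w ∧ ¬ ∃ C, IsRemovable G w C

/-- the second smallest eigenvalue of the Laplacian of `G` is at least `ε` (for a cubic graph:
the second largest adjacency eigenvalue is at most `3 - ε`); the sum over ordered pairs on the right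
is twice the sum over edges. -/
def SpectralGap [Fintype V] (G : SimpleGraph V) (ε : ℝ) : Prop :=
  ∀ f : V → ℝ, ∑ v, f v = 0 →
    2 * ε * ∑ v, f v ^ 2 ≤ ∑ x, ∑ y, if G.Adj x y then (f x - f y) ^ 2 else 0

/-- every cycle of `G` has length at least `g`. -/
def GirthAtLeast (G : SimpleGraph V) (g : ℕ) : Prop :=
  ∀ (v : V) (p : G.Walk v v), p.IsCycle → g ≤ p.length

/-- a walk is non-backtracking: consecutive edges are different. -/
def NB {G : SimpleGraph V} {a b : V} (p : G.Walk a b) : Prop := p.edges.IsChain (· ≠ ·)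

/-- `C` is a thick compatible circuit with parameter `r` :
it never passes a vertex through two edges of weight one, and two of its vertices which are joined by
a walk of `G` of length at most `r` are joined by a non-backtracking walk along `C` of length at most
`r`. -/
structure ThickCirc (G : SimpleGraph V) (w : Sym2 V → ℕ) (r : ℕ) (C : Finset (Sym2 V)) :
    Prop where
  circ : IsCircuit G C
  sub : ∀ e ∈ C, e ∈ G.edgeSet
  compat : ∀ v e e', e ∈ C → e' ∈ C → e ≠ e' → v ∈ e → v ∈ e' → 3 ≤ w e + w e'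
  two : ∀ v e, e ∈ C → v ∈ e → ∃ e' ∈ C, e' ≠ e ∧ v ∈ e'
  atmost : ∀ v e₁ e₂ e₃, e₁ ∈ C → e₂ ∈ C → e₃ ∈ C → v ∈ e₁ → v ∈ e₂ → v ∈ e₃ →
    e₁ = e₂ ∨ e₁ = e₃ ∨ e₂ = e₃
  thick : ∀ a b, (∃ e ∈ C, a ∈ e) → (∃ e ∈ C, b ∈ e) → (∃ p : G.Walk a b, p.length ≤ r) →
    ∃ p : G.Walk a b, p.length ≤ r ∧ NB p ∧ ∀ e ∈ p.edges, e ∈ C

/-! ### The abstract chain -/

/-- a reversible kernel with an involution on a finite set of states. -/
structure Chain (S : Type u) [Fintype S] where
  μ : S → ℝ
  J : S → S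
  K : S → S → ℝ
  one_le : ∀ a, 1 ≤ μ a
  le_two : ∀ a, μ a ≤ 2
  J_J : ∀ a, J (J a) = a
  μ_J : ∀ a, μ (J a) = μ a
  K_nonneg : ∀ a b, 0 ≤ K a b
  K_symm : ∀ a b, K a b = K b a
  K_sum : ∀ a, ∑ b, K a b = μ a

namespace Chain

variable {S : Type u} [Fintype S] (c : Chain S)

/-- total mass -/
def Z : ℝ := ∑ a, c.μ a

/-- Dirichlet form -/
def E (W : S → ℝ) : ℝ := (1 / 2) * ∑ a, ∑ b, c.K a b * (W a - W b) ^ 2

/-- squared weighted norm -/
def nrm (f : S → ℝ) : ℝ := ∑ a, c.μ a * f a ^ 2

/-- weighted sum -/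
def mass (f : S → ℝ) : ℝ := ∑ a, c.μ a * f a

/-- one step: `Q f a` is the expectation of `f` at the next state. -/
def Q (f : S → ℝ) : S → ℝ := fun a => (1 / c.μ a) * ∑ b, c.K (c.J a) b * f b

/-- Poincare inequality for the `J`-invariant functions. -/
def Poinc (κ : ℝ) : Prop :=
  ∀ W : S → ℝ, (∀ a, W (c.J a) = W a) → c.nrm W - c.mass W ^ 2 / c.Z ≤ κ * c.E W

/-- one step transition matrix: `mat a b` is the probability to go from `a` to `b`. -/
def mat : Matrix S S ℝ := fun a b => (1 / c.μ a) * c.K (c.J a) b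

end Chain

end GE
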