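import Mathlib

/-!
# GE/Dense : a stochastic matrix with entries at most `C/D` has many closed walks (abstract)

Paper proof. Let `D = card S`, write `a ⇒ b` if `A a b ≥ 1/(2D)`. For every `a` the entries
`< 1/(2D)` contribute less than `1/2` to the row sum `1`, the others are at most `C/D`, so
`#{b | a ⇒ b} ≥ β D` with `β = 1/(2C) ∈ (0, 1/2]`.
Choose `m ≥ 1` with `m (1-β)^(m-1) ≤ 1/2`. Consider all `u : Fin m → S`. For fixed `i` the number of
`u` such that `¬ u i ⇒ u j` for all `j ≠ i` is at most `D ((1-β) D)^(m-1)` (for fixed `u i = a` this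
is the product set `{a} × ∏_{j≠i} {b | ¬ a ⇒ b}`, `Fintype.card_piFinset`). So at least `D^m/2`
functions `u` are good: for every `i` there is `j ≠ i` (depending on `i`) with `u i ⇒ u j`. For a
good `u` choose `σ : Fin m → Fin m` with `u i ⇒ u (σ i)`; some `i` is periodic for `σ` (iterates of
any point, pigeonhole); with `k = minimalPeriod σ i ≤ m` the points `σ^t i` (`t < k`) are distinct.
Hence there are `1 ≤ k ≤ m` and an injective `t : Fin k → Fin m` such that
`u (t 0) ⇒ u (t 1) ⇒ ... ⇒ u (t (k-1)) ⇒ u (t 0)`.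
The number of pairs `(k, t)` is at most `m · m^m` . So for some `(k, t)` at least
`D^m/(2 m^(m+1))` functions `u` satisfy this; the number of `u` satisfying it is
`D^(m-k) · #{x : Fin k → S cyclic ⇒-walks}` (injectivity of `t`), thus the number of cyclic walks
`x` is at least `D^k/(2 m^(m+1))`, each contributes at least `(1/(2D))^k` to
`trace (A^k) = Σ_x ∏ A (x i) (x (i+1))` (all terms are nonnegative). So
`trace (A^k) ≥ γ := 1/(2^(m+1) m^(m+1))`.
(One may avoid the exact formula for the number of `u`: it is enough to bound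
`Σ_u ∏_{j<k} A (u (t j)) (u (t (j+1))) = D^(m-k) trace (A^k)`.)
-/

noncomputable section

namespace GE

universe u

theorem Dense_walk {S : Type u} [Fintype S] [DecidableEq S] (A : Matrix S S ℝ) (n : ℕ) :
    ∀ h : S → S → ℝ, ∑ x : Fin (n + 1) → S,
      h (x 0) (x (Fin.last n)) * ∏ i : Fin n, A (x i.castSucc) (x i.succ) =
        ∑ a, ∑ b, h a b * (A ^ n) a b := by
  induction n with
  | zero =>
    intro h
    rw [Fintype.sum_equiv (Equiv.funUnique (Fin 1) S) _ (fun a => h a a)]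
    · refine Finset.sum_congr rfl fun a _ => ?_
      rw [Finset.sum_eq_single a]
      · simp
      · intro b _ hb
        rw [pow_zero, Matrix.one_apply_ne (Ne.symm hb), mul_zero]
      · intro h1
        exact absurd (Finset.mem_univ a) h1
    · intro x
      simp [Fin.last]
  | succ n ih =>
    intro h
    rw [← (Fin.consEquiv (fun _ : Fin (n + 2) => S)).sum_comp, Fintype.sum_prod_type]
    refine Finset.sum_congr rfl fun a _ => ?_
    have h1 := ih (fun c b => h a b * A a c)
    have h2 : ∑ y : Fin (n + 1) → S, h (Fin.consEquiv (fun _ : Fin (n + 2) => S) (a, y) 0)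
        (Fin.consEquiv (fun _ : Fin (n + 2) => S) (a, y) (Fin.last (n + 1))) *
        ∏ i : Fin (n + 1), A (Fin.consEquiv (fun _ : Fin (n + 2) => S) (a, y) i.castSucc)
          (Fin.consEquiv (fun _ : Fin (n + 2) => S) (a, y) i.succ) =
        ∑ y : Fin (n + 1) → S, h a (y (Fin.last n)) * A a (y 0) *
          ∏ i : Fin n, A (y i.castSucc) (y i.succ) := by
      refine Finset.sum_congr rfl fun y _ => ?_
      rw [Fin.prod_univ_succ]
      have e1 : Fin.consEquiv (fun _ : Fin (n + 2) => S) (a, y) 0 = a := rfl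
      have e2 : ∀ j : Fin (n + 1), Fin.consEquiv (fun _ : Fin (n + 2) => S) (a, y) j.succ = y j :=
        fun j => rfl
      have e3 : Fin.last (n + 1) = (Fin.last n).succ := rfl
      have e4 : ∀ j : Fin n, (Fin.succ j).castSucc = (Fin.castSucc j).succ := fun j => rfl
      rw [e3, e2, Fin.castSucc_zero, e1, e2]
      simp only [e4, e2]
      ring
    rw [h2, h1, Finset.sum_comm]
    refine Finset.sum_congr rfl fun b _ => ?_
    rw [pow_succ', Matrix.mul_apply, Finset.mul_sum]
    refine Finset.sum_congr rfl fun c _ => ?_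
    ring

theorem Dense_closedWalk {S : Type u} [Fintype S] [DecidableEq S] (A : Matrix S S ℝ) (n : ℕ) :
    ∑ x : Fin (n + 1) → S,
      A (x (Fin.last n)) (x 0) * ∏ i : Fin n, A (x i.castSucc) (x i.succ) = (A ^ (n + 1)).trace := by
  rw [Dense_walk A n (fun a b => A b a), Matrix.trace]
  rw [Finset.sum_comm]
  refine Finset.sum_congr rfl fun b _ => ?_
  rw [Matrix.diag_apply, pow_succ', Matrix.mul_apply]

theorem Dense_fiber {S : Type u} [Fintype S] {m k : ℕ} (t : Fin k → Fin m)
    (ht : Function.Injective t) (G : (Fin k → S) → ℝ) :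
    ∑ u : Fin m → S, G (u ∘ t) = (Fintype.card S : ℝ) ^ (m - k) * ∑ x, G x := by
  classical
  rw [← (Equiv.piEquivPiSubtypeProd (fun i => i ∈ Set.range t) (fun _ => S)).symm.sum_comp,
    Fintype.sum_prod_type]
  have h1 : ∀ (v : {i // i ∈ Set.range t} → S) (w : {i // i ∉ Set.range t} → S),
      ((Equiv.piEquivPiSubtypeProd (fun i => i ∈ Set.range t) (fun _ => S)).symm (v, w)) ∘ t =
        v ∘ (Equiv.ofInjective t ht) := by
    intro v w
    funext j
    simp [Equiv.piEquivPiSubtypeProd]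
  have h2 : ∀ v : {i // i ∈ Set.range t} → S, ∑ w : {i // i ∉ Set.range t} → S,
      G (((Equiv.piEquivPiSubtypeProd (fun i => i ∈ Set.range t) (fun _ => S)).symm (v, w)) ∘ t) =
      (Fintype.card S : ℝ) ^ (m - k) * G (v ∘ (Equiv.ofInjective t ht)) := by
    intro v
    rw [Finset.sum_congr rfl fun w _ => by rw [h1 v w], Finset.sum_const, nsmul_eq_mul,
      Finset.card_univ, Fintype.card_fun]
    have h3 : Fintype.card {i // i ∉ Set.range t} = m - k := by
      rw [Fintype.card_subtype_compl, Fintype.card_fin]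
      congr 1
      rw [← Fintype.card_congr (Equiv.ofInjective t ht), Fintype.card_fin]
    rw [h3]
    push_cast
    rfl
  rw [Finset.sum_congr rfl fun v _ => h2 v, ← Finset.mul_sum]
  congr 1
  exact Fintype.sum_equiv ((Equiv.ofInjective t ht).symm.arrowCongr (Equiv.refl S)) _ _
    (fun v => rfl)

theorem Dense_periodic {m : ℕ} (hm : 0 < m) (σ : Fin m → Fin m) :
    ∃ (n : ℕ) (t : Fin (n + 1) → Fin m), n + 1 ≤ m ∧ Function.Injective t ∧
      (∀ j : Fin n, σ (t j.castSucc) = t j.succ) ∧ σ (t (Fin.last n)) = t 0 := by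
  obtain ⟨y, hy⟩ : ∃ y, y ∈ Function.periodicPts σ := by
    obtain ⟨p, q, hpq, he⟩ := Finite.exists_ne_map_eq_of_infinite
      (fun n : ℕ => σ^[n] ⟨0, hm⟩)
    have key : ∀ p q : ℕ, p < q → σ^[p] ⟨0, hm⟩ = σ^[q] ⟨0, hm⟩ → ∃ y, y ∈ Function.periodicPts σ := by
      intro p q h he
      refine ⟨σ^[p] ⟨0, hm⟩, q - p, by omega, ?_⟩
      rw [Function.IsPeriodicPt, Function.IsFixedPt, ← Function.iterate_add_apply,
        Nat.sub_add_cancel h.le]
      exact he.symm
    rcases lt_or_gt_of_ne hpq with h | h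
    · exact key p q h he
    · exact key q p h he.symm
  have h0 : 0 < Function.minimalPeriod σ y := Function.minimalPeriod_pos_of_mem_periodicPts hy
  obtain ⟨n, hn⟩ : ∃ n, Function.minimalPeriod σ y = n + 1 := ⟨_, (Nat.succ_pred_eq_of_pos h0).symm⟩
  have hinj : Function.Injective (fun j : Fin (n + 1) => σ^[(j : ℕ)] y) := by
    intro a b hab
    have h1 := Function.iterate_injOn_Iio_minimalPeriod (f := σ) (x := y)
      (show (a : ℕ) ∈ Set.Iio (Function.minimalPeriod σ y) by rw [hn]; exact a.2)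
      (show (b : ℕ) ∈ Set.Iio (Function.minimalPeriod σ y) by rw [hn]; exact b.2) hab
    exact Fin.ext h1
  refine ⟨n, fun j => σ^[(j : ℕ)] y, ?_, hinj, ?_, ?_⟩
  · have := Fintype.card_le_of_injective _ hinj
    rwa [Fintype.card_fin, Fintype.card_fin] at this
  · intro j
    show σ (σ^[(j : ℕ)] y) = σ^[(j : ℕ) + 1] y
    rw [Function.iterate_succ_apply']
  · show σ (σ^[n] y) = y
    rw [← Function.iterate_succ_apply' σ n y, show n.succ = Function.minimalPeriod σ y from hn.symm]
    exact Function.iterate_minimalPeriod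

theorem Dense_sigma {S : Type u} [Fintype S] [DecidableEq S] [Nonempty S] (A : Matrix S S ℝ) {C : ℝ}
    (hC : 1 ≤ C) (h0 : ∀ a b, 0 ≤ A a b) (hA : ∀ a b, A a b ≤ C / (Fintype.card S : ℝ)) {m : ℕ}
    (hm : 0 < m) (σ : Fin m → Fin m) :
    ∃ k, 1 ≤ k ∧ k ≤ m ∧ ∑ u : Fin m → S, ∏ i, A (u i) (u (σ i)) ≤ C ^ m * (A ^ k).trace := by
  classical
  obtain ⟨n, t, hn, ht, h1, h2⟩ := Dense_periodic hm σ
  refine ⟨n + 1, by omega, hn, ?_⟩
  have hD : (0 : ℝ) < Fintype.card S := by exact_mod_cast Fintype.card_pos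
  set D : ℝ := (Fintype.card S : ℝ) with hDd
  have h3 : ∀ u : Fin m → S, ∏ i, A (u i) (u (σ i)) ≤
      (C / D) ^ (m - (n + 1)) * (A ((u ∘ t) (Fin.last n)) ((u ∘ t) 0) *
        ∏ i : Fin n, A ((u ∘ t) i.castSucc) ((u ∘ t) i.succ)) := by
    intro u
    rw [← Finset.prod_mul_prod_compl (Finset.univ.map ⟨t, ht⟩), mul_comm]
    refine mul_le_mul ?_ (le_of_eq ?_) (Finset.prod_nonneg fun i _ => h0 _ _) (by positivity)
    · refine (Finset.prod_le_prod (fun i _ => h0 _ _) fun i _ => hA _ _).trans (le_of_eq ?_)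
      rw [Finset.prod_const, Finset.card_compl, Finset.card_map, Finset.card_univ, Fintype.card_fin,
        Fintype.card_fin]
    · rw [Finset.prod_map, Fin.prod_univ_castSucc, mul_comm]
      simp only [Function.Embedding.coeFn_mk, Function.comp_apply, h1, h2]
  refine (Finset.sum_le_sum fun u _ => h3 u).trans ?_
  rw [← Finset.mul_sum, Dense_fiber t ht (fun x => A (x (Fin.last n)) (x 0) *
        ∏ i : Fin n, A (x i.castSucc) (x i.succ)), Dense_closedWalk, ← mul_assoc, ← hDd, ← mul_pow,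
        div_mul_cancel₀ _ hD.ne']
  refine mul_le_mul_of_nonneg_right (pow_le_pow_right₀ hC (Nat.sub_le _ _)) ?_
  have h4 : ∀ (k : ℕ) a b, 0 ≤ (A ^ k) a b := by
    intro k
    induction k with
    | zero =>
      intro a b
      rw [pow_zero, Matrix.one_apply]
      split_ifs <;> norm_num
    | succ k ih =>
      intro a b
      rw [pow_succ, Matrix.mul_apply]
      exact Finset.sum_nonneg fun c _ => mul_nonneg (ih a c) (h0 c b)
  exact Finset.sum_nonneg fun a _ => h4 _ a a

theorem Dense_bad {S : Type u} [Fintype S] (R : S → S → Prop) (n : ℕ) (i : Fin (n + 1))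
    {q : ℝ} (_hq : 0 ≤ q) (hR : ∀ a, (((Set.toFinite {b | ¬ R a b}).toFinset.card : ℕ) : ℝ) ≤ q) :
    (((Set.toFinite {u : Fin (n + 1) → S | ∀ j, j ≠ i → ¬ R (u i) (u j)}).toFinset.card : ℕ) : ℝ) ≤
      (Fintype.card S : ℝ) * q ^ n := by
  classical
  have h1 : (((Set.toFinite {u : Fin (n + 1) → S | ∀ j, j ≠ i → ¬ R (u i) (u j)}).toFinset.card : ℕ)
      : ℝ) = ∑ u : Fin (n + 1) → S, if ∀ j, j ≠ i → ¬ R (u i) (u j) then (1 : ℝ) else 0 := by
    rw [Finset.sum_boole]
    congr 2
    ext u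
    simp
  rw [h1, ← (Fin.insertNthEquiv (fun _ : Fin (n + 1) => S) i).sum_comp, Fintype.sum_prod_type]
  have h2 : ∀ a : S, ∑ v : Fin n → S, (if ∀ j, j ≠ i →
      ¬ R (Fin.insertNthEquiv (fun _ : Fin (n + 1) => S) i (a, v) i)
        (Fin.insertNthEquiv (fun _ : Fin (n + 1) => S) i (a, v) j) then (1 : ℝ) else 0) ≤ q ^ n := by
    intro a
    have h3 : ∀ v : Fin n → S, (if ∀ j, j ≠ i →
      ¬ R (Fin.insertNthEquiv (fun _ : Fin (n + 1) => S) i (a, v) i)
        (Fin.insertNthEquiv (fun _ : Fin (n + 1) => S) i (a, v) j) then (1 : ℝ) else 0) =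
        ∏ j : Fin n, if ¬ R a (v j) then (1 : ℝ) else 0 := by
      intro v
      rw [Finset.prod_ite_zero]
      simp only [Finset.prod_const_one, Finset.mem_univ, forall_true_left]
      refine if_congr ?_ rfl rfl
      simp only [Fin.insertNthEquiv_apply, Fin.insertNth_apply_same]
      constructor
      · intro h j
        have := h (i.succAbove j) (Fin.succAbove_ne i j)
        rwa [Fin.insertNth_apply_succAbove] at this
      · intro h j hj
        obtain ⟨j', rfl⟩ := Fin.exists_succAbove_eq hj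
        rw [Fin.insertNth_apply_succAbove]
        exact h j'
    rw [Finset.sum_congr rfl fun v _ => h3 v, ← Fintype.sum_pow (fun b => if ¬ R a b then (1 : ℝ) else 0) n]
    refine pow_le_pow_left₀ (Finset.sum_nonneg fun b _ => by split_ifs <;> norm_num) ?_ n
    refine le_trans (le_of_eq ?_) (hR a)
    rw [Finset.sum_boole]
    congr 2
    ext b
    simp
  refine (Finset.sum_le_sum fun a _ => h2 a).trans (le_of_eq ?_)
  rw [Finset.sum_const, nsmul_eq_mul, Finset.card_univ]

theorem dense_closed (C : ℝ) (hC : 1 ≤ C) :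
    ∃ (m : ℕ) (γ : ℝ), 0 < γ ∧ 1 ≤ m ∧
      ∀ (S : Type u) [Fintype S] [DecidableEq S] [Nonempty S] (A : Matrix S S ℝ),
        (∀ a b, 0 ≤ A a b) → (∀ a, ∑ b, A a b = 1) → (∀ a b, A a b ≤ C / (Fintype.card S : ℝ)) →
        ∃ k, 1 ≤ k ∧ k ≤ m ∧ γ ≤ (A ^ k).trace := by
  classical
  set β : ℝ := 1 - 1 / (2 * C) with hβ
  have hβ0 : 0 < β := by
    rw [hβ, sub_pos, div_lt_one (by linarith)]
    linarith
  have hβ1 : β < 1 := by
    rw [hβ]
    have : 0 < 1 / (2 * C) := by positivity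
    linarith
  obtain ⟨n, hn⟩ : ∃ n : ℕ, ((n + 1 : ℕ) : ℝ) * β ^ n ≤ 1 / 2 := by
    have h1 := tendsto_self_mul_const_pow_of_lt_one hβ0.le hβ1
    have h2 := tendsto_pow_atTop_nhds_zero_of_lt_one hβ0.le hβ1
    have h3 := h1.add h2
    rw [add_zero] at h3
    obtain ⟨n, hn⟩ := (h3.eventually_le_const (show (0 : ℝ) < 1 / 2 by norm_num)).exists
    refine ⟨n, ?_⟩
    push_cast
    linarith
  refine ⟨n + 1, (1 / 2) ^ (n + 2) / (((n + 1 : ℕ) : ℝ) ^ (n + 1) * C ^ (n + 1)), by positivity, by omega, ?_⟩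
  intro S _ _ _ A h0 hs hA
  have hD : (0 : ℝ) < Fintype.card S := by exact_mod_cast Fintype.card_pos
  set D : ℝ := (Fintype.card S : ℝ) with hDd
  -- the relation
  obtain ⟨R, hR⟩ : ∃ R : S → S → Prop, R = fun a b => 1 / (2 * D) ≤ A a b := ⟨_, rfl⟩
  have hRi : ∀ a b, R a b ↔ 1 / (2 * D) ≤ A a b := fun a b => by rw [hR]
  clear hR
  have hcard : ∀ a, (((Set.toFinite {b | ¬ R a b}).toFinset.card : ℕ) : ℝ) ≤ β * D := by
    intro a
    have h1 : (1 : ℝ) ≤ ∑ b, if R a b then C / D else 1 / (2 * D) := by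
      refine (hs a).symm.le.trans (Finset.sum_le_sum fun b _ => ?_)
      split_ifs with h
      · exact hA a b
      · exact (not_le.1 (fun h' => h ((hRi a b).2 h'))).le
    have h2 : ∑ b, (if R a b then C / D else 1 / (2 * D)) =
        ((Finset.univ.filter (fun b => R a b)).card : ℝ) * (C / D) +
          ((Finset.univ.filter (fun b => ¬ R a b)).card : ℝ) * (1 / (2 * D)) := by
      rw [Finset.sum_ite, Finset.sum_const, Finset.sum_const, nsmul_eq_mul, nsmul_eq_mul]
    have h3 : ((Finset.univ.filter (fun b => R a b)).card : ℝ) +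
        ((Finset.univ.filter (fun b => ¬ R a b)).card : ℝ) = D := by
      rw [hDd, ← Finset.card_univ, ← Finset.card_filter_add_card_filter_not (s := Finset.univ) (fun b => R a b)]
      push_cast
      rfl
    have h4 : (Set.toFinite {b | ¬ R a b}).toFinset = Finset.univ.filter (fun b => ¬ R a b) := by
      ext b
      simp
    rw [h4]
    set x : ℝ := ((Finset.univ.filter (fun b => ¬ R a b)).card : ℝ) with hx
    set y : ℝ := ((Finset.univ.filter (fun b => R a b)).card : ℝ) with hy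
    have hx0 : 0 ≤ x := Nat.cast_nonneg _
    have hy0 : 0 ≤ y := Nat.cast_nonneg _
    rw [h2] at h1
    have h5 : D ≤ y * C + x / 2 := by
      have h6 := mul_le_mul_of_nonneg_right h1 hD.le
      have h7 : (y * (C / D) + x * (1 / (2 * D))) * D = y * C + x / 2 := by
        field_simp
      rw [h7] at h6
      linarith
    have h8 : D / (2 * C) ≤ y := by
      rw [div_le_iff₀ (by linarith)]
      nlinarith
    have h9 : β * D = D - D / (2 * C) := by
      rw [hβ]
      ring
    linarith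
  have hbad := fun i : Fin (n + 1) => Dense_bad R n i (mul_nonneg hβ0.le hD.le) hcard
  set B : Fin (n + 1) → Finset (Fin (n + 1) → S) := fun i =>
    (Set.toFinite {u : Fin (n + 1) → S | ∀ j, j ≠ i → ¬ R (u i) (u j)}).toFinset with hB
  have hU : (((Finset.univ.biUnion B).card : ℕ) : ℝ) ≤ D ^ (n + 1) / 2 := by
    have h1 : (((Finset.univ.biUnion B).card : ℕ) : ℝ) ≤ ∑ i : Fin (n + 1), ((B i).card : ℝ) := by
      exact_mod_cast Finset.card_biUnion_le
    refine h1.trans ((Finset.sum_le_sum fun i _ => hbad i).trans ?_)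
    rw [Finset.sum_const, Finset.card_univ, Fintype.card_fin, nsmul_eq_mul, mul_pow]
    have h2 := mul_le_mul_of_nonneg_right hn (pow_nonneg hD.le (n + 1))
    calc ((n + 1 : ℕ) : ℝ) * (D * (β ^ n * D ^ n)) = ((n + 1 : ℕ) : ℝ) * β ^ n * D ^ (n + 1) := by ring
      _ ≤ 1 / 2 * D ^ (n + 1) := h2
      _ = D ^ (n + 1) / 2 := by ring
  have hgood : D ^ (n + 1) / 2 ≤ (((Finset.univ.biUnion B)ᶜ.card : ℕ) : ℝ) := by
    have h1 : (Fintype.card (Fin (n + 1) → S) : ℝ) = D ^ (n + 1) := by
      rw [Fintype.card_fun, Fintype.card_fin]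
      push_cast
      rfl
    have h2 := Finset.card_add_card_compl (Finset.univ.biUnion B)
    have h3 : (((Finset.univ.biUnion B).card : ℕ) : ℝ) + (((Finset.univ.biUnion B)ᶜ.card : ℕ) : ℝ) =
        D ^ (n + 1) := by
      rw [← h1, ← h2]
      push_cast
      rfl
    linarith
  have hlow : (1 / 2 : ℝ) ^ (n + 2) ≤ ∑ u : Fin (n + 1) → S, ∏ i, ∑ j, A (u i) (u j) := by
    have h1 : ∑ u ∈ (Finset.univ.biUnion B)ᶜ, ∏ i, ∑ j, A (u i) (u j) ≤
        ∑ u : Fin (n + 1) → S, ∏ i, ∑ j, A (u i) (u j) :=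
      Finset.sum_le_sum_of_subset_of_nonneg (Finset.subset_univ _)
        fun u _ _ => Finset.prod_nonneg fun i _ => Finset.sum_nonneg fun j _ => h0 _ _
    refine le_trans ?_ h1
    have h2 : ∀ u ∈ (Finset.univ.biUnion B)ᶜ, (1 / (2 * D)) ^ (n + 1) ≤ ∏ i, ∑ j, A (u i) (u j) := by
      intro u hu
      have h3 : ∀ i, 1 / (2 * D) ≤ ∑ j, A (u i) (u j) := by
        intro i
        have h4 : u ∉ B i := by
          intro h5
          rw [Finset.mem_compl, Finset.mem_biUnion] at hu
          exact hu ⟨i, Finset.mem_univ i, h5⟩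
        rw [hB, Set.Finite.mem_toFinset, Set.mem_ofPred_eq] at h4
        push Not at h4
        obtain ⟨j, _, hj⟩ := h4
        exact le_trans ((hRi _ _).1 hj) (Finset.single_le_sum (f := fun j => A (u i) (u j)) (fun j _ => h0 _ _) (Finset.mem_univ j))
      calc (1 / (2 * D)) ^ (n + 1) = ∏ _i : Fin (n + 1), 1 / (2 * D) := by
            rw [Finset.prod_const, Finset.card_univ, Fintype.card_fin]
        _ ≤ _ := Finset.prod_le_prod (fun i _ => by positivity) fun i _ => h3 i
    have h6 := Finset.card_nsmul_le_sum _ _ _ h2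
    rw [nsmul_eq_mul] at h6
    refine le_trans ?_ h6
    calc (1 / 2 : ℝ) ^ (n + 2) = D ^ (n + 1) / 2 * (1 / (2 * D)) ^ (n + 1) := by
          rw [show (1 / (2 * D) : ℝ) = (1 / 2) * D⁻¹ by field_simp, mul_pow, inv_pow]
          field_simp
          ring
      _ ≤ _ := mul_le_mul_of_nonneg_right hgood (by positivity)
  have hexp : ∑ u : Fin (n + 1) → S, ∏ i, ∑ j, A (u i) (u j) =
      ∑ σ : Fin (n + 1) → Fin (n + 1), ∑ u : Fin (n + 1) → S, ∏ i, A (u i) (u (σ i)) := by
    rw [Finset.sum_comm]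
    refine Finset.sum_congr rfl fun u _ => ?_
    rw [Finset.prod_univ_sum, Fintype.piFinset_univ]
  by_contra hcon
  push Not at hcon
  have hup : ∑ σ : Fin (n + 1) → Fin (n + 1), ∑ u : Fin (n + 1) → S, ∏ i, A (u i) (u (σ i)) <
      (1 / 2 : ℝ) ^ (n + 2) := by
    have h1 : ∀ σ : Fin (n + 1) → Fin (n + 1), ∑ u : Fin (n + 1) → S, ∏ i, A (u i) (u (σ i)) <
        (1 / 2) ^ (n + 2) / ((n + 1 : ℕ) : ℝ) ^ (n + 1) := by
      intro σ
      obtain ⟨k, hk1, hk2, hk⟩ := Dense_sigma A hC h0 hA (Nat.succ_pos n) σ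
      have h2 := hcon k hk1 hk2
      refine lt_of_le_of_lt hk ?_
      have h3 : (0 : ℝ) < C ^ (n + 1) := by positivity
      calc C ^ (n + 1) * (A ^ k).trace < C ^ (n + 1) * ((1 / 2) ^ (n + 2) /
            (((n + 1 : ℕ) : ℝ) ^ (n + 1) * C ^ (n + 1))) := mul_lt_mul_of_pos_left h2 h3
        _ = (1 / 2) ^ (n + 2) / ((n + 1 : ℕ) : ℝ) ^ (n + 1) := by
            field_simp
    refine lt_of_lt_of_le (Finset.sum_lt_sum_of_nonempty Finset.univ_nonempty fun σ _ => h1 σ) (le_of_eq ?_)
    rw [Finset.sum_const, Finset.card_univ, Fintype.card_fun, Fintype.card_fin, nsmul_eq_mul]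
    push_cast
    field_simp
  rw [← hexp] at hup
  linarith

end GE
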