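import Pool.Agent.H74.GE.Defs

/-!
# GE/Diss : the L2 dissipation lemma (abstract)

Notation for the paper proof: `⟨f, g⟩ = Σ μ f g`, `P f = f ∘ J`, `T f a = (1/μ a) Σ_b K a b f b`.
`T` is self-adjoint (K symmetric), `‖T f‖ ≤ ‖f‖` (Cauchy-Schwarz in each row and `Σ_b K a b = μ a`),
`P` is an isometric involution (`μ ∘ J = μ`), and `Q f = P (T f)` (because `μ (J a) = μ a`).
`⟨W - T W, W⟩ = E W`.

**dissip.** Put `f_i = Q^[i] f ≥ 0`, `N_i = nrm f_i`, `D_i = N_i - N_{i+1} ≥ 0`, `s = mass f`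
(mass is preserved by `Q`). Note `N_{i+1} = ‖T f_i‖²` and `P f_{i+1} = T f_i`. With
`r_i = f_i - T (T f_i)`:
`‖r_i‖² = N_i - 2‖T f_i‖² + ‖T T f_i‖² ≤ N_i - ‖T f_i‖² = D_i`.
Let `U = Σ_{i<k} f_i`, `W = U + P U` (a `J`-invariant function, `mass W = 2 k s`). Then
`T U = P U - P f_0 + P f_k`, `T P U = T P f_0 + U - f_{k-1} - Σ_{i<k-1} r_i`, so
`T W - W = - P f_0 + P f_k + T P f_0 - f_{k-1} - Σ_{i<k-1} r_i` and
`‖W - T W‖ ≤ 4 √N_0 + Σ_{i<k-1} √D_i ≤ 4 √N_0 + √((k-1)(N_0 - N_{k-1}))`.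
Assume `N_k > (1 - 1/k) N_0`. Then `(k-1)(N_0 - N_{k-1}) ≤ (k-1) N_0 / k ≤ N_0`, so
`‖W - T W‖ ≤ 5 √N_0`. All `f_i`, `P f_i` are nonnegative functions, so
`‖W‖² ≥ Σ_{i<k} (‖f_i‖² + ‖P f_i‖²) = 2 Σ_{i<k} N_i ≥ 2 k N_k ≥ 2 (k-1) N_0`.
Poincare: `‖W‖² - (2 k s)²/Z ≤ κ E W = κ ⟨W - T W, W⟩ ≤ κ · 5 √N_0 · ‖W‖ ≤ (5 κ/√(2(k-1))) ‖W‖²
≤ ‖W‖²/2` because `50 κ² ≤ k - 1`. Hence `‖W‖² ≤ 8 k² s²/Z` and
`N_0 ≤ 8 k² s²/(2 (k-1) Z) ≤ 8 k s²/Z` (as `k ≥ 2`).
-/

open scoped Classical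

noncomputable section

namespace GE

universe u
variable {S : Type u} [Fintype S]

theorem Diss_mu_pos (c : Chain S) (a : S) : 0 < c.μ a := lt_of_lt_of_le one_pos (c.one_le a)

/-- inner product -/
def Diss_ip (c : Chain S) (f g : S → ℝ) : ℝ := ∑ a, c.μ a * (f a * g a)

/-- averaging operator -/
def Diss_T (c : Chain S) : (S → ℝ) →ₗ[ℝ] (S → ℝ) where
  toFun f := fun a => (1 / c.μ a) * ∑ b, c.K a b * f b
  map_add' f g := by
    funext a
    simp only [Pi.add_apply, mul_add, Finset.sum_add_distrib]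
  map_smul' r f := by
    funext a
    simp only [Pi.smul_apply, smul_eq_mul, RingHom.id_apply]
    have : ∑ b, c.K a b * (r * f b) = r * ∑ b, c.K a b * f b := by
      rw [Finset.mul_sum]
      exact Finset.sum_congr rfl fun b _ => by ring
    rw [this]; ring

/-- reversal operator -/
def Diss_P (c : Chain S) : (S → ℝ) →ₗ[ℝ] (S → ℝ) where
  toFun f := fun a => f (c.J a)
  map_add' _ _ := rfl
  map_smul' _ _ := rfl

theorem Diss_T_apply (c : Chain S) (f : S → ℝ) (a : S) :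
    Diss_T c f a = (1 / c.μ a) * ∑ b, c.K a b * f b := rfl

theorem Diss_P_apply (c : Chain S) (f : S → ℝ) (a : S) : Diss_P c f a = f (c.J a) := rfl

theorem Diss_mu_T (c : Chain S) (f : S → ℝ) (a : S) :
    c.μ a * Diss_T c f a = ∑ b, c.K a b * f b := by
  rw [Diss_T_apply, ← mul_assoc, mul_one_div_cancel (Diss_mu_pos c a).ne', one_mul]

theorem Diss_Q_eq (c : Chain S) (f : S → ℝ) : c.Q f = Diss_P c (Diss_T c f) := by
  funext a
  rw [Diss_P_apply, Diss_T_apply, c.μ_J]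
  rfl

theorem Diss_PP (c : Chain S) (f : S → ℝ) : Diss_P c (Diss_P c f) = f := by
  funext a
  rw [Diss_P_apply, Diss_P_apply, c.J_J]

theorem Diss_nrm (c : Chain S) (f : S → ℝ) : c.nrm f = Diss_ip c f f := by
  unfold Chain.nrm Diss_ip
  exact Finset.sum_congr rfl fun a _ => by ring

theorem Diss_ip_comm (c : Chain S) (f g : S → ℝ) : Diss_ip c f g = Diss_ip c g f := by
  unfold Diss_ip
  exact Finset.sum_congr rfl fun a _ => by ring

theorem Diss_ip_add (c : Chain S) (f g h : S → ℝ) :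
    Diss_ip c (f + g) h = Diss_ip c f h + Diss_ip c g h := by
  unfold Diss_ip
  rw [← Finset.sum_add_distrib]
  exact Finset.sum_congr rfl fun a _ => by rw [Pi.add_apply]; ring

theorem Diss_ip_sub (c : Chain S) (f g h : S → ℝ) :
    Diss_ip c (f - g) h = Diss_ip c f h - Diss_ip c g h := by
  unfold Diss_ip
  rw [← Finset.sum_sub_distrib]
  exact Finset.sum_congr rfl fun a _ => by rw [Pi.sub_apply]; ring

theorem Diss_ip_sum (c : Chain S) {m : ℕ} (F : ℕ → S → ℝ) (h : S → ℝ) :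
    Diss_ip c (∑ i ∈ Finset.range m, F i) h = ∑ i ∈ Finset.range m, Diss_ip c (F i) h := by
  induction m with
  | zero => simp [Diss_ip]
  | succ n ih => rw [Finset.sum_range_succ, Finset.sum_range_succ, Diss_ip_add, ih]

theorem Diss_nrm_nonneg (c : Chain S) (f : S → ℝ) : 0 ≤ c.nrm f :=
  Finset.sum_nonneg fun a _ => mul_nonneg (Diss_mu_pos c a).le (sq_nonneg _)

theorem Diss_ip_le (c : Chain S) (f g : S → ℝ) :
    Diss_ip c f g ≤ √(c.nrm f) * √(c.nrm g) := by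
  have h := Real.sum_mul_le_sqrt_mul_sqrt Finset.univ (fun a => √(c.μ a) * f a)
    (fun a => √(c.μ a) * g a)
  have hs : ∀ a, √(c.μ a) * √(c.μ a) = c.μ a := fun a => Real.mul_self_sqrt (Diss_mu_pos c a).le
  have e1 : ∑ a, √(c.μ a) * f a * (√(c.μ a) * g a) = Diss_ip c f g := by
    unfold Diss_ip
    refine Finset.sum_congr rfl fun a _ => ?_
    calc √(c.μ a) * f a * (√(c.μ a) * g a) = (√(c.μ a) * √(c.μ a)) * (f a * g a) := by ring
      _ = _ := by rw [hs]
  have e2 : ∀ f : S → ℝ, ∑ a, (√(c.μ a) * f a) ^ 2 = c.nrm f := by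
    intro f
    unfold Chain.nrm
    refine Finset.sum_congr rfl fun a _ => ?_
    calc (√(c.μ a) * f a) ^ 2 = (√(c.μ a) * √(c.μ a)) * f a ^ 2 := by ring
      _ = _ := by rw [hs]
  rw [e1, e2, e2] at h
  exact h

theorem Diss_nrm_P (c : Chain S) (f : S → ℝ) : c.nrm (Diss_P c f) = c.nrm f := by
  unfold Chain.nrm
  have hJ : Function.Involutive c.J := c.J_J
  calc ∑ a, c.μ a * (Diss_P c f a) ^ 2 = ∑ a, c.μ (hJ.toPerm _ a) * f (hJ.toPerm _ a) ^ 2 := by
        refine Finset.sum_congr rfl fun a _ => ?_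
        rw [Diss_P_apply, Function.Involutive.coe_toPerm, c.μ_J]
    _ = ∑ a, c.μ a * f a ^ 2 := Equiv.sum_comp (hJ.toPerm _) fun a => c.μ a * f a ^ 2

theorem Diss_ip_T (c : Chain S) (f g : S → ℝ) :
    Diss_ip c (Diss_T c f) g = ∑ a, ∑ b, c.K a b * (f b * g a) := by
  unfold Diss_ip
  refine Finset.sum_congr rfl fun a _ => ?_
  rw [← mul_assoc, Diss_mu_T, Finset.sum_mul]
  exact Finset.sum_congr rfl fun b _ => by ring

theorem Diss_T_symm (c : Chain S) (f g : S → ℝ) :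
    Diss_ip c (Diss_T c f) g = Diss_ip c f (Diss_T c g) := by
  rw [Diss_ip_comm c f, Diss_ip_T, Diss_ip_T, Finset.sum_comm]
  refine Finset.sum_congr rfl fun a _ => Finset.sum_congr rfl fun b _ => ?_
  rw [c.K_symm b a]; ring

theorem Diss_nrm_T (c : Chain S) (f : S → ℝ) : c.nrm (Diss_T c f) ≤ c.nrm f := by
  have h1 : ∀ a, c.μ a * (Diss_T c f a) ^ 2 ≤ ∑ b, c.K a b * f b ^ 2 := by
    intro a
    have hμ := Diss_mu_pos c a
    have hcs : (∑ b, c.K a b * f b) ^ 2 ≤ (∑ b, c.K a b) * ∑ b, c.K a b * f b ^ 2 := by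
      have h := Finset.sum_mul_sq_le_sq_mul_sq Finset.univ (fun b => √(c.K a b))
        (fun b => √(c.K a b) * f b)
      have hs : ∀ b, √(c.K a b) * √(c.K a b) = c.K a b := fun b =>
        Real.mul_self_sqrt (c.K_nonneg a b)
      have e1 : ∑ b, √(c.K a b) * (√(c.K a b) * f b) = ∑ b, c.K a b * f b :=
        Finset.sum_congr rfl fun b _ => by rw [← mul_assoc, hs]
      have e2 : ∑ b, √(c.K a b) ^ 2 = ∑ b, c.K a b :=
        Finset.sum_congr rfl fun b _ => by rw [pow_two, hs]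
      have e3 : ∑ b, (√(c.K a b) * f b) ^ 2 = ∑ b, c.K a b * f b ^ 2 :=
        Finset.sum_congr rfl fun b _ => by rw [mul_pow, pow_two, hs]
      rw [e1, e2, e3] at h
      exact h
    rw [c.K_sum, ← Diss_mu_T] at hcs
    have h2 : c.μ a * (c.μ a * (Diss_T c f a) ^ 2) ≤ c.μ a * ∑ b, c.K a b * f b ^ 2 := by
      calc c.μ a * (c.μ a * (Diss_T c f a) ^ 2) = (c.μ a * Diss_T c f a) ^ 2 := by ring
        _ ≤ _ := hcs
    exact le_of_mul_le_mul_left h2 hμ
  calc c.nrm (Diss_T c f) ≤ ∑ a, ∑ b, c.K a b * f b ^ 2 := Finset.sum_le_sum fun a _ => h1 a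
    _ = ∑ b, ∑ a, c.K a b * f b ^ 2 := Finset.sum_comm
    _ = c.nrm f := by
        unfold Chain.nrm
        refine Finset.sum_congr rfl fun b _ => ?_
        rw [← Finset.sum_mul]
        congr 1
        rw [← c.K_sum b]
        exact Finset.sum_congr rfl fun a _ => c.K_symm a b

theorem Diss_E_eq (c : Chain S) (W : S → ℝ) :
    c.E W = Diss_ip c (W - Diss_T c W) W := by
  rw [Diss_ip_sub, Diss_ip_T, ← Diss_nrm]
  have e1 : ∑ a, ∑ b, c.K a b * W a ^ 2 = c.nrm W := by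
    unfold Chain.nrm
    refine Finset.sum_congr rfl fun a _ => ?_
    rw [← Finset.sum_mul, c.K_sum]
  have e2 : ∑ a, ∑ b, c.K a b * W b ^ 2 = c.nrm W := by
    rw [Finset.sum_comm, ← e1]
    refine Finset.sum_congr rfl fun a _ => Finset.sum_congr rfl fun b _ => ?_
    rw [c.K_symm]
  have e3 : ∑ a, ∑ b, c.K a b * (W a - W b) ^ 2 =
      ∑ a, ∑ b, c.K a b * W a ^ 2 + ∑ a, ∑ b, c.K a b * W b ^ 2
        - 2 * ∑ a, ∑ b, c.K a b * (W b * W a) := by
    rw [Finset.mul_sum, ← Finset.sum_add_distrib, ← Finset.sum_sub_distrib]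
    refine Finset.sum_congr rfl fun a _ => ?_
    rw [Finset.mul_sum, ← Finset.sum_add_distrib, ← Finset.sum_sub_distrib]
    exact Finset.sum_congr rfl fun b _ => by ring
  unfold Chain.E
  rw [e3, e1, e2]; ring

theorem Diss_res (c : Chain S) (f : S → ℝ) :
    c.nrm (f - Diss_T c (Diss_T c f)) ≤ c.nrm f - c.nrm (Diss_T c f) := by
  have h1 : c.nrm (f - Diss_T c (Diss_T c f)) =
      c.nrm f - 2 * c.nrm (Diss_T c f) + c.nrm (Diss_T c (Diss_T c f)) := by
    have h2 : Diss_ip c f (Diss_T c (Diss_T c f)) = c.nrm (Diss_T c f) := by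
      rw [← Diss_T_symm, ← Diss_nrm]
    rw [Diss_nrm c (f - _), Diss_ip_sub, Diss_ip_comm c f (f - _),
      Diss_ip_comm c (Diss_T c (Diss_T c f)) (f - _), Diss_ip_sub, Diss_ip_sub,
      Diss_ip_comm c (Diss_T c (Diss_T c f)) f, h2, ← Diss_nrm, ← Diss_nrm]
    ring
  have h2 := Diss_nrm_T c (Diss_T c f)
  linarith

theorem Diss_iter (c : Chain S) (f : S → ℝ) (i : ℕ) :
    Diss_T c (c.Q^[i] f) = Diss_P c (c.Q^[i + 1] f) := by
  rw [Function.iterate_succ_apply', Diss_Q_eq c (c.Q^[i] f), Diss_PP]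

theorem Diss_iden (c : Chain S) (f : S → ℝ) (m : ℕ) (U : S → ℝ)
    (hU : U = ∑ i ∈ Finset.range (m + 1), c.Q^[i] f) :
    (U + Diss_P c U) - Diss_T c (U + Diss_P c U) =
      Diss_P c f - Diss_P c (c.Q^[m + 1] f) - Diss_T c (Diss_P c f) + c.Q^[m] f +
        ∑ i ∈ Finset.range m, (c.Q^[i] f - Diss_T c (Diss_T c (c.Q^[i] f))) := by
  have h1 : Diss_T c U = Diss_P c (U + c.Q^[m + 1] f - f) := by
    have h2 : ∑ i ∈ Finset.range (m + 1), c.Q^[i + 1] f = U + c.Q^[m + 1] f - f := by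
      have h3 := Finset.sum_range_succ (fun i => c.Q^[i] f) (m + 1)
      have h4 := Finset.sum_range_succ' (fun i => c.Q^[i] f) (m + 1)
      rw [h4, ← hU] at h3
      rw [← h3]
      simp
    rw [← h2, hU, map_sum, map_sum]
    exact Finset.sum_congr rfl fun i _ => Diss_iter c f i
  have h5 : Diss_T c (Diss_P c U) = Diss_T c (Diss_P c f) + (U - c.Q^[m] f) -
      ∑ i ∈ Finset.range m, (c.Q^[i] f - Diss_T c (Diss_T c (c.Q^[i] f))) := by
    have h6 : U - c.Q^[m] f = ∑ i ∈ Finset.range m, c.Q^[i] f := by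
      rw [hU, Finset.sum_range_succ]; simp
    rw [h6, Finset.sum_sub_distrib]
    have h7 : U = (∑ i ∈ Finset.range m, c.Q^[i + 1] f) + f := by
      rw [hU, Finset.sum_range_succ']; simp
    rw [h7, map_add, map_add, map_sum, map_sum]
    have h8 : ∑ i ∈ Finset.range m, Diss_T c (Diss_P c (c.Q^[i + 1] f)) =
        ∑ i ∈ Finset.range m, Diss_T c (Diss_T c (c.Q^[i] f)) :=
      Finset.sum_congr rfl fun i _ => by rw [Diss_iter]
    rw [h8]; abel
  rw [map_add, h5, h1, map_sub, map_add]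
  abel

theorem Diss_Qk_nonneg (c : Chain S) {f : S → ℝ} (hf : ∀ a, 0 ≤ f a)
    (hQ : ∀ g : S → ℝ, (∀ a, 0 ≤ g a) → ∀ a, 0 ≤ c.Q g a) (i : ℕ) : ∀ a, 0 ≤ c.Q^[i] f a := by
  induction i with
  | zero => exact hf
  | succ n ih => rw [Function.iterate_succ_apply']; exact hQ _ ih

theorem Diss_ip_nonneg (c : Chain S) {f g : S → ℝ} (hf : ∀ a, 0 ≤ f a) (hg : ∀ a, 0 ≤ g a) :
    0 ≤ Diss_ip c f g :=
  Finset.sum_nonneg fun a _ => mul_nonneg (Diss_mu_pos c a).le (mul_nonneg (hf a) (hg a))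

theorem Diss_nrm_sum (c : Chain S) (F : ℕ → S → ℝ) (hF : ∀ i a, 0 ≤ F i a) (m : ℕ) :
    ∑ i ∈ Finset.range m, c.nrm (F i) ≤ c.nrm (∑ i ∈ Finset.range m, F i) := by
  have hadd : ∀ f g : S → ℝ, (∀ a, 0 ≤ f a) → (∀ a, 0 ≤ g a) →
      c.nrm f + c.nrm g ≤ c.nrm (f + g) := by
    intro f g hf hg
    have h := Diss_ip_nonneg c hf hg
    rw [Diss_nrm c (f + g), Diss_ip_add, Diss_ip_comm c f (f + g), Diss_ip_comm c g (f + g),
      Diss_ip_add, Diss_ip_add, Diss_ip_comm c g f, ← Diss_nrm, ← Diss_nrm]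
    linarith
  induction m with
  | zero => simp [Chain.nrm]
  | succ n ih =>
    rw [Finset.sum_range_succ, Finset.sum_range_succ]
    refine le_trans (add_le_add_left ih _) (hadd _ _ ?_ (hF n))
    intro a
    rw [Finset.sum_apply]
    exact Finset.sum_nonneg fun i _ => hF i a

theorem Diss_add_le (c : Chain S) {f g : S → ℝ} (hf : ∀ a, 0 ≤ f a) (hg : ∀ a, 0 ≤ g a) :
    c.nrm f + c.nrm g ≤ c.nrm (f + g) := by
  have h := Diss_ip_nonneg c hf hg
  rw [Diss_nrm c (f + g), Diss_ip_add, Diss_ip_comm c f (f + g), Diss_ip_comm c g (f + g),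
    Diss_ip_add, Diss_ip_add, Diss_ip_comm c g f, ← Diss_nrm, ← Diss_nrm]
  linarith

theorem Diss_mass_P (c : Chain S) (f : S → ℝ) : c.mass (Diss_P c f) = c.mass f := by
  unfold Chain.mass
  have hJ : Function.Involutive c.J := c.J_J
  calc ∑ a, c.μ a * (Diss_P c f a) = ∑ a, c.μ (hJ.toPerm _ a) * f (hJ.toPerm _ a) := by
        refine Finset.sum_congr rfl fun a _ => ?_
        rw [Diss_P_apply, Function.Involutive.coe_toPerm, c.μ_J]
    _ = ∑ a, c.μ a * f a := Equiv.sum_comp (hJ.toPerm _) fun a => c.μ a * f a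

theorem Diss_mass_T (c : Chain S) (f : S → ℝ) : c.mass (Diss_T c f) = c.mass f := by
  unfold Chain.mass
  calc ∑ a, c.μ a * Diss_T c f a = ∑ a, ∑ b, c.K a b * f b :=
        Finset.sum_congr rfl fun a _ => Diss_mu_T c f a
    _ = ∑ b, ∑ a, c.K a b * f b := Finset.sum_comm
    _ = ∑ b, c.μ b * f b := by
        refine Finset.sum_congr rfl fun b _ => ?_
        rw [← Finset.sum_mul, ← c.K_sum b]
        congr 1
        exact Finset.sum_congr rfl fun a _ => c.K_symm a b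

theorem Diss_mass_sum (c : Chain S) (F : ℕ → S → ℝ) (m : ℕ) :
    c.mass (∑ i ∈ Finset.range m, F i) = ∑ i ∈ Finset.range m, c.mass (F i) := by
  unfold Chain.mass
  rw [Finset.sum_comm]
  refine Finset.sum_congr rfl fun a _ => ?_
  rw [Finset.sum_apply, Finset.mul_sum]

theorem Diss_mass_add (c : Chain S) (f g : S → ℝ) : c.mass (f + g) = c.mass f + c.mass g := by
  unfold Chain.mass
  rw [← Finset.sum_add_distrib]
  exact Finset.sum_congr rfl fun a _ => by rw [Pi.add_apply]; ring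

theorem Chain.Q_nonneg (c : Chain S) {f : S → ℝ} (hf : ∀ a, 0 ≤ f a) (a : S) : 0 ≤ c.Q f a := by
  refine mul_nonneg (one_div_nonneg.mpr (Diss_mu_pos c a).le) (Finset.sum_nonneg fun b _ => ?_)
  exact mul_nonneg (c.K_nonneg _ _) (hf b)

theorem Chain.nrm_Q_le (c : Chain S) (f : S → ℝ) : c.nrm (c.Q f) ≤ c.nrm f := by
  rw [Diss_Q_eq, Diss_nrm_P]
  exact Diss_nrm_T c f

theorem Chain.mass_Q (c : Chain S) (f : S → ℝ) : c.mass (c.Q f) = c.mass f := by
  rw [Diss_Q_eq, Diss_mass_P, Diss_mass_T]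

theorem Chain.dissip [Nonempty S] (c : Chain S) {κ : ℝ} (hκ : 0 ≤ κ) (hP : c.Poinc κ) {k : ℕ}
    (hk : 2 ≤ k) (hk2 : 50 * κ ^ 2 ≤ (k : ℝ) - 1) {f : S → ℝ} (hf : ∀ a, 0 ≤ f a) :
    c.nrm (c.Q^[k] f) ≤ (1 - 1 / (k : ℝ)) * c.nrm f ∨
      c.nrm f ≤ 8 * k * c.mass f ^ 2 / c.Z := by
  by_cases hc : c.nrm (c.Q^[k] f) ≤ (1 - 1 / (k : ℝ)) * c.nrm f
  · exact Or.inl hc
  right
  push Not at hc
  obtain ⟨m, rfl⟩ : ∃ m, k = m + 1 := ⟨k - 1, by omega⟩
  have hm1 : 1 ≤ m := by omega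
  have hmR : (1 : ℝ) ≤ m := by exact_mod_cast hm1
  have hcast : ((m + 1 : ℕ) : ℝ) = m + 1 := by push_cast; ring
  rw [hcast] at hc hk2 ⊢
  set F : ℕ → S → ℝ := fun i => c.Q^[i] f with hF
  have hFn : ∀ i a, 0 ≤ F i a := fun i => Diss_Qk_nonneg c hf (fun g hg => c.Q_nonneg hg) i
  have hF0 : F 0 = f := rfl
  have hstep : ∀ i, c.nrm (F (i + 1)) = c.nrm (Diss_T c (F i)) := by
    intro i
    rw [hF]
    simp only []
    rw [Diss_iter, Diss_nrm_P]
  have hdec : ∀ i, c.nrm (F (i + 1)) ≤ c.nrm (F i) := fun i => by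
    rw [hstep]; exact Diss_nrm_T c _
  have hanti : Antitone fun i => c.nrm (F i) := antitone_nat_of_succ_le hdec
  set N0 := c.nrm f with hN0
  have hN0n : 0 ≤ N0 := Diss_nrm_nonneg c f
  set U : S → ℝ := ∑ i ∈ Finset.range (m + 1), F i with hU
  set W : S → ℝ := U + Diss_P c U with hW
  have hUn : ∀ a, 0 ≤ U a := fun a => by
    rw [hU, Finset.sum_apply]; exact Finset.sum_nonneg fun i _ => hFn i a
  have hPU : ∀ a, 0 ≤ Diss_P c U a := fun a => hUn _
  -- lower bound of the norm of W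
  have hWlow : 2 * m * N0 ≤ c.nrm W := by
    have h1 : c.nrm U + c.nrm (Diss_P c U) ≤ c.nrm W := Diss_add_le c hUn hPU
    rw [Diss_nrm_P] at h1
    have h2 : ∑ i ∈ Finset.range (m + 1), c.nrm (F i) ≤ c.nrm U := Diss_nrm_sum c F hFn (m + 1)
    have h3 : ∑ i ∈ Finset.range (m + 1), c.nrm (F (m + 1)) ≤
        ∑ i ∈ Finset.range (m + 1), c.nrm (F i) :=
      Finset.sum_le_sum fun i hi => hanti (Finset.mem_range.mp hi).le
    rw [Finset.sum_const, Finset.card_range, nsmul_eq_mul, hcast] at h3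
    have h4 : (m : ℝ) * N0 ≤ (m + 1) * c.nrm (F (m + 1)) := by
      have h5 : ((m : ℝ) + 1) * ((1 - 1 / ((m : ℝ) + 1)) * N0) ≤ (m + 1) * c.nrm (F (m + 1)) :=
        mul_le_mul_of_nonneg_left hc.le (by linarith)
      have h6 : ((m : ℝ) + 1) * ((1 - 1 / ((m : ℝ) + 1)) * N0) = m * N0 := by
        field_simp
        ring
      linarith
    linarith
  -- the Dirichlet form of W
  set X := √(c.nrm W) with hX
  set A := √N0 with hA
  have hXn : 0 ≤ X := Real.sqrt_nonneg _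
  have hAn : 0 ≤ A := Real.sqrt_nonneg _
  have hX2 : X ^ 2 = c.nrm W := Real.sq_sqrt (Diss_nrm_nonneg c W)
  have hA2 : A ^ 2 = N0 := Real.sq_sqrt hN0n
  have hneg : ∀ g : S → ℝ, -Diss_ip c g W ≤ √(c.nrm g) * X := by
    intro g
    have h1 := Diss_ip_le c (-g) W
    have h2 : c.nrm (-g) = c.nrm g := by
      unfold Chain.nrm
      exact Finset.sum_congr rfl fun a _ => by rw [Pi.neg_apply]; ring
    have h3 : Diss_ip c (-g) W = -Diss_ip c g W := by
      unfold Diss_ip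
      rw [← Finset.sum_neg_distrib]
      exact Finset.sum_congr rfl fun a _ => by rw [Pi.neg_apply]; ring
    rw [h2, h3] at h1
    exact h1
  have hE : c.E W ≤ 5 * A * X := by
    rw [Diss_E_eq, hW, Diss_iden c f m U hU, ← hW, Diss_ip_add, Diss_ip_add, Diss_ip_sub,
      Diss_ip_sub, Diss_ip_sum]
    have b1 : Diss_ip c (Diss_P c f) W ≤ A * X := by
      have := Diss_ip_le c (Diss_P c f) W
      rwa [Diss_nrm_P] at this
    have b2 : -Diss_ip c (Diss_P c (F (m + 1))) W ≤ A * X := by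
      refine le_trans (hneg _) (mul_le_mul_of_nonneg_right (Real.sqrt_le_sqrt ?_) hXn)
      rw [Diss_nrm_P]
      exact hanti (Nat.zero_le _)
    have b3 : -Diss_ip c (Diss_T c (Diss_P c f)) W ≤ A * X := by
      refine le_trans (hneg _) (mul_le_mul_of_nonneg_right (Real.sqrt_le_sqrt ?_) hXn)
      exact le_trans (Diss_nrm_T c _) (Diss_nrm_P c f).le
    have b4 : Diss_ip c (F m) W ≤ A * X := by
      refine le_trans (Diss_ip_le c _ W) (mul_le_mul_of_nonneg_right (Real.sqrt_le_sqrt ?_) hXn)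
      exact hanti (Nat.zero_le _)
    have b5 : ∑ i ∈ Finset.range m, Diss_ip c (F i - Diss_T c (Diss_T c (F i))) W ≤ A * X := by
      have c1 : ∀ i, Diss_ip c (F i - Diss_T c (Diss_T c (F i))) W ≤
          √(c.nrm (F i) - c.nrm (F (i + 1))) * X := by
        intro i
        refine le_trans (Diss_ip_le c _ W) (mul_le_mul_of_nonneg_right (Real.sqrt_le_sqrt ?_) hXn)
        rw [hstep]
        exact Diss_res c (F i)
      have c2 : ∑ i ∈ Finset.range m, √(c.nrm (F i) - c.nrm (F (i + 1))) ≤ A := by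
        have d1 := @sq_sum_le_card_mul_sum_sq _ ℝ _ _ _ _ (Finset.range m)
          (fun i => √(c.nrm (F i) - c.nrm (F (i + 1))))
        have d2 : ∑ i ∈ Finset.range m, √(c.nrm (F i) - c.nrm (F (i + 1))) ^ 2 =
            c.nrm (F 0) - c.nrm (F m) := by
          rw [← Finset.sum_range_sub' (fun i => c.nrm (F i)) m]
          refine Finset.sum_congr rfl fun i _ => Real.sq_sqrt ?_
          have := hdec i
          linarith
        rw [d2, Finset.card_range, hF0, ← hN0] at d1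
        have d3 : c.nrm (F (m + 1)) ≤ c.nrm (F m) := hdec m
        have d4 : (m : ℝ) * (N0 - c.nrm (F m)) ≤ N0 := by
          have e1 : (m : ℝ) * (N0 - c.nrm (F m)) ≤ m * (N0 - (1 - 1 / ((m : ℝ) + 1)) * N0) := by
            refine mul_le_mul_of_nonneg_left ?_ (by linarith)
            have := hc.le
            linarith
          have e2 : (m : ℝ) * (N0 - (1 - 1 / ((m : ℝ) + 1)) * N0) = (m / (m + 1)) * N0 := by
            field_simp
            ring
          have e3 : (m : ℝ) / (m + 1) ≤ 1 := by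
            rw [div_le_one (by linarith)]; linarith
          nlinarith
        refine Real.le_sqrt_of_sq_le (le_trans d1 d4)
      calc ∑ i ∈ Finset.range m, Diss_ip c (F i - Diss_T c (Diss_T c (F i))) W
          ≤ ∑ i ∈ Finset.range m, √(c.nrm (F i) - c.nrm (F (i + 1))) * X :=
            Finset.sum_le_sum fun i _ => c1 i
        _ = (∑ i ∈ Finset.range m, √(c.nrm (F i) - c.nrm (F (i + 1)))) * X := by
            rw [Finset.sum_mul]
        _ ≤ A * X := mul_le_mul_of_nonneg_right c2 hXn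
    linarith
  -- mass of W
  have hmW : c.mass W = 2 * (m + 1) * c.mass f := by
    have h1 : ∀ i, c.mass (F i) = c.mass f := by
      intro i
      induction i with
      | zero => rfl
      | succ n ih =>
        have : F (n + 1) = c.Q (F n) := Function.iterate_succ_apply' _ _ _
        rw [this, Chain.mass_Q, ih]
    rw [hW, Diss_mass_add, Diss_mass_P, hU, Diss_mass_sum, Finset.sum_congr rfl fun i _ => h1 i,
      Finset.sum_const, Finset.card_range, nsmul_eq_mul, hcast]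
    ring
  have hZ : 0 < c.Z := by
    unfold Chain.Z
    exact Finset.sum_pos (fun a _ => Diss_mu_pos c a) Finset.univ_nonempty
  have hPW := hP W (by
    intro a
    rw [hW, Pi.add_apply, Pi.add_apply, Diss_P_apply, Diss_P_apply, c.J_J]
    ring)
  have hκE : κ * c.E W ≤ X ^ 2 / 2 := by
    have h1 : κ * c.E W ≤ κ * (5 * A * X) := mul_le_mul_of_nonneg_left hE hκ
    have h2 : 10 * κ * A ≤ X := by
      refine Real.le_sqrt_of_sq_le ?_
      have h3 : (10 * κ * A) ^ 2 = 100 * κ ^ 2 * N0 := by rw [← hA2]; ring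
      rw [h3]
      nlinarith
    nlinarith
  rw [hmW, ← hX2] at hPW
  have hfin : X ^ 2 ≤ 8 * (m + 1) ^ 2 * c.mass f ^ 2 / c.Z := by
    have h1 : (2 * ((m : ℝ) + 1) * c.mass f) ^ 2 / c.Z =
        (8 * (m + 1) ^ 2 * c.mass f ^ 2 / c.Z) / 2 := by ring
    linarith
  rw [← hX2] at hWlow
  have h2m : 0 < 2 * (m : ℝ) := by linarith
  have h3 : 2 * (m : ℝ) * N0 ≤ 2 * m * (8 * (m + 1) * c.mass f ^ 2 / c.Z) := by
    refine le_trans (le_trans hWlow hfin) ?_
    rw [← mul_div_assoc]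
    refine div_le_div_of_nonneg_right ?_ hZ.le
    have h4 : 0 ≤ c.mass f ^ 2 := sq_nonneg _
    have h5 : 8 * ((m : ℝ) + 1) ^ 2 ≤ 2 * m * (8 * (m + 1)) := by nlinarith
    nlinarith
  exact le_of_mul_le_mul_left h3 h2m

end GE
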