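import Pool.Agent.H74.GE.Blocked

/-!
# GE/Gap : edge expansion and parity of `w - χ_C`

* `cr_gap`: with `f = 1_X - |X|/n` the spectral gap gives `ε |X| / 2 ≤ cr G X` when
  `2 |X| ≤ n` (`Σ f² = |X| - |X|²/n ≥ |X|/2`; the double sum on the right is `2 cr G X`).
* `sub_eulerian`: at every vertex the number of edges of `C` is 0 or 2 (`two`, `atmost`), and
  `w e - 1` has the other parity on `C` (all edges of `C` are edges of `G`, of weight 1 or 2), so
  `w - χ_C` is eulerian on its support (an edge of odd weight is in the support).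
-/

open scoped Classical

noncomputable section

namespace GE

universe u
variable {V : Type u} [Fintype V]

private lemma Gap_sum_ind (X : Finset V) : ∑ v : V, (if v ∈ X then (1 : ℝ) else 0) = X.card := by
  rw [Finset.sum_ite_mem, Finset.univ_inter]
  simp

private lemma Gap_cr_eq (G : SimpleGraph V) (X : Finset V) :
    (cr G X : ℝ) = ∑ x : V, ∑ y : V, if (x ∈ X ∧ y ∉ X) ∧ G.Adj x y then (1 : ℝ) else 0 := by
  unfold cr
  rw [← Finset.sum_product', Finset.univ_product_univ]
  rw [← Finset.sum_filter]
  rw [Finset.sum_const, nsmul_eq_mul, mul_one]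
  norm_cast
  congr 1
  ext p
  simp only [Finset.mem_filter, Finset.mem_product, Finset.mem_compl, Finset.mem_univ, true_and]

theorem cr_gap {G : SimpleGraph V} {ε : ℝ} (hgap : SpectralGap G ε) (hε : 0 < ε) (X : Finset V)
    (hX : 2 * X.card ≤ Fintype.card V) : ε * X.card / 2 ≤ cr G X := by
  rcases Nat.eq_zero_or_pos (Fintype.card V) with h0 | hn
  · have : X.card = 0 := by omega
    rw [this]
    simp
  have hnR : (0 : ℝ) < (Fintype.card V : ℝ) := by exact_mod_cast hn
  set n : ℝ := (Fintype.card V : ℝ) with hndef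
  set k : ℝ := (X.card : ℝ) with hkdef
  have hk0 : 0 ≤ k := by positivity
  have hXR : 2 * k ≤ n := by
    rw [hkdef, hndef]
    exact_mod_cast hX
  set f : V → ℝ := fun v => (if v ∈ X then (1 : ℝ) else 0) - k / n with hf
  have hsum : ∑ v, f v = 0 := by
    rw [hf, Finset.sum_sub_distrib, Gap_sum_ind, Finset.sum_const, nsmul_eq_mul,
      Finset.card_univ, ← hndef, ← hkdef]
    field_simp
    ring
  have hsq : ∑ v, f v ^ 2 = k - k ^ 2 / n := by
    have h1 : ∀ v, f v ^ 2 = (if v ∈ X then (1 : ℝ) else 0) * (1 - 2 * (k / n)) + (k / n) ^ 2 := by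
      intro v
      rw [hf]
      by_cases hv : v ∈ X
      · simp only [hv, if_true]; ring
      · simp only [hv, if_false]; ring
    rw [Finset.sum_congr rfl (fun v _ => h1 v), Finset.sum_add_distrib, ← Finset.sum_mul,
      Gap_sum_ind, Finset.sum_const, nsmul_eq_mul, Finset.card_univ, ← hndef, ← hkdef]
    field_simp
    ring
  have hmain := hgap f hsum
  have hrhs : ∑ x, ∑ y, (if G.Adj x y then (f x - f y) ^ 2 else 0) = 2 * (cr G X : ℝ) := by
    have h1 : ∀ x y, (if G.Adj x y then (f x - f y) ^ 2 else 0)
        = (if (x ∈ X ∧ y ∉ X) ∧ G.Adj x y then (1 : ℝ) else 0)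
          + (if (y ∈ X ∧ x ∉ X) ∧ G.Adj y x then (1 : ℝ) else 0) := by
      intro x y
      by_cases hA : G.Adj x y
      · have hA' := hA.symm
        rw [hf]
        by_cases hx : x ∈ X <;> by_cases hy : y ∈ X
        · simp [hA, hA', hx, hy]
        · simp only [hA, hA', hx, hy, if_true, if_false, not_true, not_false_eq_true, and_true,
            and_false, and_self, false_and, true_and]
          ring
        · simp only [hA, hA', hx, hy, if_true, if_false, not_true, not_false_eq_true, and_true,
            and_false, and_self, false_and, true_and]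
          ring
        · simp [hA, hA', hx, hy]
      · have hA' : ¬ G.Adj y x := fun h => hA h.symm
        simp [hA, hA']
    rw [Finset.sum_congr rfl (fun x _ => Finset.sum_congr rfl (fun y _ => h1 x y))]
    rw [Finset.sum_congr rfl (fun x _ => Finset.sum_add_distrib), Finset.sum_add_distrib]
    rw [← Gap_cr_eq G X]
    rw [Finset.sum_comm, ← Gap_cr_eq G X]
    ring
  rw [hrhs, hsq] at hmain
  have h2 : k ^ 2 / n ≤ k / 2 := by
    rw [div_le_div_iff₀ hnR (by norm_num)]
    nlinarith
  have h3 : 2 * ε * (k / 2) ≤ 2 * ε * (k - k ^ 2 / n) := by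
    apply mul_le_mul_of_nonneg_left _ (by positivity)
    linarith
  linarith

private lemma Gap_T_even {G : SimpleGraph V} {w : Sym2 V → ℕ} {r : ℕ} {C : Finset (Sym2 V)}
    (hC : ThickCirc G w r C) (v : V) :
    Even (Finset.univ.filter (fun x : V => s(v, x) ∈ C)).card := by
  rcases Finset.eq_empty_or_nonempty (Finset.univ.filter (fun x : V => s(v, x) ∈ C)) with h | ⟨x1, hx1⟩
  · rw [h]; simp
  · rw [Finset.mem_filter] at hx1
    have h1 := hx1.2
    obtain ⟨e2, he2, hne, hv2⟩ := hC.two v s(v, x1) h1 (Sym2.mem_mk_left v x1)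
    obtain ⟨x2, rfl⟩ := hv2
    have hx12 : x1 ≠ x2 := fun h => hne (by rw [h])
    have hTT : Finset.univ.filter (fun x : V => s(v, x) ∈ C) = {x1, x2} := by
      ext x3
      simp only [Finset.mem_filter, Finset.mem_univ, true_and, Finset.mem_insert,
        Finset.mem_singleton]
      constructor
      · intro h3
        rcases hC.atmost v _ _ _ h1 he2 h3 (Sym2.mem_mk_left v x1) (Sym2.mem_mk_left v x2)
          (Sym2.mem_mk_left v x3) with h | h | h
        · exact absurd h.symm hne
        · left; exact (Sym2.congr_right.mp h).symm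
        · right; exact (Sym2.congr_right.mp h).symm
      · rintro (rfl | rfl)
        · exact h1
        · exact he2
    rw [hTT, Finset.card_pair hx12]
    exact even_two

omit [Fintype V] in
private lemma Gap_symmDiff_even (S T : Finset V) (hS : Even S.card) (hT : Even T.card) :
    Even (symmDiff S T).card := by
  have h1 : (symmDiff S T).card + 2 * (S ∩ T).card = S.card + T.card := by
    have ha : (S \ T).card + (S ∩ T).card = S.card := Finset.card_sdiff_add_card_inter S T
    have hb : (T \ S).card + (T ∩ S).card = T.card := Finset.card_sdiff_add_card_inter T S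
    have hc : (symmDiff S T).card = (S \ T).card + (T \ S).card := by
      rw [symmDiff_def, Finset.sup_eq_union, Finset.card_union_of_disjoint]
      rw [Finset.disjoint_left]
      intro a h1 h2
      rw [Finset.mem_sdiff] at h1 h2
      exact h1.2 h2.1
    rw [Finset.inter_comm T S] at hb
    omega
  have h2 : Even ((symmDiff S T).card + 2 * (S ∩ T).card) := by
    rw [h1]; exact hS.add hT
  rw [Nat.even_add] at h2
  exact h2.mpr (even_two_mul _)

theorem sub_eulerian {G : SimpleGraph V} {w : Sym2 V → ℕ} {r : ℕ} {C : Finset (Sym2 V)}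
    (h12 : IsWeight12 G w) (hE : IsEulerian G w) (hC : ThickCirc G w r C) :
    IsEulerian (supp G (subW w C)) (subW w C) := by
  intro v
  have hS := hE v
  have hSF : ({x | G.Adj v x ∧ Odd (w s(v, x))} : Set V)
      = ↑(Finset.univ.filter (fun x : V => G.Adj v x ∧ Odd (w s(v, x)))) := by
    ext x; simp
  rw [hSF, Set.ncard_coe_finset] at hS
  have hT := Gap_T_even hC v
  have hST := Gap_symmDiff_even _ _ hS hT
  have hset : ({x | (supp G (subW w C)).Adj v x ∧ Odd (subW w C s(v, x))} : Set V)
      = ↑(symmDiff (Finset.univ.filter (fun x : V => G.Adj v x ∧ Odd (w s(v, x))))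
          (Finset.univ.filter (fun x : V => s(v, x) ∈ C))) := by
    ext x
    rw [Set.mem_ofPred_eq, Finset.mem_coe, Finset.mem_symmDiff]
    simp only [Finset.mem_filter, Finset.mem_univ, true_and]
    constructor
    · rintro ⟨⟨hadj, hpos⟩, hodd⟩
      by_cases hc : s(v, x) ∈ C
      · right
        refine ⟨hc, fun h => ?_⟩
        have hw : Odd (w s(v, x)) := h.2
        rw [subW, if_pos hc] at hodd hpos
        rcases h12 _ ((G.mem_edgeSet).mpr hadj) with h1 | h1
        · rw [h1] at hpos; omega
        · rw [h1] at hw; exact absurd hw (by decide)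
      · left
        refine ⟨⟨hadj, ?_⟩, hc⟩
        rw [subW, if_neg hc] at hodd
        simpa using hodd
    · rintro (⟨⟨hadj, hodd⟩, hc⟩ | ⟨hc, hn⟩)
      · have hs : subW w C s(v, x) = w s(v, x) := by rw [subW, if_neg hc]; simp
        refine ⟨⟨hadj, ?_⟩, ?_⟩
        · rw [hs]; exact hodd.pos
        · rw [hs]; exact hodd
      · have hadj : G.Adj v x := (G.mem_edgeSet).mp (hC.sub _ hc)
        rcases h12 _ (hC.sub _ hc) with h1 | h1
        · exact absurd ⟨hadj, by rw [h1]; decide⟩ hn
        · have hs : subW w C s(v, x) = 1 := by rw [subW, if_pos hc, h1]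
          refine ⟨⟨hadj, ?_⟩, ?_⟩
          · rw [hs]; exact one_pos
          · rw [hs]; exact odd_one
  rw [hset, Set.ncard_coe_finset]
  exact hST

end GE
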