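import Pool.Agent.H74.GE.Defs

/-!
# GE/Girth : uniqueness of short non-backtracking walks

* `nb_unique`: two non-backtracking walks `p q : a → b` with `p.length + q.length < g` are equal when
  every cycle of `G` has length at least `g`.
  Proof: let `H` be the graph with edge set `{e | e ∈ p.edges ∨ e ∈ q.edges}`. Every cycle of `H`
  has (distinct edges, all in `H`) length at most `p.length + q.length < g` and is a cycle of `G`
  (map / transfer), so `H` is acyclic. Transfer `p` and `q` to `H`: they are still
  non-backtracking, so they are paths (`SimpleGraph.IsAcyclic.isPath_iff_isChain`) and equal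
  (`SimpleGraph.IsAcyclic.path_unique`); go back to `G`.
* `nb_closed`: a non-backtracking closed walk of length `< g` has length 0 (compare with `nil`).
* `exists_nb_of_walk`: if there is a walk of length at most `r` from `a` to `b` there is a
  non-backtracking one (`Walk.bypass`: a path is a trail so its edges are distinct).
-/

open scoped Classical

noncomputable section

namespace GE

universe u
variable {V : Type u}

theorem nb_unique {G : SimpleGraph V} {g : ℕ} (hg : GirthAtLeast G g) {a b : V}
    (p q : G.Walk a b) (hp : NB p) (hq : NB q) (hlen : p.length + q.length < g) : p = q := by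
  set S : Set (Sym2 V) := {e | e ∈ p.edges ∨ e ∈ q.edges} with hS
  have hSG : ∀ e ∈ S, e ∈ G.edgeSet := by
    rintro e (h | h)
    · exact p.edges_subset_edgeSet h
    · exact q.edges_subset_edgeSet h
  set H : SimpleGraph V := SimpleGraph.fromEdgeSet S with hH
  have hHS : ∀ e, e ∈ H.edgeSet ↔ e ∈ S := by
    intro e
    rw [hH, SimpleGraph.edgeSet_fromEdgeSet]
    constructor
    · intro h
      exact h.1
    · intro h
      exact ⟨h, fun hd => G.not_isDiag_of_mem_edgeSet (hSG e h) hd⟩
  have hac : H.IsAcyclic := by
    intro v c hc
    have hcS : ∀ e ∈ c.edges, e ∈ S := fun e he => (hHS e).1 (c.edges_subset_edgeSet he)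
    have hcG : ∀ e ∈ c.edges, e ∈ G.edgeSet := fun e he => hSG e (hcS e he)
    have h1 := hg v (c.transfer G hcG) (hc.transfer hcG)
    rw [SimpleGraph.Walk.length_transfer] at h1
    have h2 : c.edges.length ≤ (p.edges ++ q.edges).length := by
      apply List.Subperm.length_le
      apply List.Nodup.subperm hc.isCircuit.isTrail.edges_nodup
      intro e he
      rcases hcS e he with h | h
      · exact List.mem_append_left _ h
      · exact List.mem_append_right _ h
    rw [List.length_append, SimpleGraph.Walk.length_edges, SimpleGraph.Walk.length_edges,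
      SimpleGraph.Walk.length_edges] at h2
    omega
  have hpH : ∀ e ∈ p.edges, e ∈ H.edgeSet := fun e he => (hHS e).2 (Or.inl he)
  have hqH : ∀ e ∈ q.edges, e ∈ H.edgeSet := fun e he => (hHS e).2 (Or.inr he)
  have hpp : (p.transfer H hpH).IsPath := by
    rw [hac.isPath_iff_isChain, SimpleGraph.Walk.edges_transfer]
    exact hp
  have hqp : (q.transfer H hqH).IsPath := by
    rw [hac.isPath_iff_isChain, SimpleGraph.Walk.edges_transfer]
    exact hq
  have heq : p.transfer H hpH = q.transfer H hqH := by
    have := (hac.subsingleton_path a b).elim ⟨_, hpp⟩ ⟨_, hqp⟩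
    exact congrArg Subtype.val this
  have hback : ∀ (t : G.Walk a b) (ht : ∀ e ∈ t.edges, e ∈ H.edgeSet)
      (ht' : ∀ e ∈ (t.transfer H ht).edges, e ∈ G.edgeSet),
      (t.transfer H ht).transfer G ht' = t := by
    intro t ht ht'
    rw [SimpleGraph.Walk.transfer_transfer]
    exact SimpleGraph.Walk.transfer_self t
  have h1 : ∀ e ∈ (p.transfer H hpH).edges, e ∈ G.edgeSet := by
    intro e he
    rw [SimpleGraph.Walk.edges_transfer] at he
    exact p.edges_subset_edgeSet he
  have h2 : ∀ e ∈ (q.transfer H hqH).edges, e ∈ G.edgeSet := by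
    intro e he
    rw [SimpleGraph.Walk.edges_transfer] at he
    exact q.edges_subset_edgeSet he
  rw [← hback p hpH h1, ← hback q hqH h2]
  congr 1

theorem nb_closed {G : SimpleGraph V} {g : ℕ} (hg : GirthAtLeast G g) {a : V}
    (p : G.Walk a a) (hp : NB p) (hlen : p.length < g) : p.length = 0 := by
  have h : p = SimpleGraph.Walk.nil := by
    apply nb_unique hg p SimpleGraph.Walk.nil hp
    · unfold NB
      rw [SimpleGraph.Walk.edges_nil]
      exact List.isChain_nil
    · simpa using hlen
  rw [h]
  rfl

theorem exists_nb_of_walk {G : SimpleGraph V} {a b : V} {r : ℕ}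
    (h : ∃ p : G.Walk a b, p.length ≤ r) : ∃ p : G.Walk a b, p.length ≤ r ∧ NB p := by
  obtain ⟨p, hp⟩ := h
  refine ⟨p.bypass, le_trans p.length_bypass_le_length hp, ?_⟩
  exact List.Pairwise.isChain p.bypass_isPath.isTrail.edges_nodup

end GE
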