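import Pool.Agent.H74.GE.Blocked
import Pool.Agent.H74.GE.Girth

/-!
# GE/Growth : the side of a blocking cut is large compared with the cut

Let `Y` be the set of `v ∈ X` with a crossing edge in `C` (`out_card`: `cr G X = |Y| + 1`); for
`v ∈ Y` let `v₁ ∈ X` be as in `third` (`t_v = s(v, v₁) ∉ C`).
For `b : Fin ρ → Bool` follow the non-backtracking walk `v, v₁, v₂, ..., v_{ρ+1}` whose turns are
chosen by `b` (cubic: at every vertex there are exactly two continuations, labelled by `false`,
`true`). [In Lean: it is convenient to work with the finite sets `T v i` of darts `(v_{i-1}, v_i)`, or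
with the set of all non-backtracking walks of length `i` starting with `v, v₁`, of which there are
`2^(i-1)`.]

(3a) for `1 ≤ i ≤ ρ+1` the vertex `v_i` is not on `C`: otherwise `thick` (there is a walk of length
`i ≤ ρ+1 ≤ r` from `v` to `v_i`) gives a non-backtracking walk `v → v_i` along `C` of length at most
`r`; the walk `v, v₁, ..., v_i` is also non-backtracking, its first edge `t_v` is not in `C`, so they
are different: contradiction with `nb_unique` (total length at most `r + ρ + 1 < g`).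

(3b) two walks of this kind (from `v ≠ v'` in `Y`, of lengths `1 ≤ i, i' ≤ ρ+1`) never end at
the same vertex `z`: the vertices `v, v'` are joined by a walk of length `i + i' ≤ 2ρ+2 ≤ r`, so by
`thick` there is a non-backtracking walk `c` along `C` from `v` to `v'` of length at most `r`
(positive as `v ≠ v'`); `c` followed by `v', v'₁, ..., z` is non-backtracking (its last edge in `C`,
`t_{v'} ∉ C`), and so is `v, v₁, ..., z`; their first edges differ (`t_v ∉ C`), the total length is
`≤ r + 2ρ + 2 ≤ 2 r < g`, contradiction with `nb_unique`.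

(3c) by (3b) there is at most one `v* ∈ Y` such that some walk from `v*` passes `a` (as `v_i`,
`1 ≤ i ≤ ρ+1`). For `v ∈ Y`, `v ≠ v*`, all `v_i` are in `X`: by induction, the edge `v_i v_{i+1}`
with `v_i ∈ X` can leave `X` only if it is in `C` (excluded by (3a), `i ≥ 1`) or `v_i = a` (excluded).

(3d) the map `(v, b) ↦ v_{ρ+1}` is injective on `(Y \ {v*}) × (Fin ρ → Bool)`: for different `v`
by (3b), for the same `v` by `nb_unique`. Hence `(|Y| - 1) * 2^ρ ≤ |X|`.
-/

open scoped Classical

noncomputable section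

namespace GE

universe u
variable {V : Type u} [Fintype V]

/-- `z` is the end of a non-backtracking walk of length `k + 1` from `v` with first edge `t`. -/
private def Growth_Gr (G : SimpleGraph V) (v z : V) (t : Sym2 V) (k : ℕ) : Prop :=
  ∃ p : G.Walk v z, NB p ∧ p.length = k + 1 ∧ p.edges.head? = some t

omit [Fintype V] in
private theorem Growth_on {G : SimpleGraph V} {w : Sym2 V → ℕ} {r g : ℕ} {C : Finset (Sym2 V)}
    (hg : GirthAtLeast G g) (hC : ThickCirc G w r C) {v z : V} {t : Sym2 V} {k : ℕ}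
    (h : Growth_Gr G v z t k) (hv : ∃ e ∈ C, v ∈ e) (hz : ∃ e ∈ C, z ∈ e) (hk : k + 1 ≤ r)
    (hk2 : k + 1 + r < g) : t ∈ C := by
  obtain ⟨p, hp, hl, ht⟩ := h
  obtain ⟨c, hc1, hc2, hc3⟩ := hC.thick v z hv hz ⟨p, by omega⟩
  have he : p = c := nb_unique hg p c hp hc2 (by omega)
  have ht' : t ∈ p.edges := List.mem_of_mem_head? (by rw [ht]; rfl)
  rw [he] at ht'
  exact hc3 t ht'

omit [Fintype V] in
private theorem Growth_disj {G : SimpleGraph V} {w : Sym2 V → ℕ} {r g : ℕ} {C : Finset (Sym2 V)}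
    (hg : GirthAtLeast G g) (hC : ThickCirc G w r C) {v v' z : V} {t t' : Sym2 V} {k k' : ℕ}
    (h : Growth_Gr G v z t k) (h' : Growth_Gr G v' z t' k') (hvv : v ≠ v')
    (hv : ∃ e ∈ C, v ∈ e) (hv' : ∃ e ∈ C, v' ∈ e) (ht : t ∉ C) (ht' : t' ∉ C)
    (hk : (k + 1) + (k' + 1) ≤ r) (hk2 : r + ((k + 1) + (k' + 1)) < g) : False := by
  obtain ⟨p, hp, hl, hh⟩ := h
  obtain ⟨p', hp', hl', hh'⟩ := h'
  obtain ⟨c, hc1, hc2, hc3⟩ := hC.thick v v' hv hv' ⟨p.append p'.reverse, by
    rw [SimpleGraph.Walk.length_append, SimpleGraph.Walk.length_reverse]; omega⟩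
  have hnb : NB (c.append p') := by
    unfold NB
    rw [SimpleGraph.Walk.edges_append, List.isChain_append]
    refine ⟨hc2, hp', ?_⟩
    intro x hx y hy
    have hxC : x ∈ C := hc3 x (List.mem_of_mem_getLast? hx)
    rw [hh'] at hy
    have hyt : y = t' := (Option.some.inj hy).symm
    intro hxy
    rw [hxy, hyt] at hxC
    exact ht' hxC
  have he : c.append p' = p := by
    refine nb_unique hg _ _ hnb hp ?_
    rw [SimpleGraph.Walk.length_append]
    omega
  have hhe : (c.append p').edges.head? = some t := by rw [he, hh]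
  rw [SimpleGraph.Walk.edges_append] at hhe
  cases c with
  | nil => exact hvv rfl
  | cons h1 c1 =>
    rw [SimpleGraph.Walk.edges_cons, List.cons_append, List.head?_cons] at hhe
    have h2 := Option.some.inj hhe
    exact ht (h2 ▸ hc3 _ (by rw [SimpleGraph.Walk.edges_cons]; exact List.mem_cons_self))

omit [Fintype V] in
/-- the last step of a nonempty walk -/
private theorem Growth_last {G : SimpleGraph V} {v z : V} {k : ℕ} (p : G.Walk v z)
    (hl : p.length = k + 1) : ∃ (x : V) (q : G.Walk v x) (h : G.Adj x z), p = q.concat h := by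
  cases p with
  | nil => simp at hl
  | cons h p' => exact SimpleGraph.Walk.exists_cons_eq_concat h p'

omit [Fintype V] in
private theorem Growth_edges {G : SimpleGraph V} {v x z : V} (q : G.Walk v x) (h : G.Adj x z) :
    (q.concat h).edges = q.edges ++ [s(x, z)] := by
  rw [SimpleGraph.Walk.edges_concat, List.concat_eq_append]

/-- `z` is the predecessor of `y`. -/
private def Growth_Par (G : SimpleGraph V) (v : V) (t : Sym2 V) (k : ℕ) (z y : V) : Prop :=
  ∃ (p : G.Walk v z) (h : G.Adj z y), NB p ∧ p.length = k + 1 ∧ p.edges.head? = some t ∧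
    NB (p.concat h)

private theorem Growth_Par_Gr {G : SimpleGraph V} {v : V} {t : Sym2 V} {k : ℕ} {z y : V}
    (h : Growth_Par G v t k z y) : Growth_Gr G v y t (k + 1) := by
  obtain ⟨p, h1, h2, h3, h4, h5⟩ := h
  refine ⟨p.concat h1, h5, ?_, ?_⟩
  · rw [SimpleGraph.Walk.length_concat, h3]
  · rw [Growth_edges, List.head?_append, h4]
    rfl

omit [Fintype V] in
private theorem Growth_Par_unique {G : SimpleGraph V} {g : ℕ} (hg : GirthAtLeast G g) {v : V}
    {t : Sym2 V} {k : ℕ} {z z' y : V} (h : Growth_Par G v t k z y) (h' : Growth_Par G v t k z' y)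
    (hk : 2 * (k + 2) < g) : z = z' := by
  obtain ⟨p, h1, h2, h3, h4, h5⟩ := h
  obtain ⟨p', h1', h2', h3', h4', h5'⟩ := h'
  have he : p.concat h1 = p'.concat h1' := by
    refine nb_unique hg _ _ h5 h5' ?_
    rw [SimpleGraph.Walk.length_concat, SimpleGraph.Walk.length_concat]
    omega
  obtain ⟨hv, _⟩ := SimpleGraph.Walk.concat_inj he
  exact hv

private theorem Growth_two {G : SimpleGraph V} (h3 : IsCubic G) {v z : V} {t : Sym2 V} {k : ℕ}
    (h : Growth_Gr G v z t k) :
    2 ≤ ((Finset.univ : Finset V).filter (fun y => Growth_Par G v t k z y)).card := by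
  obtain ⟨p, hp, hl, hh⟩ := h
  obtain ⟨x, q, h0, hq⟩ := Growth_last p hl
  have hsub : (G.neighborSet z \ {x}) ⊆
      (((Finset.univ : Finset V).filter (fun y => Growth_Par G v t k z y) : Finset V) : Set V) := by
    intro y hy
    obtain ⟨hy1, hy2⟩ := hy
    rw [SimpleGraph.mem_neighborSet] at hy1
    rw [Finset.coe_filter]
    refine ⟨Finset.mem_univ _, p, hy1, hp, hl, hh, ?_⟩
    unfold NB
    rw [Growth_edges, List.isChain_append]
    refine ⟨hp, List.isChain_singleton _, ?_⟩
    intro e he f hf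
    rw [hq, Growth_edges, List.getLast?_append] at he
    have he' : e = s(x, z) := by
      simpa using he.symm
    have hf' : f = s(z, y) := by
      simpa using hf.symm
    rw [he', hf']
    intro hcon
    rw [Sym2.eq_iff] at hcon
    rcases hcon with ⟨h4, _⟩ | ⟨h4, _⟩
    · exact h0.ne h4
    · exact hy2 h4.symm
  have h4 := Set.ncard_le_ncard hsub (Finset.finite_toSet _)
  rw [Set.ncard_coe_finset] at h4
  have h5 := Set.le_ncard_sdiff ({x} : Set V) (G.neighborSet z)
  rw [Set.ncard_singleton, h3 z] at h5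
  omega

private theorem Growth_level {G : SimpleGraph V} {g : ℕ} (h3 : IsCubic G)
    (hg : GirthAtLeast G g) {v v1 : V} (hadj : G.Adj v v1) (k : ℕ) (hk : 2 * (k + 1) < g) :
    2 ^ k ≤ ((Finset.univ : Finset V).filter (fun z => Growth_Gr G v z s(v, v1) k)).card := by
  induction k with
  | zero =>
    rw [pow_zero, Nat.one_le_iff_ne_zero, Finset.card_ne_zero]
    refine ⟨v1, ?_⟩
    rw [Finset.mem_filter]
    refine ⟨Finset.mem_univ _, SimpleGraph.Walk.cons hadj SimpleGraph.Walk.nil, ?_, ?_, ?_⟩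
    · unfold NB
      rw [SimpleGraph.Walk.edges_cons, SimpleGraph.Walk.edges_nil]
      exact List.isChain_singleton _
    · simp
    · simp
  | succ k ih =>
    have ih' := ih (by omega)
    set Zk := (Finset.univ : Finset V).filter (fun z => Growth_Gr G v z s(v, v1) k) with hZk
    set ch : V → Finset V := fun z =>
      (Finset.univ : Finset V).filter (fun y => Growth_Par G v s(v, v1) k z y) with hch
    have hsub : Zk.biUnion ch ⊆
        (Finset.univ : Finset V).filter (fun z => Growth_Gr G v z s(v, v1) (k + 1)) := by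
      intro y hy
      rw [Finset.mem_biUnion] at hy
      obtain ⟨z, _, hz2⟩ := hy
      rw [hch, Finset.mem_filter] at hz2
      rw [Finset.mem_filter]
      exact ⟨Finset.mem_univ _, Growth_Par_Gr hz2.2⟩
    have hdis : (Zk : Set V).PairwiseDisjoint ch := by
      intro z _ z' _ hne
      rw [Function.onFun, Finset.disjoint_left]
      intro y hy hy'
      rw [hch, Finset.mem_filter] at hy hy'
      exact hne (Growth_Par_unique hg hy.2 hy'.2 (by omega))
    have h1 := Finset.card_le_card hsub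
    rw [Finset.card_biUnion hdis] at h1
    have h2 : ∑ _z ∈ Zk, 2 ≤ ∑ z ∈ Zk, (ch z).card := by
      refine Finset.sum_le_sum fun z hz => ?_
      rw [hZk, Finset.mem_filter] at hz
      exact Growth_two h3 hz.2
    rw [Finset.sum_const, smul_eq_mul] at h2
    rw [pow_succ]
    omega

private theorem Growth_in {G : SimpleGraph V} {w : Sym2 V → ℕ} {r g ρ : ℕ} {C : Finset (Sym2 V)}
    {X : Finset V} {a b : V} (hg : GirthAtLeast G g) (hρ : 2 * ρ + 2 ≤ r) (hrg : 2 * r < g)
    (hC : ThickCirc G w r C) (hB : Blocked G w C X a b) {v v1 : V} (hv : ∃ e ∈ C, v ∈ e)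
    (hv1 : v1 ∈ X) (ht : s(v, v1) ∉ C)
    (hbad : ∀ k ≤ ρ, ¬ Growth_Gr G v a s(v, v1) k) (k : ℕ) (hk : k ≤ ρ) (z : V)
    (hz : Growth_Gr G v z s(v, v1) k) : z ∈ X := by
  induction k generalizing z with
  | zero =>
    obtain ⟨p, hp, hl, hh⟩ := hz
    cases p with
    | nil => simp at hl
    | cons h p' =>
      rw [SimpleGraph.Walk.length_cons] at hl
      have hl' : p'.length = 0 := by omega
      have hz' := SimpleGraph.Walk.eq_of_length_eq_zero hl'
      rw [SimpleGraph.Walk.edges_cons, List.head?_cons] at hh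
      have h2 := Option.some.inj hh
      rw [Sym2.congr_right] at h2
      rw [← hz', h2]
      exact hv1
  | succ k ih =>
    obtain ⟨p, hp, hl, hh⟩ := hz
    obtain ⟨x, q, h0, hq⟩ := Growth_last p hl
    have hql : q.length = k + 1 := by
      rw [hq, SimpleGraph.Walk.length_concat] at hl
      omega
    have hqn : NB q := by
      unfold NB at hp ⊢
      rw [hq, Growth_edges] at hp
      exact (List.isChain_append.1 hp).1
    have hqh : q.edges.head? = some s(v, v1) := by
      rw [hq, Growth_edges] at hh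
      cases q with
      | nil => simp at hql
      | cons h1 q1 =>
        rw [SimpleGraph.Walk.edges_cons, List.cons_append, List.head?_cons] at hh
        rw [SimpleGraph.Walk.edges_cons, List.head?_cons, hh]
    have hx : Growth_Gr G v x s(v, v1) k := ⟨q, hqn, hql, hqh⟩
    have hxX := ih (by omega) x hx
    by_contra hzX
    rcases hB.cross x hxX z hzX h0 with ⟨h1, _⟩ | ⟨h1, _⟩
    · rw [h1] at hx
      exact hbad k (by omega) hx
    · exact ht (Growth_on hg hC hx hv ⟨_, h1, Sym2.mem_mk_left _ _⟩ (by omega) (by omega))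

theorem Blocked.growth {G : SimpleGraph V} {w : Sym2 V → ℕ} {r g ρ : ℕ} {C : Finset (Sym2 V)}
    {X : Finset V} {a b : V} (h3 : IsCubic G) (h12 : IsWeight12 G w) (hE : IsEulerian G w)
    (hg : GirthAtLeast G g) (hρ : 2 * ρ + 2 ≤ r) (hrg : 2 * r < g)
    (hC : ThickCirc G w r C) (hB : Blocked G w C X a b) :
    cr G X * 2 ^ ρ ≤ X.card + 2 * 2 ^ ρ := by
  set Y := X.filter (fun v => ∃ y, y ∉ X ∧ s(v, y) ∈ C) with hY
  have hcard : cr G X = Y.card + 1 := hB.out_card h3 h12 hE hC
  have hthird : ∀ v : V, ∃ v1 : V, v ∈ Y → (v1 ∈ X ∧ G.Adj v v1 ∧ s(v, v1) ∉ C) := by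
    intro v
    by_cases hv : v ∈ Y
    · have hv' := hv
      rw [hY, Finset.mem_filter] at hv'
      obtain ⟨hvX, y, hy, hf⟩ := hv'
      obtain ⟨v1, h1, h2, h4⟩ := hB.third h3 h12 hE hC hvX hy hf
      exact ⟨v1, fun _ => ⟨h1, h2, h4⟩⟩
    · exact ⟨v, fun h => absurd h hv⟩
  choose n1 hn1 using hthird
  have hon : ∀ v ∈ Y, ∃ e ∈ C, v ∈ e := by
    intro v hv
    rw [hY, Finset.mem_filter] at hv
    obtain ⟨_, y, _, hf⟩ := hv
    exact ⟨_, hf, Sym2.mem_mk_left _ _⟩
  set bad : V → Prop := fun v => ∃ k ≤ ρ, Growth_Gr G v a s(v, n1 v) k with hbad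
  have hbad1 : (Y.filter bad).card ≤ 1 := by
    rw [Finset.card_le_one]
    intro v hv v' hv'
    rw [Finset.mem_filter] at hv hv'
    obtain ⟨hvY, k, hk, hG⟩ := hv
    obtain ⟨hvY', k', hk', hG'⟩ := hv'
    by_contra hne
    exact Growth_disj hg hC hG hG' hne (hon v hvY) (hon v' hvY') (hn1 v hvY).2.2
      (hn1 v' hvY').2.2 (by omega) (by omega)
  set Y' := Y.filter (fun v => ¬ bad v) with hY'
  have hYY : Y.card ≤ Y'.card + 1 := by
    have h1 : (Y.filter bad).card + Y'.card = Y.card := by
      rw [hY']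
      convert Finset.card_filter_add_card_filter_not (s := Y) bad
    omega
  set Z : V → Finset V := fun v =>
    (Finset.univ : Finset V).filter (fun z => Growth_Gr G v z s(v, n1 v) ρ) with hZ
  have hZX : Y'.biUnion Z ⊆ X := by
    intro z hz
    rw [Finset.mem_biUnion] at hz
    obtain ⟨v, hv, hz⟩ := hz
    rw [hY', Finset.mem_filter] at hv
    rw [hZ, Finset.mem_filter] at hz
    obtain ⟨hvY, hvb⟩ := hv
    refine Growth_in hg hρ hrg hC hB (hon v hvY) (hn1 v hvY).1 (hn1 v hvY).2.2 ?_ ρ le_rfl z hz.2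
    intro k hk hG
    exact hvb ⟨k, hk, hG⟩
  have hdis : (Y' : Set V).PairwiseDisjoint Z := by
    intro v hv v' hv' hne
    rw [Function.onFun, Finset.disjoint_left]
    intro z hz hz'
    rw [hZ, Finset.mem_filter] at hz hz'
    have hvY : v ∈ Y := (Finset.mem_filter.1 hv).1
    have hvY' : v' ∈ Y := (Finset.mem_filter.1 hv').1
    exact Growth_disj hg hC hz.2 hz'.2 hne (hon v hvY) (hon v' hvY') (hn1 v hvY).2.2
      (hn1 v' hvY').2.2 (by omega) (by omega)
  have h1 := Finset.card_le_card hZX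
  rw [Finset.card_biUnion hdis] at h1
  have h2 : ∑ _v ∈ Y', 2 ^ ρ ≤ ∑ v ∈ Y', (Z v).card := by
    refine Finset.sum_le_sum fun v hv => ?_
    have hvY : v ∈ Y := (Finset.mem_filter.1 hv).1
    exact Growth_level h3 hg (hn1 v hvY).2.1 ρ (by omega)
  rw [Finset.sum_const, smul_eq_mul] at h2
  have h4 : cr G X ≤ Y'.card + 2 := by omega
  calc cr G X * 2 ^ ρ ≤ (Y'.card + 2) * 2 ^ ρ := Nat.mul_le_mul_right _ h4
    _ = Y'.card * 2 ^ ρ + 2 * 2 ^ ρ := by ring
    _ ≤ X.card + 2 * 2 ^ ρ := Nat.add_le_add_right (h2.trans h1) _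

end GE
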