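import Mathlib

/-!
# GE/PathSum : existence of a closed walk without bad pairs (abstract, union bound)

Paper proof. For `x : Fin (ℓ+1) → S` (or lists) put `W x = ∏_{i<ℓ} q (x i) (x (i+1))`. Then
`Σ_{x, x 0 = x ℓ} W x = trace (q^ℓ)` and for `0 ≤ i < j < ℓ`
`Σ_{x, x 0 = x ℓ, near (x i) (x j)} W x
  = Σ_{a} Σ_{c,d, near c d} (q^i) a c (q^(j-i)) c d (q^(ℓ-j)) d a
  = Σ_{c,d, near c d} (q^(j-i)) c d (q^(ℓ-j+i)) d c`
which is at most `η` if `B (j-i)`. There are at most `ℓ²` pairs `(i,j)`, all weights are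
nonnegative, so if `ℓ² η < trace (q^ℓ)` some `x` with `x 0 = x ℓ` and `W x > 0` has no bad pair;
extend it periodically.

A convenient way in Lean: define by recursion on `n` the functional
`ex n F a` for `F : List S → ℝ` (or `F : (ℕ → S) → ℝ`) by `ex 0 F a = F [a]`,
`ex (n+1) F a = Σ_b q a b * ex n (fun L => F (a :: L)) b`; it is linear and monotone in `F`, and the
formulas for functions depending only on the entries number `i, j, n` follow by induction on `i`,
then `j`.
-/

noncomputable section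

namespace GE

universe u

namespace PathSumAux

variable {S : Type u} [Fintype S] [DecidableEq S]

/-- prepend a value to a sequence -/
def cns (a : S) (x : ℕ → S) : ℕ → S
  | 0 => a
  | k + 1 => x k

/-- weighted sum of `F` over the paths of length `n` from `a` (constant after time `n`). -/
def ex (q : Matrix S S ℝ) : ℕ → ((ℕ → S) → ℝ) → S → ℝ
  | 0, F, a => F (fun _ => a)
  | n + 1, F, a => ∑ b, q a b * ex q n (fun x => F (cns a x)) b

theorem ex_zero (q : Matrix S S ℝ) (n : ℕ) (a : S) : ex q n (fun _ => 0) a = 0 := by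
  induction n generalizing a with
  | zero => rfl
  | succ n ih =>
    simp only [ex]
    exact Finset.sum_eq_zero fun b _ => by rw [ih b, mul_zero]

theorem ex_add (q : Matrix S S ℝ) (n : ℕ) (F G : (ℕ → S) → ℝ) (a : S) :
    ex q n (fun x => F x + G x) a = ex q n F a + ex q n G a := by
  induction n generalizing a F G with
  | zero => rfl
  | succ n ih =>
    simp only [ex]
    rw [← Finset.sum_add_distrib]
    exact Finset.sum_congr rfl fun b _ => by
      rw [ih (fun x => F (cns a x)) (fun x => G (cns a x)) b]; ring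

theorem ex_sub (q : Matrix S S ℝ) (n : ℕ) (F G : (ℕ → S) → ℝ) (a : S) :
    ex q n (fun x => F x - G x) a = ex q n F a - ex q n G a := by
  induction n generalizing a F G with
  | zero => rfl
  | succ n ih =>
    simp only [ex]
    rw [← Finset.sum_sub_distrib]
    exact Finset.sum_congr rfl fun b _ => by
      rw [ih (fun x => F (cns a x)) (fun x => G (cns a x)) b]; ring

theorem ex_sum (q : Matrix S S ℝ) (n : ℕ) {ι : Type} (s : Finset ι)
    (F : ι → (ℕ → S) → ℝ) (a : S) :
    ex q n (fun x => ∑ i ∈ s, F i x) a = ∑ i ∈ s, ex q n (F i) a := by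
  classical
  induction s using Finset.induction_on with
  | empty => simp only [Finset.sum_empty]; exact ex_zero q n a
  | insert i s hi ih =>
    simp only [Finset.sum_insert hi]
    rw [ex_add q n (F i) (fun x => ∑ i ∈ s, F i x) a, ih]

theorem ex_head (q : Matrix S S ℝ) (n : ℕ) (F G : (ℕ → S) → ℝ) (a : S)
    (h : ∀ x : ℕ → S, x 0 = a → F x = G x) : ex q n F a = ex q n G a := by
  cases n with
  | zero => exact h _ rfl
  | succ n =>
    simp only [ex]
    refine Finset.sum_congr rfl fun b _ => ?_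
    have : (fun x => F (cns a x)) = (fun x => G (cns a x)) := by
      funext x; exact h _ rfl
    rw [this]

/-- positive functionals have a positive path -/
theorem ex_pos (q : Matrix S S ℝ) (hq : ∀ a b, 0 ≤ q a b) (n : ℕ) (F : (ℕ → S) → ℝ) (a : S)
    (h : 0 < ex q n F a) :
    ∃ x : ℕ → S, x 0 = a ∧ (∀ i, i < n → 0 < q (x i) (x (i + 1))) ∧ 0 < F x := by
  induction n generalizing a F with
  | zero => exact ⟨fun _ => a, rfl, fun i hi => absurd hi (Nat.not_lt_zero i), h⟩
  | succ n ih =>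
    simp only [ex] at h
    obtain ⟨b, -, hb⟩ := Finset.exists_lt_of_sum_lt
      (f := fun _ : S => (0 : ℝ)) (s := Finset.univ) (by simpa using h)
    have hqb : 0 < q a b := by
      rcases (hq a b).lt_or_eq with h1 | h1
      · exact h1
      · rw [← h1, zero_mul] at hb; exact absurd hb (lt_irrefl _)
    have hE : 0 < ex q n (fun x => F (cns a x)) b := by
      by_contra hc
      exact absurd hb (not_lt.mpr (mul_nonpos_of_nonneg_of_nonpos hqb.le (not_lt.mp hc)))
    obtain ⟨x, hx0, hx1, hx2⟩ := ih _ b hE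
    refine ⟨cns a x, rfl, fun i hi => ?_, hx2⟩
    cases i with
    | zero => change 0 < q a (x 0); rw [hx0]; exact hqb
    | succ i => exact hx1 i (by omega)

theorem sum_one_mul (a : S) (g : S → ℝ) : ∑ b, (1 : Matrix S S ℝ) a b * g b = g a := by
  rw [Finset.sum_eq_single a]
  · rw [Matrix.one_apply_eq, one_mul]
  · intro b _ hb
    rw [Matrix.one_apply_ne (Ne.symm hb), zero_mul]
  · intro h; exact absurd (Finset.mem_univ a) h

theorem sum_succ_mul (q : Matrix S S ℝ) (n : ℕ) (a : S) (g : S → ℝ) :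
    ∑ b, q a b * ∑ c, (q ^ n) b c * g c = ∑ c, (q ^ (n + 1)) a c * g c := by
  have h1 : ∀ c, (q ^ (n + 1)) a c = ∑ b, q a b * (q ^ n) b c := by
    intro c; rw [pow_succ', Matrix.mul_apply]
  simp only [h1, Finset.mul_sum, Finset.sum_mul]
  rw [Finset.sum_comm]
  exact Finset.sum_congr rfl fun c _ => Finset.sum_congr rfl fun b _ => by ring

theorem ex_last (q : Matrix S S ℝ) (n : ℕ) (g : S → ℝ) (a : S) :
    ex q n (fun x => g (x n)) a = ∑ b, (q ^ n) a b * g b := by
  induction n generalizing a with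
  | zero => rw [pow_zero, sum_one_mul]; rfl
  | succ n ih =>
    rw [← sum_succ_mul]
    simp only [ex]
    exact Finset.sum_congr rfl fun b _ => by rw [← ih b]; rfl

theorem ex_two (q : Matrix S S ℝ) (j m : ℕ) (φ : S → S → ℝ) (a : S) :
    ex q (j + m) (fun x => φ (x j) (x (j + m))) a
      = ∑ c, (q ^ j) a c * ∑ d, (q ^ m) c d * φ c d := by
  induction j generalizing a with
  | zero =>
    rw [pow_zero, sum_one_mul, Nat.zero_add, ← ex_last q m (φ a) a]
    exact ex_head q m _ _ a fun x hx => by simp only [hx, Nat.zero_add]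
  | succ j ih =>
    rw [← sum_succ_mul, show j + 1 + m = (j + m) + 1 by omega]
    simp only [ex]
    exact Finset.sum_congr rfl fun b _ => by rw [← ih b]; rfl

theorem ex_three (q : Matrix S S ℝ) (i k m : ℕ) (ψ : S → S → S → ℝ) (a : S) :
    ex q (i + (k + m)) (fun x => ψ (x i) (x (i + k)) (x (i + (k + m)))) a
      = ∑ c, (q ^ i) a c * ∑ d, (q ^ k) c d * ∑ e, (q ^ m) d e * ψ c d e := by
  induction i generalizing a with
  | zero =>
    rw [pow_zero, sum_one_mul, Nat.zero_add, ← ex_two q k m (ψ a) a]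
    exact ex_head q (k + m) _ _ a fun x hx => by simp only [hx, Nat.zero_add]
  | succ i ih =>
    rw [← sum_succ_mul, show i + 1 + (k + m) = (i + (k + m)) + 1 by omega,
      show i + 1 + k = (i + k) + 1 by omega]
    simp only [ex]
    exact Finset.sum_congr rfl fun b _ => by rw [← ih b]; rfl

theorem trace_eq (q : Matrix S S ℝ) (ℓ : ℕ) :
    ∑ a, ex q ℓ (fun x => if x ℓ = a then (1 : ℝ) else 0) a = (q ^ ℓ).trace := by
  rw [Matrix.trace]
  refine Finset.sum_congr rfl fun a _ => ?_
  rw [ex_last q ℓ (fun b => if b = a then (1 : ℝ) else 0) a, Matrix.diag_apply]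
  simp

theorem bad_eq (q : Matrix S S ℝ) (i k m : ℕ) (near : S → S → Prop) [DecidableRel near] :
    ∑ a, ex q (i + (k + m)) (fun x => if near (x i) (x (i + k)) then
        (if x (i + (k + m)) = a then (1 : ℝ) else 0) else 0) a
      = ∑ c, ∑ d, (if near c d then (q ^ k) c d * (q ^ (m + i)) d c else 0) := by
  have h1 : ∀ a, ex q (i + (k + m)) (fun x => if near (x i) (x (i + k)) then
        (if x (i + (k + m)) = a then (1 : ℝ) else 0) else 0) a
      = ∑ c, ∑ d, (if near c d then (q ^ k) c d * ((q ^ m) d a * (q ^ i) a c) else 0) := by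
    intro a
    rw [ex_three q i k m
      (fun c d e => if near c d then (if e = a then (1 : ℝ) else 0) else 0) a]
    refine Finset.sum_congr rfl fun c _ => ?_
    rw [Finset.mul_sum]
    refine Finset.sum_congr rfl fun d _ => ?_
    by_cases hn : near c d
    · simp only [if_pos hn, mul_ite, mul_one, mul_zero, Finset.sum_ite_eq', Finset.mem_univ,
        if_true]
      ring
    · simp only [if_neg hn, mul_zero, Finset.sum_const_zero]
  simp only [h1]
  rw [Finset.sum_comm]
  refine Finset.sum_congr rfl fun c _ => ?_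
  rw [Finset.sum_comm]
  refine Finset.sum_congr rfl fun d _ => ?_
  by_cases hn : near c d
  · simp only [if_pos hn]
    rw [← Finset.mul_sum, pow_add, Matrix.mul_apply]
  · simp only [if_neg hn, Finset.sum_const_zero]

end PathSumAux

open PathSumAux in
theorem exists_good_closed {S : Type u} [Fintype S] [DecidableEq S] (q : Matrix S S ℝ)
    (hq : ∀ a b, 0 ≤ q a b) (ℓ : ℕ) (hℓ : 0 < ℓ) (near : S → S → Prop) [DecidableRel near]
    (B : ℕ → Prop) (η : ℝ) (hη0 : 0 ≤ η)
    (hη : ∀ k, 0 < k → k < ℓ → B k →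
      ∑ a, ∑ b, (if near a b then (q ^ k) a b * (q ^ (ℓ - k)) b a else 0) ≤ η)
    (hlt : (ℓ : ℝ) ^ 2 * η < (q ^ ℓ).trace) :
    ∃ x : ℕ → S, (∀ i, x (i + ℓ) = x i) ∧ (∀ i, 0 < q (x i) (x (i + 1))) ∧
      ∀ i j, i < j → j < ℓ → B (j - i) → ¬ near (x i) (x j) := by
  classical
  let P : Finset (ℕ × ℕ) :=
    (Finset.range ℓ ×ˢ Finset.range ℓ).filter (fun p => p.1 < p.2 ∧ B (p.2 - p.1))
  have hPc : (P.card : ℝ) ≤ (ℓ : ℝ) ^ 2 := by
    have h1 : P.card ≤ ℓ * ℓ := by
      refine (Finset.card_filter_le _ _).trans ?_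
      rw [Finset.card_product, Finset.card_range]
    calc (P.card : ℝ) ≤ ((ℓ * ℓ : ℕ) : ℝ) := by exact_mod_cast h1
      _ = (ℓ : ℝ) ^ 2 := by push_cast; ring
  let T : S → (ℕ → S) → ℝ := fun a x => if x ℓ = a then 1 else 0
  let Bd : S → ℕ × ℕ → (ℕ → S) → ℝ := fun a p x =>
    if near (x p.1) (x p.2) then (if x ℓ = a then 1 else 0) else 0
  have hbad : ∀ p ∈ P, ∑ a, ex q ℓ (Bd a p) a ≤ η := by
    intro p hp
    rw [Finset.mem_filter, Finset.mem_product, Finset.mem_range, Finset.mem_range] at hp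
    obtain ⟨⟨-, h2⟩, h3, h4⟩ := hp
    obtain ⟨i, j⟩ := p
    simp only at h2 h3 h4
    obtain ⟨k, rfl⟩ := Nat.exists_eq_add_of_lt h3
    obtain ⟨m, rfl⟩ := Nat.exists_eq_add_of_lt h2
    have e1 : i + k + 1 - i = k + 1 := by omega
    rw [e1] at h4
    have h5 := hη (k + 1) (by omega) (by omega) h4
    have e2 : i + k + 1 + m + 1 - (k + 1) = (m + 1) + i := by omega
    rw [e2] at h5
    have h6 := bad_eq q i (k + 1) (m + 1) near
    have e3 : i + ((k + 1) + (m + 1)) = i + k + 1 + m + 1 := by omega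
    rw [e3, show i + (k + 1) = i + k + 1 by omega] at h6
    rw [← h6] at h5
    exact h5
  have htot : 0 < ∑ a, ex q ℓ (fun x => T a x - ∑ p ∈ P, Bd a p x) a := by
    have h1 : ∀ a, ex q ℓ (fun x => T a x - ∑ p ∈ P, Bd a p x) a
        = ex q ℓ (T a) a - ∑ p ∈ P, ex q ℓ (Bd a p) a := by
      intro a
      rw [ex_sub q ℓ (T a) (fun x => ∑ p ∈ P, Bd a p x) a, ex_sum]
    simp only [h1]
    rw [Finset.sum_sub_distrib, Finset.sum_comm]
    have h2 : ∑ a, ex q ℓ (T a) a = (q ^ ℓ).trace := trace_eq q ℓ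
    have h3 : ∑ p ∈ P, ∑ a, ex q ℓ (Bd a p) a ≤ P.card * η := by
      refine (Finset.sum_le_sum hbad).trans ?_
      rw [Finset.sum_const, nsmul_eq_mul]
    have h4 : (P.card : ℝ) * η ≤ (ℓ : ℝ) ^ 2 * η := mul_le_mul_of_nonneg_right hPc hη0
    linarith
  obtain ⟨a, -, ha⟩ := Finset.exists_lt_of_sum_lt
      (f := fun _ : S => (0 : ℝ)) (s := Finset.univ) (by simpa using htot)
  obtain ⟨x, hx0, hx1, hx2⟩ := ex_pos q hq ℓ _ a ha
  have hnn : ∀ p ∈ P, 0 ≤ Bd a p x := by
    intro p _
    simp only [Bd]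
    split_ifs <;> norm_num
  have hTx : x ℓ = a := by
    by_contra hc
    have h1 : T a x = 0 := by simp only [T]; rw [if_neg hc]
    have h2 := Finset.sum_nonneg hnn
    rw [h1] at hx2
    linarith
  have hgood : ∀ i j, i < j → j < ℓ → B (j - i) → ¬ near (x i) (x j) := by
    intro i j hij hj hB hn
    have hmem : (i, j) ∈ P := by
      rw [Finset.mem_filter, Finset.mem_product, Finset.mem_range, Finset.mem_range]
      exact ⟨⟨hij.trans hj, hj⟩, hij, hB⟩
    have h1 : T a x = 1 := by simp only [T]; rw [if_pos hTx]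
    have h2 : Bd a (i, j) x = 1 := by simp only [Bd]; rw [if_pos hn, if_pos hTx]
    have h3 := Finset.single_le_sum hnn hmem
    rw [h1] at hx2
    rw [h2] at h3
    linarith
  have hcyc : x ℓ = x 0 := hTx.trans hx0.symm
  refine ⟨fun i => x (i % ℓ), fun i => ?_, fun i => ?_, fun i j hij hj hB => ?_⟩
  · simp only [Nat.add_mod_right]
  · have hlt' : i % ℓ < ℓ := Nat.mod_lt i hℓ
    have h1 := hx1 (i % ℓ) hlt'
    have h2 : x ((i + 1) % ℓ) = x (i % ℓ + 1) := by
      rcases Nat.lt_or_ge (i % ℓ + 1) ℓ with h3 | h3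
      · rw [Nat.add_mod, ← Nat.mod_mod i ℓ]
        congr 1
        rw [Nat.mod_mod]
        have : 1 % ℓ = 1 := Nat.mod_eq_of_lt (by omega)
        rw [this, Nat.mod_eq_of_lt h3]
      · have h4 : i % ℓ + 1 = ℓ := by omega
        rw [h4, hcyc]
        congr 1
        have h5 : i + 1 = ℓ * (i / ℓ + 1) := by
          have := Nat.div_add_mod i ℓ
          rw [Nat.mul_add, Nat.mul_one]
          omega
        rw [h5, Nat.mul_mod_right]
    simp only [h2]
    exact h1
  · simp only [Nat.mod_eq_of_lt (hij.trans hj), Nat.mod_eq_of_lt hj]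
    exact hgood i j hij hj hB

end GE
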