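import Pool.Agent.H74.GE.Removable
import Pool.Agent.H74.GE.CircThick
import Pool.Agent.H74.GE.DartPoinc
import Pool.Agent.H74.GE.Decay
import Pool.Agent.H74.GE.Dense
import Pool.Agent.H74.GE.PathSum
import Pool.Agent.H74.GE.Consts

/-!
# GE/Main : expanders of girth at least `K (1 + log (1 + log n))` have removable circuits
-/

open scoped Classical

noncomputable section

namespace GE

universe u

theorem Main_pair {V : Type u} [Fintype V] {G : SimpleGraph V} (M : Matrix G.Dart G.Dart ℝ)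
    (hM : ∀ a b, 0 ≤ M a b) (hstep : ∀ a b, 0 < M a b → b.fst = a.snd ∧ b ≠ a.symm)
    {g r t : ℕ} (hg : GirthAtLeast G g) (hrt : r < t) {a b : G.Dart}
    (hnear : ∃ p : G.Walk a.fst b.fst, p.length ≤ r) (hpos : 0 < (M ^ t) a b) : g ≤ t + r := by
  obtain ⟨q, hq1, hq2⟩ := exists_nb_of_walk hnear
  obtain ⟨p, hp1, hp2⟩ := pow_pos_nb M hM hstep t a b hpos
  by_contra hlt
  have h := nb_unique hg p q hp2 hq2 (by omega)
  rw [h] at hp1
  omega

theorem exists_removable (ε : ℝ) (hε : 0 < ε) :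
    ∃ K : ℝ, 1 ≤ K ∧ ∀ (V : Type u) [Fintype V] [Nonempty V] (G : SimpleGraph V),
      IsCubic G → SpectralGap G ε →
      (∀ (v : V) (p : G.Walk v v), p.IsCycle →
        K * (1 + Real.log (1 + Real.log (Fintype.card V))) ≤ p.length) →
      ∀ w : Sym2 V → ℕ, IsWeight12 G w → IsEulerian G w → ∃ C, IsRemovable G w C := by
  set κ : ℝ := 4 + 24 / ε with hκdef
  have hκ : 0 ≤ κ := by positivity
  obtain ⟨k, hk, hk2⟩ : ∃ k : ℕ, 2 ≤ k ∧ 50 * κ ^ 2 ≤ (k : ℝ) - 1 := by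
    refine ⟨⌈50 * κ ^ 2⌉₊ + 2, by omega, ?_⟩
    have := Nat.le_ceil (50 * κ ^ 2)
    push_cast
    linarith
  have hkR : (2 : ℝ) ≤ k := by exact_mod_cast hk
  obtain ⟨m, γ, hγ, hm, hD⟩ := dense_closed.{u} (32 * (k : ℝ)) (by linarith)
  obtain ⟨ρ, hρε⟩ : ∃ ρ : ℕ, 4 / ε ≤ (2 : ℝ) ^ ρ := by
    obtain ⟨ρ, h⟩ := pow_unbounded_of_one_lt (4 / ε) (by norm_num : (1 : ℝ) < 2)
    exact ⟨ρ, h.le⟩
  set r : ℕ := 2 * ρ + 2 with hr
  set g₀ : ℕ := max (2 * r + 1) (⌈8 / ε⌉₊ + 1) with hg0def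
  set N : ℝ := 3 * 4 ^ r * (32 * k) with hN
  have hN0 : 0 ≤ N := by positivity
  obtain ⟨K, hK1, hK⟩ := exists_K m k r g₀ N γ hk hN0 hγ
  refine ⟨K, hK1, ?_⟩
  intro V _ _ G h3 hgap hgirth w h12 hE
  set n : ℕ := Fintype.card V with hn
  have hn1 : 1 ≤ n := Fintype.card_pos
  set g : ℕ := ⌈K * (1 + Real.log (1 + Real.log n))⌉₊ with hgdef
  have hg : GirthAtLeast G g := fun v p hp => Nat.ceil_le.mpr (hgirth v p hp)
  have hgn : g ≤ n := cubic_card_ge h3 hg
  obtain ⟨hg0, hlt⟩ := hK n g hn1 (Nat.le_ceil _) hgn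
  have hrg2 : 2 * r < g := lt_of_lt_of_le (by omega) (le_trans (le_max_left _ _) hg0)
  have hgε : 8 / ε < g := by
    have h1 : ⌈8 / ε⌉₊ + 1 ≤ g := le_trans (le_max_right _ _) hg0
    have h2 : ((⌈8 / ε⌉₊ + 1 : ℕ) : ℝ) ≤ g := by exact_mod_cast h1
    have h3 := Nat.le_ceil (8 / ε)
    push_cast at h2
    linarith
  set c := dartChain G w h3 h12 hE with hc
  have hP : c.Poinc κ := dartChain_poinc h3 h12 hE hε hgap
  obtain ⟨v₀⟩ := ‹Nonempty V›
  obtain ⟨a₀, -, -⟩ := exists_two h3 h12 hE v₀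
  haveI : Nonempty G.Dart := ⟨a₀⟩
  have hcard : Fintype.card G.Dart = 3 * n := card_dart h3
  have hnR : (1 : ℝ) ≤ n := by exact_mod_cast hn1
  have hZ1 : (3 : ℝ) * n ≤ c.Z := by
    have : (Fintype.card G.Dart : ℝ) ≤ c.Z := by
      unfold Chain.Z
      calc (Fintype.card G.Dart : ℝ) = ∑ _a : G.Dart, (1 : ℝ) := by simp
        _ ≤ ∑ a, c.μ a := Finset.sum_le_sum fun a _ => c.one_le a
    rw [hcard] at this
    push_cast at this
    exact this
  have hZ2 : c.Z ≤ 6 * n := by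
    have : c.Z ≤ 2 * (Fintype.card G.Dart : ℝ) := by
      unfold Chain.Z
      calc ∑ a, c.μ a ≤ ∑ _a : G.Dart, (2 : ℝ) := Finset.sum_le_sum fun a _ => c.le_two a
        _ = 2 * (Fintype.card G.Dart : ℝ) := by simp [mul_comm]
    rw [hcard] at this
    push_cast at this
    linarith
  have hZ0 : 0 < c.Z := by linarith
  set θ : ℝ := 1 - 1 / (k : ℝ) with hθ
  have hθ0 : 0 ≤ θ := by
    have : 1 / (k : ℝ) ≤ 1 := by
      rw [div_le_one (by linarith)]; linarith
    linarith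
  have hθ1 : θ ≤ 1 := by
    have : 0 ≤ 1 / (k : ℝ) := by positivity
    linarith
  set τ : ℕ := tau k n with hτ
  have hτ1 : 1 ≤ τ := by
    have h1 : 0 < (k : ℝ) * Real.log (6 * n) :=
      mul_pos (by linarith) (Real.log_pos (by linarith))
    have h2 : 1 ≤ ⌈(k : ℝ) * Real.log (6 * n)⌉₊ := Nat.one_le_ceil_iff.mpr h1
    calc 1 = 1 * 1 := rfl
      _ ≤ k * ⌈(k : ℝ) * Real.log (6 * n)⌉₊ := Nat.mul_le_mul (by omega) h2
  have hMn : ∀ a b, 0 ≤ c.mat a b := c.mat_nonneg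
  have hMp : ∀ j a b, 0 ≤ (c.mat ^ j) a b := c.mat_pow_nonneg
  have hMle : ∀ j a b, (c.mat ^ j) a b ≤ max (2 * θ ^ (j / 2 / k)) (32 * k / c.Z) :=
    c.mat_pow_le hκ hP hk hk2
  have hstep : ∀ a b, 0 < c.mat a b → b.fst = a.snd ∧ b ≠ a.symm := fun a b h =>
    ⟨(dartChain_mat_pos h3 h12 hE h).1, (dartChain_mat_pos h3 h12 hE h).2.1⟩
  have hbig : ∀ j a b, τ ≤ j / 2 → (c.mat ^ j) a b ≤ 32 * k / c.Z := by
    intro j a b hj
    refine le_trans (hMle j a b) (max_le ?_ le_rfl)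
    exact tau_ok hk hn1 hZ0 hZ2 (Nat.div_le_div_right hj)
  -- closed walks
  obtain ⟨kk, hkk1, hkk2, htr⟩ := hD G.Dart (c.mat ^ (4 * τ)) (hMp _)
    (fun a => c.mat_pow_sum _ a) (by
      intro a b
      refine le_trans (hbig (4 * τ) a b (by omega)) ?_
      rw [hcard]
      push_cast
      exact div_le_div_of_nonneg_left (by positivity) (by linarith) hZ1)
  rw [← pow_mul] at htr
  set ℓ : ℕ := 4 * τ * kk with hℓ
  have hℓτ : 4 * τ ≤ ℓ := by
    calc 4 * τ = 4 * τ * 1 := by ring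
      _ ≤ 4 * τ * kk := Nat.mul_le_mul_left _ hkk1
  have hℓ0 : 0 < ℓ := by omega
  have hℓm : ℓ ≤ 4 * m * τ := by
    calc 4 * τ * kk ≤ 4 * τ * m := Nat.mul_le_mul_left _ hkk2
      _ = 4 * m * τ := by ring
  set near : G.Dart → G.Dart → Prop := fun a b => ∃ p : G.Walk a.fst b.fst, p.length ≤ r
    with hnear
  set M1 : ℝ := 2 * θ ^ ((g - r) / 2 / k) + 32 * k / (3 * n) with hM1
  have hM10 : 0 ≤ M1 := by positivity
  have hZk : 32 * (k : ℝ) / c.Z ≤ 32 * k / (3 * n) :=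
    div_le_div_of_nonneg_left (by positivity) (by linarith) hZ1
  have hsmall : ∀ j a b, g - r ≤ j → (c.mat ^ j) a b ≤ M1 := by
    intro j a b hj
    refine le_trans (hMle j a b) (max_le ?_ ?_)
    · have h1 : θ ^ (j / 2 / k) ≤ θ ^ ((g - r) / 2 / k) :=
        pow_le_pow_of_le_one hθ0 hθ1 (Nat.div_le_div_right (Nat.div_le_div_right hj))
      have h2 : 0 ≤ 32 * (k : ℝ) / (3 * n) := by positivity
      linarith
    · have h2 : 0 ≤ 2 * θ ^ ((g - r) / 2 / k) := by positivity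
      linarith
  have hZk0 : 0 ≤ 32 * (k : ℝ) / c.Z := by positivity
  have hpair : ∀ t, 0 < t → t < ℓ → r < t → r < ℓ - t → ∀ a b, near a b →
      (c.mat ^ t) a b * (c.mat ^ (ℓ - t)) b a ≤ 32 * k / c.Z * M1 := by
    intro t ht0 htl hrt hrt' a b hab
    have hba : near b a := by
      obtain ⟨p, hp⟩ := hab
      exact ⟨p.reverse, by rw [SimpleGraph.Walk.length_reverse]; exact hp⟩
    rcases eq_or_lt_of_le (hMp t a b) with h0 | h1
    · rw [← h0, zero_mul]; positivity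
    rcases eq_or_lt_of_le (hMp (ℓ - t) b a) with h0 | h2
    · rw [← h0, mul_zero]; positivity
    rcases le_total t (ℓ - t) with hle | hle
    · have hg' := Main_pair c.mat hMn hstep hg hrt hab h1
      calc (c.mat ^ t) a b * (c.mat ^ (ℓ - t)) b a
          ≤ M1 * (32 * k / c.Z) :=
            mul_le_mul (hsmall t a b (by omega)) (hbig (ℓ - t) b a (by omega)) (hMp _ _ _) hM10
        _ = 32 * k / c.Z * M1 := mul_comm _ _
    · have hg' := Main_pair c.mat hMn hstep hg hrt' hba h2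
      exact mul_le_mul (hbig t a b (by omega)) (hsmall (ℓ - t) b a (by omega)) (hMp _ _ _) hZk0
  have hη : ∀ t, 0 < t → t < ℓ → (r < t ∧ r < ℓ - t) →
      ∑ a, ∑ b, (if near a b then (c.mat ^ t) a b * (c.mat ^ (ℓ - t)) b a else 0) ≤ N * M1 := by
    intro t ht0 htl hB
    have h1 : ∀ a : G.Dart,
        ∑ b, (if near a b then (c.mat ^ t) a b * (c.mat ^ (ℓ - t)) b a else 0)
          ≤ 3 * 4 ^ r * (32 * k / c.Z * M1) := by
      intro a
      calc ∑ b, (if near a b then (c.mat ^ t) a b * (c.mat ^ (ℓ - t)) b a else 0)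
          ≤ ∑ b, (if near a b then 32 * k / c.Z * M1 else 0) := by
            refine Finset.sum_le_sum fun b _ => ?_
            split_ifs with h
            · exact hpair t ht0 htl hB.1 hB.2 a b h
            · exact le_rfl
        _ = ((Finset.univ.filter (fun b : G.Dart => near a b)).card : ℝ)
              * (32 * k / c.Z * M1) := by
            rw [← Finset.sum_filter, Finset.sum_const, nsmul_eq_mul]
        _ ≤ 3 * 4 ^ r * (32 * k / c.Z * M1) := by
            refine mul_le_mul_of_nonneg_right ?_ (by positivity)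
            have := near_card h3 r a.fst
            exact_mod_cast this
    calc ∑ a, ∑ b, (if near a b then (c.mat ^ t) a b * (c.mat ^ (ℓ - t)) b a else 0)
        ≤ ∑ _a : G.Dart, 3 * 4 ^ r * (32 * k / c.Z * M1) := Finset.sum_le_sum fun a _ => h1 a
      _ = (3 * n) * (3 * 4 ^ r * (32 * k / c.Z * M1)) := by
          rw [Finset.sum_const, Finset.card_univ, hcard, nsmul_eq_mul]; push_cast; ring
      _ = ((3 * n) / c.Z) * (3 * 4 ^ r * (32 * k) * M1) := by ring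
      _ ≤ 1 * (3 * 4 ^ r * (32 * k) * M1) := by
          refine mul_le_mul_of_nonneg_right ?_ (by positivity)
          rw [div_le_one hZ0]; exact hZ1
      _ = N * M1 := by rw [one_mul]
  have hlt' : (ℓ : ℝ) ^ 2 * (N * M1) < (c.mat ^ ℓ).trace := by
    refine lt_of_le_of_lt ?_ (lt_of_lt_of_le hlt htr)
    refine mul_le_mul_of_nonneg_right ?_ (by positivity)
    have : (ℓ : ℝ) ≤ ((4 * m * tau k n : ℕ) : ℝ) := by exact_mod_cast hℓm
    exact pow_le_pow_left₀ (Nat.cast_nonneg _) this 2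
  obtain ⟨x, hx1, hx2, hx3⟩ := exists_good_closed c.mat hMn ℓ hℓ0 near
    (fun t => r < t ∧ r < ℓ - t) (N * M1) (by positivity) hη hlt'
  have hgood : GoodSeq G w r ℓ x :=
    { pos := hℓ0
      per := hx1
      next := fun i => (dartChain_mat_pos h3 h12 hE (hx2 i)).1
      nb := fun i => (dartChain_mat_pos h3 h12 hE (hx2 i)).2.1
      comp := fun i => (dartChain_mat_pos h3 h12 hE (hx2 i)).2.2
      far := fun i j hij hj h1 h2 => hx3 i j hij hj ⟨h1, h2⟩ }
  exact ⟨_, thick_removable hε hgap h3 h12 hE hg (le_refl _) hrg2 hρε hgε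
    (goodSeq_thick hg (by omega) hgood)⟩

end GE
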