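import Pool.Agent.H74.GE.Growth
import Pool.Agent.H74.GE.Gap
import Pool.Agent.H74.GE.Bridge

/-!
# GE/Removable : a thick compatible circuit in an expander is removable

By `bridge_blocked` a bridge gives `Blocked G w C X a b` and `Blocked G w C Xᶜ b a`.
One of `X`, `Xᶜ` (call it `Y`) has at most `n/2` elements; by `cr_gap`, `growth` and
`4/ε ≤ 2^ρ`: `ε |Y|/2 ≤ cr ≤ |Y|/2^ρ + 2 ≤ ε |Y|/4 + 2`, so `|Y| ≤ 8/ε < g`, contradicting
`card_ge`.
-/

open scoped Classical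

noncomputable section

namespace GE

universe u
variable {V : Type u} [Fintype V]

theorem Removable_side {G : SimpleGraph V} {w : Sym2 V → ℕ} {r g ρ : ℕ} {C : Finset (Sym2 V)}
    {ε : ℝ} (hε : 0 < ε) (hgap : SpectralGap G ε) (h3 : IsCubic G) (h12 : IsWeight12 G w)
    (hE : IsEulerian G w) (hg : GirthAtLeast G g) (hρ : 2 * ρ + 2 ≤ r) (hrg : 2 * r < g)
    (hρε : 4 / ε ≤ 2 ^ ρ) (hgε : 8 / ε < g) (hC : ThickCirc G w r C) {X : Finset V} {a b : V}
    (hB : Blocked G w C X a b) (hX : 2 * X.card ≤ Fintype.card V) : False := by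
  have h1 := cr_gap hgap hε X hX
  have h2 := hB.growth h3 h12 hE hg hρ hrg hC
  have h4 := hB.card_ge h3 h12 hE hg hC
  have h2' : (cr G X : ℝ) * 2 ^ ρ ≤ X.card + 2 * 2 ^ ρ := by exact_mod_cast h2
  have h4' : (g : ℝ) ≤ X.card := by exact_mod_cast h4
  have hp : (0 : ℝ) < 2 ^ ρ := by positivity
  have hk : 4 ≤ 2 ^ ρ * ε := by
    rwa [div_le_iff₀ hε] at hρε
  have h5 : ε * X.card / 2 * 2 ^ ρ ≤ X.card + 2 * 2 ^ ρ :=
    le_trans (mul_le_mul_of_nonneg_right h1 hp.le) h2'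
  have hX0 : (0 : ℝ) ≤ X.card := Nat.cast_nonneg _
  have h6 : (X.card : ℝ) ≤ ε * X.card / 4 * 2 ^ ρ := by nlinarith
  have h7 : ε * X.card / 4 * 2 ^ ρ ≤ 2 * 2 ^ ρ := by nlinarith
  have h8 : ε * X.card / 4 ≤ 2 := le_of_mul_le_mul_right h7 hp
  have h9 : (X.card : ℝ) ≤ 8 / ε := by
    rw [le_div_iff₀ hε]; linarith
  linarith

theorem thick_removable {G : SimpleGraph V} {w : Sym2 V → ℕ} {r g ρ : ℕ} {C : Finset (Sym2 V)}
    {ε : ℝ} (hε : 0 < ε) (hgap : SpectralGap G ε) (h3 : IsCubic G) (h12 : IsWeight12 G w)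
    (hE : IsEulerian G w) (hg : GirthAtLeast G g) (hρ : 2 * ρ + 2 ≤ r) (hrg : 2 * r < g)
    (hρε : 4 / ε ≤ 2 ^ ρ) (hgε : 8 / ε < g) (hC : ThickCirc G w r C) : IsRemovable G w C := by
  refine ⟨hC.circ, ?_, sub_eulerian h12 hE hC⟩
  intro e he hbr
  induction e using Sym2.ind with
  | _ a b =>
    obtain ⟨X, h1, h2⟩ := bridge_blocked h12 hE hC he hbr
    rcases le_or_gt (2 * X.card) (Fintype.card V) with h | h
    · exact Removable_side hε hgap h3 h12 hE hg hρ hrg hρε hgε hC h1 h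
    · refine Removable_side hε hgap h3 h12 hE hg hρ hrg hρε hgε hC h2 ?_
      rw [Finset.card_compl]
      have := Finset.card_le_univ X
      omega

end GE
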