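import Pool.Agent.H74.GE.Girth

/-!
# GE/SeqWalk : pieces of dart sequences as walks; powers of the transition matrix

* `exists_walk_of_seq`, `exists_nb_walk_of_seq`: induction on `k`.
* `two_steps_edge`: if `b.fst = a.snd` and `b ≠ a.symm` then `a.edge ≠ b.edge`.
* `pow_pos_nb`: abstract version: `M` a matrix with nonnegative entries on the darts such that a
  positive entry `M a b` implies `b.fst = a.snd` and `b ≠ a.symm`; then a positive entry of `M^j`
  gives a non-backtracking walk of length `j` from `a.fst` to `b.fst`. Induction on `j` with the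
  stronger conclusion `j ≠ 0 → p.edges.head? = some a.edge`
  (`(M^(j+1)) a b = Σ_c M a c * (M^j) c b > 0` gives `c` with both factors positive; put the dart
  `a` in front of the walk of `c`).
-/

open scoped Classical

noncomputable section

namespace GE

universe u
variable {V : Type u}

/-- a finite piece of a sequence of darts as a walk. -/
theorem exists_walk_of_seq {G : SimpleGraph V} (x : ℕ → G.Dart)
    (hnext : ∀ i, (x (i + 1)).fst = (x i).snd) (i k : ℕ) :
    ∃ p : G.Walk (x i).fst (x (i + k)).fst, p.length = k ∧
      p.edges = (List.range k).map (fun t => (x (i + t)).edge) := by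
  induction k with
  | zero => exact ⟨SimpleGraph.Walk.nil, rfl, by simp⟩
  | succ k ih =>
    obtain ⟨p, hp, he⟩ := ih
    have hadj : G.Adj (x (i + k)).fst (x (i + (k + 1))).fst := by
      have h1 : (x (i + (k + 1))).fst = (x (i + k)).snd := hnext (i + k)
      rw [h1]
      exact (x (i + k)).adj
    have hedge : s((x (i + k)).fst, (x (i + (k + 1))).fst) = (x (i + k)).edge := by
      have h1 : (x (i + (k + 1))).fst = (x (i + k)).snd := hnext (i + k)
      rw [h1]
      rfl
    refine ⟨p.concat hadj, ?_, ?_⟩
    · rw [SimpleGraph.Walk.length_concat, hp]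
    · rw [SimpleGraph.Walk.edges_concat, he, hedge, List.range_succ, List.map_append,
        List.concat_eq_append]
      simp

theorem two_steps_edge {G : SimpleGraph V} {a b : G.Dart} (h : b.fst = a.snd) (h' : b ≠ a.symm) :
    a.edge ≠ b.edge := by
  intro he
  rw [SimpleGraph.dart_edge_eq_iff] at he
  rcases he with he | he
  · subst he
    exact a.adj.ne h
  · apply h'
    rw [he, SimpleGraph.Dart.symm_symm]

/-- the same walk is non-backtracking when consecutive darts are not opposite. -/
theorem exists_nb_walk_of_seq {G : SimpleGraph V} (x : ℕ → G.Dart)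
    (hnext : ∀ i, (x (i + 1)).fst = (x i).snd) (hnb : ∀ i, x (i + 1) ≠ (x i).symm) (i k : ℕ) :
    ∃ p : G.Walk (x i).fst (x (i + k)).fst, p.length = k ∧ NB p ∧
      p.edges = (List.range k).map (fun t => (x (i + t)).edge) := by
  obtain ⟨p, hp, he⟩ := exists_walk_of_seq x hnext i k
  refine ⟨p, hp, ?_, he⟩
  unfold NB
  rw [he, List.isChain_iff_getElem]
  intro t ht
  simp only [List.length_map, List.length_range] at ht
  simp only [List.getElem_map, List.getElem_range]
  have h1 := two_steps_edge (hnext (i + t)) (hnb (i + t))
  exact h1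

theorem pow_pos_nb {V : Type u} [Fintype V] {G : SimpleGraph V} (M : Matrix G.Dart G.Dart ℝ)
    (hM : ∀ a b, 0 ≤ M a b) (hstep : ∀ a b, 0 < M a b → b.fst = a.snd ∧ b ≠ a.symm) (j : ℕ)
    (a b : G.Dart) (h : 0 < (M ^ j) a b) :
    ∃ p : G.Walk a.fst b.fst, p.length = j ∧ NB p := by
  suffices H : ∀ j : ℕ, ∀ a b : G.Dart, 0 < (M ^ j) a b →
      ∃ p : G.Walk a.fst b.fst, p.length = j ∧ NB p ∧
        (j ≠ 0 → p.edges.head? = some a.edge) by
    obtain ⟨p, h1, h2, _⟩ := H j a b h
    exact ⟨p, h1, h2⟩
  have hpow : ∀ j : ℕ, ∀ a b : G.Dart, 0 ≤ (M ^ j) a b := by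
    intro j
    induction j with
    | zero =>
      intro a b
      rw [pow_zero, Matrix.one_apply]
      split_ifs <;> norm_num
    | succ j ih =>
      intro a b
      rw [pow_succ', Matrix.mul_apply]
      exact Finset.sum_nonneg fun c _ => mul_nonneg (hM a c) (ih c b)
  intro j
  induction j with
  | zero =>
    intro a b hab
    rw [pow_zero, Matrix.one_apply] at hab
    split_ifs at hab with hc
    · subst hc
      exact ⟨SimpleGraph.Walk.nil, rfl, by simp [NB], fun h => absurd rfl h⟩
    · exact absurd hab (lt_irrefl _)
  | succ j ih =>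
    intro a b hab
    rw [pow_succ', Matrix.mul_apply] at hab
    obtain ⟨c, -, hc⟩ := Finset.exists_lt_of_sum_lt (s := Finset.univ) (f := fun _ => (0 : ℝ))
      (g := fun c => M a c * (M ^ j) c b) (by simpa using hab)
    have hac : 0 < M a c := by
      rcases (hM a c).lt_or_eq with h0 | h0
      · exact h0
      · rw [← h0] at hc
        simp at hc
    have hcb : 0 < (M ^ j) c b := by
      rcases (hpow j c b).lt_or_eq with h0 | h0
      · exact h0
      · rw [← h0] at hc
        simp at hc
    obtain ⟨h1, h2⟩ := hstep a c hac
    obtain ⟨p, hp, hnb, hhead⟩ := ih c b hcb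
    have hadj : G.Adj a.fst c.fst := by
      rw [h1]
      exact a.adj
    have hedge : s(a.fst, c.fst) = a.edge := by
      rw [h1]
      rfl
    refine ⟨SimpleGraph.Walk.cons hadj p, ?_, ?_, ?_⟩
    · rw [SimpleGraph.Walk.length_cons, hp]
    · unfold NB
      rw [SimpleGraph.Walk.edges_cons, hedge, List.isChain_cons]
      refine ⟨?_, hnb⟩
      intro e he
      by_cases hj : j = 0
      · subst hj
        have h3 : p.edges = [] := by
          apply List.eq_nil_of_length_eq_zero
          rw [SimpleGraph.Walk.length_edges, hp]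
        rw [h3] at he
        simp at he
      · have h3 := hhead hj
        rw [h3] at he
        have h4 : c.edge = e := by simpa using he
        rw [← h4]
        exact two_steps_edge h1 h2
    · intro _
      rw [SimpleGraph.Walk.edges_cons, hedge]
      rfl

end GE
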