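import Pool.Agent.H74.GE.SeqWalk

/-!
# GE/TwoDeg : sets of inner degree at least two are large; balls are small

* `card_ge_of_two`: `X` a nonempty finite set such that for every `x ∈ X` and every `y` there is a
  neighbour `z ∈ X` of `x` with `z ≠ y`. Choose recursively a sequence of darts `a₀, a₁, ...` with all
  endpoints in `X`, `a_{i+1}.fst = a_i.snd`, `a_{i+1}.snd ≠ a_i.fst` (so `a_{i+1} ≠ a_i.symm`). The
  vertices `(a_i).fst` for `i < g` are distinct: otherwise `exists_nb_walk_of_seq` gives a closed
  non-backtracking walk of positive length `< g`, contradicting `nb_closed`. So `g ≤ |X|`.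
* `near_card`: by induction on `r` the set of vertices which can be reached from `a` by a walk of
  length at most `r` has at most `4^r` elements; every vertex has three darts.
* `cubic_card_ge`: `card_ge_of_two` for `X = univ`.
-/

open scoped Classical

noncomputable section

namespace GE

universe u
variable {V : Type u}

theorem card_ge_of_two {G : SimpleGraph V} {g : ℕ} (hg : GirthAtLeast G g) (X : Finset V)
    (hX : X.Nonempty) (h2 : ∀ x ∈ X, ∀ y, ∃ z ∈ X, G.Adj x z ∧ z ≠ y) : g ≤ X.card := by
  obtain ⟨x0, hx0⟩ := hX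
  obtain ⟨z0, hz0, hadj0, -⟩ := h2 x0 hx0 x0
  have hstep : ∀ d : {d : G.Dart // d.fst ∈ X ∧ d.snd ∈ X},
      ∃ d' : {d : G.Dart // d.fst ∈ X ∧ d.snd ∈ X}, d'.1.fst = d.1.snd ∧ d'.1.snd ≠ d.1.fst := by
    rintro ⟨d, hd1, hd2⟩
    obtain ⟨z, hz, hadj, hne⟩ := h2 d.snd hd2 d.fst
    exact ⟨⟨⟨(d.snd, z), hadj⟩, hd2, hz⟩, rfl, hne⟩
  choose st hst1 hst2 using hstep
  set s0 : {d : G.Dart // d.fst ∈ X ∧ d.snd ∈ X} := ⟨⟨(x0, z0), hadj0⟩, hx0, hz0⟩ with hs0
  set x : ℕ → G.Dart := fun n => (st^[n] s0).1 with hx
  have hnext : ∀ i, (x (i + 1)).fst = (x i).snd := by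
    intro i
    rw [hx]
    simp only [Function.iterate_succ_apply']
    exact hst1 _
  have hne : ∀ i, (x (i + 1)).snd ≠ (x i).fst := by
    intro i
    rw [hx]
    simp only [Function.iterate_succ_apply']
    exact hst2 _
  have hnb : ∀ i, x (i + 1) ≠ (x i).symm := by
    intro i hi
    apply hne i
    rw [hi]
    rfl
  have hmem : ∀ i, (x i).fst ∈ X := fun i => (st^[i] s0).2.1
  have hdist : ∀ i j, i < j → j < g → (x i).fst ≠ (x j).fst := by
    intro i j hij hj he
    obtain ⟨p, hp1, hp2, -⟩ := exists_nb_walk_of_seq x hnext hnb i (j - i)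
    have he' : (x (i + (j - i))).fst = (x i).fst := by
      rw [show i + (j - i) = j by omega]
      exact he.symm
    have h0 := nb_closed hg (p.copy rfl he') (by
      unfold NB at hp2 ⊢
      rw [SimpleGraph.Walk.edges_copy]
      exact hp2) (by
      rw [SimpleGraph.Walk.length_copy, hp1]
      omega)
    rw [SimpleGraph.Walk.length_copy, hp1] at h0
    omega
  have hcard : (Finset.range g).card ≤ X.card := by
    apply Finset.card_le_card_of_injOn (fun i => (x i).fst)
    · intro i _
      exact hmem i
    · intro i hi j hj he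
      rw [Finset.coe_range, Set.mem_Iio] at hi hj
      rcases lt_trichotomy i j with h | h | h
      · exact absurd he (hdist i j h hj)
      · exact h
      · exact absurd he.symm (hdist j i h hi)
  rwa [Finset.card_range] at hcard

lemma TwoDeg_nbr [Fintype V] {G : SimpleGraph V} (h3 : IsCubic G) (a : V) :
    (Finset.univ.filter (fun c => G.Adj a c)).card = 3 := by
  have h := h3 a
  rw [← h, Set.ncard_eq_toFinset_card']
  congr 1
  ext c
  simp

lemma TwoDeg_ball [Fintype V] {G : SimpleGraph V} (h3 : IsCubic G) (r : ℕ) : ∀ a : V,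
    (Finset.univ.filter (fun b : V => ∃ p : G.Walk a b, p.length ≤ r)).card ≤ 4 ^ r := by
  induction r with
  | zero =>
    intro a
    have hsub : (Finset.univ.filter (fun b : V => ∃ p : G.Walk a b, p.length ≤ 0)) ⊆ {a} := by
      intro b hb
      rw [Finset.mem_filter] at hb
      obtain ⟨-, p, hp⟩ := hb
      have := SimpleGraph.Walk.eq_of_length_eq_zero (Nat.le_zero.1 hp)
      simp [this]
    calc _ ≤ ({a} : Finset V).card := Finset.card_le_card hsub
      _ = 4 ^ 0 := by simp
  | succ r ih =>
    intro a
    have hsub : (Finset.univ.filter (fun b : V => ∃ p : G.Walk a b, p.length ≤ r + 1)) ⊆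
        {a} ∪ (Finset.univ.filter (fun c => G.Adj a c)).biUnion
          (fun c => Finset.univ.filter (fun b : V => ∃ p : G.Walk c b, p.length ≤ r)) := by
      intro b hb
      rw [Finset.mem_filter] at hb
      obtain ⟨-, p, hp⟩ := hb
      cases p with
      | nil => simp
      | @cons _ c _ h q =>
        rw [SimpleGraph.Walk.length_cons] at hp
        rw [Finset.mem_union, Finset.mem_biUnion]
        right
        refine ⟨c, ?_, ?_⟩
        · rw [Finset.mem_filter]
          exact ⟨Finset.mem_univ _, h⟩
        · rw [Finset.mem_filter]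
          exact ⟨Finset.mem_univ _, q, by omega⟩
    refine (Finset.card_le_card hsub).trans ((Finset.card_union_le _ _).trans ?_)
    have h1 : ((Finset.univ.filter (fun c => G.Adj a c)).biUnion
          (fun c => Finset.univ.filter (fun b : V => ∃ p : G.Walk c b, p.length ≤ r))).card ≤
          (Finset.univ.filter (fun c => G.Adj a c)).card * 4 ^ r :=
      Finset.card_biUnion_le_card_mul _ _ _ (fun c _ => ih c)
    rw [TwoDeg_nbr h3 a] at h1
    rw [Finset.card_singleton, pow_succ]
    have h4 : 1 ≤ 4 ^ r := Nat.one_le_pow _ _ (by norm_num)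
    omega

theorem near_card [Fintype V] {G : SimpleGraph V} (h3 : IsCubic G) (r : ℕ) (a : V) :
    (Finset.univ.filter (fun b : G.Dart => ∃ p : G.Walk a b.fst, p.length ≤ r)).card
      ≤ 3 * 4 ^ r := by
  have hb := TwoDeg_ball h3 r a
  have h1 : (Finset.univ.filter (fun b : G.Dart => ∃ p : G.Walk a b.fst, p.length ≤ r)).card ≤
      3 * (Finset.univ.filter (fun b : V => ∃ p : G.Walk a b, p.length ≤ r)).card := by
    apply Finset.card_le_mul_card_image_of_maps_to (f := fun d : G.Dart => d.fst)
    · intro d hd
      rw [Finset.mem_filter] at hd ⊢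
      exact ⟨Finset.mem_univ _, hd.2⟩
    · intro v _
      rw [← TwoDeg_nbr h3 v]
      apply Finset.card_le_card_of_injOn (fun d : G.Dart => d.snd)
      · intro d hd
        rw [Finset.mem_coe, Finset.mem_filter] at hd
        rw [Finset.mem_coe, Finset.mem_filter]
        refine ⟨Finset.mem_univ _, ?_⟩
        have := d.adj
        rw [hd.2] at this
        exact this
      · intro d hd d' hd' he
        rw [Finset.mem_coe, Finset.mem_filter] at hd hd'
        apply SimpleGraph.Dart.ext
        exact Prod.ext (hd.2.trans hd'.2.symm) he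
  exact h1.trans (Nat.mul_le_mul_left 3 hb)

theorem cubic_card_ge [Fintype V] [Nonempty V] {G : SimpleGraph V} (h3 : IsCubic G) {g : ℕ}
    (hg : GirthAtLeast G g) : g ≤ Fintype.card V := by
  rw [← Finset.card_univ]
  apply card_ge_of_two hg Finset.univ Finset.univ_nonempty
  intro x _ y
  obtain ⟨z, hz, hne⟩ := Set.exists_ne_of_one_lt_ncard
    (show 1 < (G.neighborSet x).ncard by rw [h3 x]; norm_num) y
  exact ⟨z, Finset.mem_univ _, hz, hne⟩

end GE
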